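import Pool.Agent.FreTensor.Chase

/-!
Bimodule tensor products: `Y ⊗_A (Z ⊗_A X)` is a model of `Z ⊗_{A-A} (X ⊗ Y)`, and exactness.
-/

set_option autoImplicit false

universe u

namespace Pool.Agent.FreTensor

variable {A : FreAlg.{u}}

/-! ### Transfer of exactness to retracts -/

theorem exact_retract {P₁ P₂ P₃ N₁ N₂ N₃ : Fre.{u}} {f : P₁.V →ₗ[ℂ] P₂.V} {g : P₂.V →ₗ[ℂ] P₃.V}
    {f' : N₁.V →ₗ[ℂ] N₂.V} {g' : N₂.V →ₗ[ℂ] N₃.V} (h : Exact N₁ N₂ N₃ f' g')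
    (φ₁ : P₁.V →ₗ[ℂ] N₁.V) (φ₂ : P₂.V →ₗ[ℂ] N₂.V) (φ₃ : P₃.V →ₗ[ℂ] N₃.V)
    (ψ₁ : N₁.V →ₗ[ℂ] P₁.V) (ψ₂ : N₂.V →ₗ[ℂ] P₂.V) (ψ₃ : N₃.V →ₗ[ℂ] P₃.V)
    (h1 : ∀ x, ψ₁ (φ₁ x) = x) (h2 : ∀ x, ψ₂ (φ₂ x) = x) (h3 : ∀ x, ψ₃ (φ₃ x) = x)
    (a1 : ∀ x, φ₂ (f x) = f' (φ₁ x)) (a2 : ∀ x, φ₃ (g x) = g' (φ₂ x))
    (b1 : ∀ x, ψ₂ (f' x) = f (ψ₁ x)) (b2 : ∀ x, ψ₃ (g' x) = g (ψ₂ x)) :
    Exact P₁ P₂ P₃ f g := by
  obtain ⟨hi, hm, hs⟩ := h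
  refine ⟨fun x y hxy => ?_, fun x => ⟨fun hx => ?_, ?_⟩, fun y => ?_⟩
  · rw [← h1 x, ← h1 y]
    congr 1
    apply hi
    rw [← a1, ← a1, hxy]
  · have h4 : g' (φ₂ x) = 0 := by rw [← a2, hx, map_zero]
    obtain ⟨n, hn⟩ := (hm _).1 h4
    exact ⟨ψ₁ n, by rw [← b1, hn, h2]⟩
  · rintro ⟨y, rfl⟩
    rw [← h3 (g (f y)), a2, a1, (hm _).2 ⟨_, rfl⟩, map_zero]
  · obtain ⟨n, hn⟩ := hs (φ₃ y)
    exact ⟨ψ₂ n, by rw [← b2, hn, h3]⟩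

theorem IsTR.iso {E F P P' : Fre.{u}} {R : Rels E F} {t : E.V →ₗ[ℂ] F.V →ₗ[ℂ] P.V}
    {t' : E.V →ₗ[ℂ] F.V →ₗ[ℂ] P'.V} (h : IsTR E F R P t) (h' : IsTR E F R P' t') :
    ∃ (φ : P.V →ₗ[ℂ] P'.V) (ψ : P'.V →ₗ[ℂ] P.V), IsCont P P' φ ∧ IsCont P' P ψ ∧
      (∀ x y, φ (t x y) = t' x y) ∧ (∀ x y, ψ (t' x y) = t x y) ∧ (∀ z, ψ (φ z) = z) ∧
      ∀ z, φ (ψ z) = z := by
  obtain ⟨φ, hφ, hφ2⟩ := h.lift t' h'.cont h'.resp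
  obtain ⟨ψ, hψ, hψ2⟩ := h'.lift t h.cont h.resp
  refine ⟨φ, ψ, hφ, hψ, hφ2, hψ2, fun z => ?_, fun z => ?_⟩
  · refine h.ext (f := ψ ∘ₗ φ) (f' := LinearMap.id) (hψ.comp hφ) (IsCont.id _) (fun x y => ?_) z
    rw [LinearMap.comp_apply, hφ2, hψ2, LinearMap.id_apply]
  · refine h'.ext (f := φ ∘ₗ ψ) (f' := LinearMap.id) (hφ.comp hψ) (IsCont.id _) (fun x y => ?_) z
    rw [LinearMap.comp_apply, hψ2, hφ2, LinearMap.id_apply]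

/-! ### Bimodules -/

/-- the right module underlying a bimodule -/
@[reducible] def BMod.toR (Z : BMod A) : RMod A where
  toFre := Z.toFre
  act := Z.ract
  act_bil := Z.ract_bil
  act_mul := Z.ract_mul

theorem exists_ltAct (Z : BMod A) (X : LMod A) :
    ∃ b : A.V →ₗ[ℂ] (tenO Z.toR X).V →ₗ[ℂ] (tenO Z.toR X).V,
      IsCont₂ A.toFre (tenO Z.toR X) (tenO Z.toR X) b ∧
      ∀ a z x, b a (tmO Z.toR X z x) = tmO Z.toR X (Z.lactL a z) x :=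
  (tenO_isTR Z.toR X).lift₂
    (triL (D := A.toFre) (E := Z.toFre) (F := X.toFre) (E' := Z.toFre) (G := tenO Z.toR X)
      Z.lactL (tmO Z.toR X))
    (isCont₃_triL Z.lactL_cont (tmO_cont Z.toR X)) (fun a => resp_balR.2 fun z b x => by
      rw [triL_apply, triL_apply, ← tmO_bal]
      change tmO Z.toR X (Z.lactL a (Z.ractL z b)) x = tmO Z.toR X (Z.ractL (Z.lactL a z) b) x
      rw [Z.commL])

/-- the left action on `Z ⊗_A X` -/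
noncomputable def ltAct (Z : BMod A) (X : LMod A) :
    A.V →ₗ[ℂ] (tenO Z.toR X).V →ₗ[ℂ] (tenO Z.toR X).V := (exists_ltAct Z X).choose

theorem ltAct_cont (Z : BMod A) (X : LMod A) :
    IsCont₂ A.toFre (tenO Z.toR X) (tenO Z.toR X) (ltAct Z X) := (exists_ltAct Z X).choose_spec.1

theorem ltAct_tm (Z : BMod A) (X : LMod A) (a : A.V) (z : Z.V) (x : X.V) :
    ltAct Z X a (tmO Z.toR X z x) = tmO Z.toR X (Z.lactL a z) x :=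
  (exists_ltAct Z X).choose_spec.2 a z x

theorem ltAct_mul (Z : BMod A) (X : LMod A) (a b : A.V) (v : (tenO Z.toR X).V) :
    ltAct Z X (A.mulL a b) v = ltAct Z X a (ltAct Z X b v) := by
  refine (tenO_isTR Z.toR X).ext (f := ltAct Z X (A.mulL a b))
    (f' := ltAct Z X a ∘ₗ ltAct Z X b) ((ltAct_cont Z X).right _)
    (((ltAct_cont Z X).right _).comp ((ltAct_cont Z X).right _)) (fun z x => ?_) v
  rw [LinearMap.comp_apply, ltAct_tm, ltAct_tm, ltAct_tm, Z.lactL_mul]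

/-- the left module `Z ⊗_A X` -/
@[reducible] noncomputable def lt (Z : BMod A) (X : LMod A) : LMod A :=
  mkLM (tenO Z.toR X) (ltAct Z X) (ltAct_cont Z X) (ltAct_mul Z X)

theorem lt_act (Z : BMod A) (X : LMod A) (a : A.V) (z : Z.V) (x : X.V) :
    (lt Z X).actL a (tmO Z.toR X z x) = tmO Z.toR X (Z.lactL a z) x := ltAct_tm Z X a z x

/-- the relations `z a ⊗ m = z ⊗ a m` and `a z ⊗ m = z ⊗ m a` -/
def biR (Z M : BMod A) : Rels Z.toFre M.toFre :=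
  {r | ∃ z a m, r = ((Z.ractL z a, m), (z, M.lactL a m)) ∨ r = ((Z.lactL a z, m), (z, M.ractL m a))}

theorem resp_biR {Z M : BMod A} {G : Fre.{u}} {b : Z.V →ₗ[ℂ] M.V →ₗ[ℂ] G.V} :
    Resp (biR Z M) b ↔ (∀ z a m, b (Z.ractL z a) m = b z (M.lactL a m)) ∧
      ∀ z a m, b (Z.lactL a z) m = b z (M.ractL m a) := by
  constructor
  · intro h
    exact ⟨fun z a m => h _ ⟨z, a, m, Or.inl rfl⟩, fun z a m => h _ ⟨z, a, m, Or.inr rfl⟩⟩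
  · rintro ⟨h1, h2⟩ r ⟨z, a, m, rfl | rfl⟩
    · exact h1 z a m
    · exact h2 z a m

/-- the bimodule `X ⊗ Y`, in terms of bilinear maps -/
def IsTBi (X : LMod A) (Y : RMod A) (M : BMod A) (m : X.V →ₗ[ℂ] Y.V →ₗ[ℂ] M.V) : Prop :=
  IsTR X.toFre Y.toFre ∅ M.toFre m ∧ (∀ a x y, M.lactL a (m x y) = m (X.actL a x) y) ∧
    ∀ x y a, M.ractL (m x y) a = m x (Y.actL y a)

/-- An admissible sequence `0 → Z₁ → Z₂ → Z₃ → 0` of Fréchet bimodules. -/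
def AdmissibleB (Z₁ Z₂ Z₃ : BMod A) (i : Z₁.V →ₗ[ℂ] Z₂.V) (q : Z₂.V →ₗ[ℂ] Z₃.V) :
    Prop :=
  SplitExact Z₁.toFre Z₂.toFre Z₃.toFre i q ∧
    (∀ a x, i (Z₁.lactL a x) = Z₂.lactL a (i x)) ∧ (∀ x a, i (Z₁.ractL x a) = Z₂.ractL (i x) a) ∧
    (∀ a x, q (Z₂.lactL a x) = Z₃.lactL a (q x)) ∧ ∀ x a, q (Z₂.ractL x a) = Z₃.ractL (q x) a

/-- `Y ⊗_A (Z ⊗_A X)` is a model of `Z ⊗_{A-A} (X ⊗ Y)` -/
theorem bi_model {X : LMod A} {Y : RMod A} {M : BMod A} {m : X.V →ₗ[ℂ] Y.V →ₗ[ℂ] M.V}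
    (hM : IsTBi X Y M m) (Z : BMod A) :
    ∃ T : Z.V →ₗ[ℂ] M.V →ₗ[ℂ] (tenO Y (lt Z X)).V,
      IsTR Z.toFre M.toFre (biR Z M) (tenO Y (lt Z X)) T ∧
      ∀ z x y, T z (m x y) = tmO Y (lt Z X) y (tmO Z.toR X z x) := by
  obtain ⟨hm, hml, hmr⟩ := hM
  obtain ⟨T, hTc, hT⟩ := hm.lift₂
    (triL (D := Z.toFre) (E := X.toFre) (F := Y.toFre) (E' := (lt Z X).toFre)
      (G := tenO Y (lt Z X)) (tmO Z.toR X) (tmO Y (lt Z X)).flip)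
    (isCont₃_triL (tmO_cont Z.toR X) (tmO_cont Y (lt Z X)).flip) (fun _ => resp_empty _)
  simp only [triL_apply, LinearMap.flip_apply] at hT
  refine ⟨T, ⟨⟨hTc, resp_biR.2 ⟨fun z a u => ?_, fun z a u => ?_⟩⟩, fun G b hb hR => ?_⟩, hT⟩
  · refine hm.ext (f := T (Z.ractL z a)) (f' := T z ∘ₗ M.lactL a) (hTc.right _)
      ((hTc.right _).comp (M.lactL_cont.right _)) (fun x y => ?_) u
    rw [LinearMap.comp_apply, hT, hml, hT]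
    congr 1
    exact tmO_bal Z.toR X z a x
  · refine hm.ext (f := T (Z.lactL a z)) (f' := T z ∘ₗ M.ractL.flip a) (hTc.right _)
      ((hTc.right _).comp (M.ractL_cont.left _)) (fun x y => ?_) u
    rw [LinearMap.comp_apply, LinearMap.flip_apply, hT, hmr, hT, tmO_bal, lt_act]
  · obtain ⟨hR1, hR2⟩ := resp_biR.1 hR
    obtain ⟨β, hβc, hβ⟩ := (tenO_isTR Z.toR X).lift₂
      (triR (D := Y.toFre) (E := Z.toFre) (F := X.toFre) (F' := M.toFre) (G := G) m.flip b)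
      (isCont₃_triR hm.cont.flip hb) (fun y => resp_balR.2 fun z a x => by
        rw [triR_apply, triR_apply, LinearMap.flip_apply, LinearMap.flip_apply, ← hml, ← hR1]
        rfl)
    simp only [triR_apply, LinearMap.flip_apply] at hβ
    have hβb : Resp (balR Y (lt Z X)) β := by
      refine resp_balR.2 fun y a v => ?_
      refine (tenO_isTR Z.toR X).ext (f := β (Y.actL y a)) (f' := β y ∘ₗ ltAct Z X a)
        (hβc.right _) ((hβc.right _).comp ((ltAct_cont Z X).right _)) (fun z x => ?_) v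
      rw [LinearMap.comp_apply, ltAct_tm, hβ, hβ, hR2, hmr]
    obtain ⟨f, hfc, hf⟩ := (tenO_isTR Y (lt Z X)).lift β hβc hβb
    have hf2 : ∀ z u, f (T z u) = b z u := by
      intro z u
      refine hm.ext (f := f ∘ₗ T z) (f' := b z) (hfc.comp (hTc.right _)) (hb.right _)
        (fun x y => ?_) u
      rw [LinearMap.comp_apply, hT, hf, hβ]
    refine ⟨f, ⟨hfc, hf2⟩, fun f' hf' => ?_⟩
    ext w
    refine (tenO_isTR Y (lt Z X)).ext hf'.1 hfc (fun y v => ?_) w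
    refine (tenO_isTR Z.toR X).ext (f := f' ∘ₗ tmO Y (lt Z X) y) (f' := f ∘ₗ tmO Y (lt Z X) y)
      (hf'.1.comp ((tmO_cont Y (lt Z X)).right y)) (hfc.comp ((tmO_cont Y (lt Z X)).right y))
      (fun z x => ?_) v
    rw [LinearMap.comp_apply, LinearMap.comp_apply, ← hT, hf'.2, hf2]

/-- exactness of `Z ⊗_{A-A} (X ⊗ Y)` in `Z` -/
theorem bi_exact {X : LMod A} (hX : LFlat X) {Y : RMod A} (hY : RFlat Y) {M : BMod A}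
    {m : X.V →ₗ[ℂ] Y.V →ₗ[ℂ] M.V} (hM : IsTBi X Y M m) {Z₁ Z₂ Z₃ : BMod A}
    {i : Z₁.V →ₗ[ℂ] Z₂.V} {q : Z₂.V →ₗ[ℂ] Z₃.V} (had : AdmissibleB Z₁ Z₂ Z₃ i q)
    {P₁ P₂ P₃ : Fre.{u}} {t₁ : Z₁.V →ₗ[ℂ] M.V →ₗ[ℂ] P₁.V} {t₂ : Z₂.V →ₗ[ℂ] M.V →ₗ[ℂ] P₂.V}
    {t₃ : Z₃.V →ₗ[ℂ] M.V →ₗ[ℂ] P₃.V} (h1 : IsTR Z₁.toFre M.toFre (biR Z₁ M) P₁ t₁)
    (h2 : IsTR Z₂.toFre M.toFre (biR Z₂ M) P₂ t₂) (h3 : IsTR Z₃.toFre M.toFre (biR Z₃ M) P₃ t₃)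
    {f : P₁.V →ₗ[ℂ] P₂.V} {g : P₂.V →ₗ[ℂ] P₃.V} (hf : IsCont P₁ P₂ f) (hg : IsCont P₂ P₃ g)
    (hf2 : ∀ z x, f (t₁ z x) = t₂ (i z) x) (hg2 : ∀ z x, g (t₂ z x) = t₃ (q z) x) :
    Exact P₁ P₂ P₃ f g := by
  obtain ⟨hsp, hil, hir, hql, hqr⟩ := had
  have hi : IsCont _ _ i := hsp.2.1.2.2
  have hq : IsCont _ _ q := hsp.2.2.1.2.2
  -- the maps `W₁ → W₂ → W₃`
  obtain ⟨wf, hwf, hwf2⟩ := (tenO_isTR Z₁.toR X).lift
    (tmO Z₂.toR X ∘ₗ i : Z₁.V →ₗ[ℂ] X.V →ₗ[ℂ] (tenO Z₂.toR X).V)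
    (IsCont₂.compL (tmO_cont Z₂.toR X) hi) (resp_balR.2 fun z a x => by
      rw [LinearMap.comp_apply, LinearMap.comp_apply, ← tmO_bal]
      change tmO Z₂.toR X (i (Z₁.ractL z a)) x = tmO Z₂.toR X (Z₂.ractL (i z) a) x
      rw [hir])
  obtain ⟨wg, hwg, hwg2⟩ := (tenO_isTR Z₂.toR X).lift
    (tmO Z₃.toR X ∘ₗ q : Z₂.V →ₗ[ℂ] X.V →ₗ[ℂ] (tenO Z₃.toR X).V)
    (IsCont₂.compL (tmO_cont Z₃.toR X) hq) (resp_balR.2 fun z a x => by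
      rw [LinearMap.comp_apply, LinearMap.comp_apply, ← tmO_bal]
      change tmO Z₃.toR X (q (Z₂.ractL z a)) x = tmO Z₃.toR X (Z₃.ractL (q z) a) x
      rw [hqr])
  have hwf3 : ∀ z x, wf (tmO Z₁.toR X z x) = tmO Z₂.toR X (i z) x := hwf2
  have hwg3 : ∀ z x, wg (tmO Z₂.toR X z x) = tmO Z₃.toR X (q z) x := hwg2
  have hfm : ∀ a w, wf ((lt Z₁ X).actL a w) = (lt Z₂ X).actL a (wf w) := by
    intro a w
    refine (tenO_isTR Z₁.toR X).ext (f := wf ∘ₗ ltAct Z₁ X a) (f' := ltAct Z₂ X a ∘ₗ wf)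
      (hwf.comp ((ltAct_cont Z₁ X).right _)) (((ltAct_cont Z₂ X).right _).comp hwf)
      (fun z x => ?_) w
    rw [LinearMap.comp_apply, LinearMap.comp_apply, ltAct_tm, hwf3, hwf3, ltAct_tm, hil]
  have hgm : ∀ a w, wg ((lt Z₂ X).actL a w) = (lt Z₃ X).actL a (wg w) := by
    intro a w
    refine (tenO_isTR Z₂.toR X).ext (f := wg ∘ₗ ltAct Z₂ X a) (f' := ltAct Z₃ X a ∘ₗ wg)
      (hwg.comp ((ltAct_cont Z₂ X).right _)) (((ltAct_cont Z₃ X).right _).comp hwg)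
      (fun z x => ?_) w
    rw [LinearMap.comp_apply, LinearMap.comp_apply, ltAct_tm, hwg3, hwg3, ltAct_tm, hql]
  have hG : Good X (lt Z₁ X).toFre (lt Z₂ X).toFre (lt Z₃ X).toFre wf wg :=
    ⟨Z₁.toR, Z₂.toR, Z₃.toR, i, q, ⟨hsp, hir, hqr⟩, tmO Z₁.toR X, tmO Z₂.toR X, tmO Z₃.toR X,
      tenO_isTR _ _, tenO_isTR _ _, tenO_isTR _ _, hwf, hwg, hwf3, hwg3⟩
  -- the maps `N₁ → N₂ → N₃`
  obtain ⟨nf, hnf, hnf2⟩ := (tenO_isTR Y (lt Z₁ X)).lift ((tmO Y (lt Z₂ X)).compl₂ wf)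
    ((tmO_cont Y (lt Z₂ X)).compR hwf) (resp_balR.2 fun y a w => by
      rw [LinearMap.compl₂_apply, LinearMap.compl₂_apply, tmO_bal, hfm])
  obtain ⟨ng, hng, hng2⟩ := (tenO_isTR Y (lt Z₂ X)).lift ((tmO Y (lt Z₃ X)).compl₂ wg)
    ((tmO_cont Y (lt Z₃ X)).compR hwg) (resp_balR.2 fun y a w => by
      rw [LinearMap.compl₂_apply, LinearMap.compl₂_apply, tmO_bal, hgm])
  simp only [LinearMap.compl₂_apply] at hnf2 hng2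
  have hE := exact_tenO hX hY hG hwf hwg hfm hgm hnf hng hnf2 hng2
  -- comparison with the given models
  obtain ⟨T₁, hT₁, hT₁'⟩ := bi_model hM Z₁
  obtain ⟨T₂, hT₂, hT₂'⟩ := bi_model hM Z₂
  obtain ⟨T₃, hT₃, hT₃'⟩ := bi_model hM Z₃
  have hm := hM.1
  have hnT : ∀ z u, nf (T₁ z u) = T₂ (i z) u := by
    intro z u
    refine hm.ext (f := nf ∘ₗ T₁ z) (f' := T₂ (i z)) (hnf.comp (hT₁.cont.right _))
      (hT₂.cont.right _) (fun x y => ?_) u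
    rw [LinearMap.comp_apply, hT₁', hT₂', hnf2, hwf3]
  have hnT' : ∀ z u, ng (T₂ z u) = T₃ (q z) u := by
    intro z u
    refine hm.ext (f := ng ∘ₗ T₂ z) (f' := T₃ (q z)) (hng.comp (hT₂.cont.right _))
      (hT₃.cont.right _) (fun x y => ?_) u
    rw [LinearMap.comp_apply, hT₂', hT₃', hng2, hwg3]
  obtain ⟨φ₁, ψ₁, c1, c1', l1, r1, k1, _⟩ := h1.iso hT₁
  obtain ⟨φ₂, ψ₂, c2, c2', l2, r2, k2, _⟩ := h2.iso hT₂
  obtain ⟨φ₃, ψ₃, c3, c3', l3, r3, k3, _⟩ := h3.iso hT₃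
  refine exact_retract hE φ₁ φ₂ φ₃ ψ₁ ψ₂ ψ₃ k1 k2 k3 (fun x => ?_) (fun x => ?_) (fun x => ?_)
    (fun x => ?_)
  · refine h1.ext (f := φ₂ ∘ₗ f) (f' := nf ∘ₗ φ₁) (c2.comp hf) (hnf.comp c1) (fun z u => ?_) x
    rw [LinearMap.comp_apply, LinearMap.comp_apply, hf2, l2, l1, hnT]
  · refine h2.ext (f := φ₃ ∘ₗ g) (f' := ng ∘ₗ φ₂) (c3.comp hg) (hng.comp c2) (fun z u => ?_) x
    rw [LinearMap.comp_apply, LinearMap.comp_apply, hg2, l3, l2, hnT']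
  · refine hT₁.ext (f := ψ₂ ∘ₗ nf) (f' := f ∘ₗ ψ₁) (c2'.comp hnf) (hf.comp c1') (fun z u => ?_) x
    rw [LinearMap.comp_apply, LinearMap.comp_apply, hnT, r2, r1, hf2]
  · refine hT₂.ext (f := ψ₃ ∘ₗ ng) (f' := g ∘ₗ ψ₂) (c3'.comp hng) (hg.comp c2') (fun z u => ?_) x
    rw [LinearMap.comp_apply, LinearMap.comp_apply, hnT', r3, r2, hg2]

end Pool.Agent.FreTensor
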