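import Pool.Agent.FreTensor.KF

/-!
Diagram chase: exactness of `Y ⊗_A W₁ → Y ⊗_A W₂ → Y ⊗_A W₃` for sequences `W` of left modules that
are obtained from admissible sequences of bimodules by tensoring with a flat left module.
-/

set_option autoImplicit false

universe u

namespace Pool.Agent.FreTensor

theorem chase {N₁ N₂ N₃ P₁ P₂ P₃ Q₁ Q₂ Q₃ R₂ R₃ : Type u}
    [AddCommGroup N₁] [AddCommGroup N₂] [AddCommGroup N₃] [AddCommGroup P₁] [AddCommGroup P₂]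
    [AddCommGroup P₃] [AddCommGroup Q₁] [AddCommGroup Q₂] [AddCommGroup Q₃] [AddCommGroup R₂]
    [AddCommGroup R₃] [Module ℂ N₁] [Module ℂ N₂] [Module ℂ N₃] [Module ℂ P₁] [Module ℂ P₂]
    [Module ℂ P₃] [Module ℂ Q₁] [Module ℂ Q₂] [Module ℂ Q₃] [Module ℂ R₂] [Module ℂ R₃]
    (π₁ : P₁ →ₗ[ℂ] N₁) (π₂ : P₂ →ₗ[ℂ] N₂) (π₃ : P₃ →ₗ[ℂ] N₃) (d₁ : Q₁ →ₗ[ℂ] P₁)
    (d₂ : Q₂ →ₗ[ℂ] P₂) (d₃ : Q₃ →ₗ[ℂ] P₃) (e₂ : R₂ →ₗ[ℂ] Q₂) (e₃ : R₃ →ₗ[ℂ] Q₃)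
    (f0 : P₁ →ₗ[ℂ] P₂) (g0 : P₂ →ₗ[ℂ] P₃) (f1 : Q₁ →ₗ[ℂ] Q₂) (g1 : Q₂ →ₗ[ℂ] Q₃)
    (g2 : R₂ →ₗ[ℂ] R₃) (fN : N₁ →ₗ[ℂ] N₂) (gN : N₂ →ₗ[ℂ] N₃)
    (hf0 : Function.Injective f0) (h0 : ∀ x, g0 x = 0 ↔ ∃ y, f0 y = x)
    (hg0 : Function.Surjective g0) (h1 : ∀ x, g1 x = 0 ↔ ∃ y, f1 y = x)
    (hg1 : Function.Surjective g1) (hg2 : Function.Surjective g2)
    (hπ₁ : Function.Surjective π₁) (hπ₂ : Function.Surjective π₂) (hπ₃ : Function.Surjective π₃)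
    (hk₁ : ∀ v, π₁ v = 0 ↔ ∃ c, d₁ c = v) (hk₂ : ∀ v, π₂ v = 0 ↔ ∃ c, d₂ c = v)
    (hk₃ : ∀ v, π₃ v = 0 ↔ ∃ c, d₃ c = v) (hd₂ : ∀ e, d₂ (e₂ e) = 0)
    (hd₃ : ∀ c, d₃ c = 0 ↔ ∃ e, e₃ e = c)
    (n1 : ∀ x, fN (π₁ x) = π₂ (f0 x)) (n2 : ∀ x, gN (π₂ x) = π₃ (g0 x))
    (n3 : ∀ x, f0 (d₁ x) = d₂ (f1 x)) (n4 : ∀ x, g0 (d₂ x) = d₃ (g1 x))
    (n5 : ∀ x, g1 (e₂ x) = e₃ (g2 x)) :
    Function.Injective fN ∧ (∀ x, gN x = 0 ↔ ∃ y, fN y = x) ∧ Function.Surjective gN := by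
  refine ⟨?_, fun x => ⟨?_, ?_⟩, fun y => ?_⟩
  · rw [injective_iff_map_eq_zero]
    intro a ha
    obtain ⟨b1, rfl⟩ := hπ₁ a
    rw [n1, hk₂] at ha
    obtain ⟨c2, hc2⟩ := ha
    have hc3 : d₃ (g1 c2) = 0 := by
      rw [← n4, hc2, h0]
      exact ⟨b1, rfl⟩
    obtain ⟨e3, he3⟩ := (hd₃ _).1 hc3
    obtain ⟨e2, rfl⟩ := hg2 e3
    have h2 : g1 (c2 - e₂ e2) = 0 := by rw [map_sub, n5, he3, sub_self]
    obtain ⟨c1, hc1⟩ := (h1 _).1 h2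
    rw [hk₁]
    refine ⟨c1, hf0 ?_⟩
    rw [n3, hc1, map_sub, hd₂, sub_zero, hc2]
  · intro hx
    obtain ⟨b, rfl⟩ := hπ₂ x
    rw [n2, hk₃] at hx
    obtain ⟨c3, hc3⟩ := hx
    obtain ⟨c2, rfl⟩ := hg1 c3
    have h2 : g0 (b - d₂ c2) = 0 := by rw [map_sub, n4, hc3, sub_self]
    obtain ⟨b1, hb1⟩ := (h0 _).1 h2
    refine ⟨π₁ b1, ?_⟩
    rw [n1, hb1, map_sub, (hk₂ _).2 ⟨c2, rfl⟩, sub_zero]
  · rintro ⟨a, rfl⟩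
    obtain ⟨b1, rfl⟩ := hπ₁ a
    rw [n1, n2, (h0 _).2 ⟨b1, rfl⟩, map_zero]
  · obtain ⟨b, rfl⟩ := hπ₃ y
    obtain ⟨c, rfl⟩ := hg0 b
    exact ⟨π₂ c, n2 c⟩

variable {A : FreAlg.{u}}

/-- naturality of the canonical map -/
theorem can_nat (Y : RMod A) {W W' : LMod A} {h : W.V →ₗ[ℂ] W'.V}
    (hh : IsCont W.toFre W'.toFre h) {hN : (tenO Y W).V →ₗ[ℂ] (tenO Y W').V}
    (hNc : IsCont (tenO Y W) (tenO Y W') hN) (hN2 : ∀ y w, hN (tmO Y W y w) = tmO Y W' y (h w))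
    (v : (ten Y.toFre W.toFre).V) : hN (can Y W v) = can Y W' (tmap Y.toFre h hh v) := by
  refine ten_ext (f := hN ∘ₗ can Y W) (f' := can Y W' ∘ₗ tmap Y.toFre h hh)
    (hNc.comp (can_cont _ _)) ((can_cont _ _).comp (tmap_cont _ _ _)) (fun y w => ?_) v
  rw [LinearMap.comp_apply, LinearMap.comp_apply, can_tm, tmap_tm, can_tm, hN2]

/-- naturality of the differential -/
theorem dif_nat (Y : RMod A) {W W' : LMod A} {h : W.V →ₗ[ℂ] W'.V}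
    (hh : IsCont W.toFre W'.toFre h) (hm : ∀ a w, h (W.actL a w) = W'.actL a (h w))
    {hk : (kmod W).V →ₗ[ℂ] (kmod W').V} (hkc : IsCont (kmod W).toFre (kmod W').toFre hk)
    (hk2 : ∀ a w, hk (tm A.toFre W.toFre a w) = tm A.toFre W'.toFre a (h w))
    (v : (ten Y.toFre (kmod W).toFre).V) :
    tmap Y.toFre h hh (dif Y W v) = dif Y W' (tmap Y.toFre hk hkc v) := by
  refine ten_ext (f := tmap Y.toFre h hh ∘ₗ dif Y W) (f' := dif Y W' ∘ₗ tmap Y.toFre hk hkc)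
    ((tmap_cont _ _ _).comp (dif_cont _ _)) ((dif_cont _ _).comp (tmap_cont _ _ _))
    (fun y u => ?_) v
  refine ten_ext (f := (tmap Y.toFre h hh ∘ₗ dif Y W) ∘ₗ tm Y.toFre (kmod W).toFre y)
    (f' := (dif Y W' ∘ₗ tmap Y.toFre hk hkc) ∘ₗ tm Y.toFre (kmod W).toFre y)
    (((tmap_cont _ _ _).comp (dif_cont _ _)).comp ((tm_cont _ _).right _))
    (((dif_cont _ _).comp (tmap_cont _ _ _)).comp ((tm_cont _ _).right _))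
    (fun a w => ?_) u
  rw [LinearMap.comp_apply, LinearMap.comp_apply, LinearMap.comp_apply, LinearMap.comp_apply,
    dif_tm, map_sub, tmap_tm, tmap_tm, tmap_tm, hk2, dif_tm, hm]

theorem kmap_hom {W W' : LMod A} {h : W.V →ₗ[ℂ] W'.V} (hh : IsCont W.toFre W'.toFre h)
    (hm : ∀ a w, h (W.actL a w) = W'.actL a (h w)) (a : A.V) (u : (kmod W).V) :
    tmap A.toFre h hh ((kmod W).actL a u) = (kmod W').actL a (tmap A.toFre h hh u) := by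
  refine ten_ext (f := tmap A.toFre h hh ∘ₗ kap W a) (f' := kap W' a ∘ₗ tmap A.toFre h hh)
    ((tmap_cont _ _ _).comp ((kap_cont W).right _)) (((kap_cont W').right _).comp
    (tmap_cont _ _ _)) (fun b w => ?_) u
  rw [LinearMap.comp_apply, LinearMap.comp_apply, kap_apply, map_sub, lam_tm, mu_tm, tmap_tm,
    tmap_tm, tmap_tm, kap_apply, lam_tm, mu_tm, hm]

/-- the key exactness statement -/
theorem exact_tenO {X : LMod A} (hX : LFlat X) {Y : RMod A} (hY : RFlat Y) {W₁ W₂ W₃ : LMod A}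
    {f : W₁.V →ₗ[ℂ] W₂.V} {g : W₂.V →ₗ[ℂ] W₃.V}
    (hG : Good X W₁.toFre W₂.toFre W₃.toFre f g) (hf : IsCont W₁.toFre W₂.toFre f)
    (hg : IsCont W₂.toFre W₃.toFre g) (hfm : ∀ a w, f (W₁.actL a w) = W₂.actL a (f w))
    (hgm : ∀ a w, g (W₂.actL a w) = W₃.actL a (g w))
    {fN : (tenO Y W₁).V →ₗ[ℂ] (tenO Y W₂).V} {gN : (tenO Y W₂).V →ₗ[ℂ] (tenO Y W₃).V}
    (hfN : IsCont (tenO Y W₁) (tenO Y W₂) fN) (hgN : IsCont (tenO Y W₂) (tenO Y W₃) gN)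
    (hfN2 : ∀ y w, fN (tmO Y W₁ y w) = tmO Y W₂ y (f w))
    (hgN2 : ∀ y w, gN (tmO Y W₂ y w) = tmO Y W₃ y (g w)) :
    Exact (tenO Y W₁) (tenO Y W₂) (tenO Y W₃) fN gN := by
  have hG1 := hG.ten hf hg A.toFre
  have hf1 := tmap_cont A.toFre f hf
  have hg1 := tmap_cont A.toFre g hg
  have hG2 := hG1.ten hf1 hg1 A.toFre
  have hf2 := tmap_cont A.toFre _ hf1
  have hg2 := tmap_cont A.toFre _ hg1
  have E0 := (hG.ten hf hg Y.toFre).exact hX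
  have E1 := (hG1.ten hf1 hg1 Y.toFre).exact hX
  have E2 := (hG2.ten hf2 hg2 Y.toFre).exact hX
  refine chase (can Y W₁) (can Y W₂) (can Y W₃) (dif Y W₁) (dif Y W₂) (dif Y W₃)
    (dif Y (kmod W₂)) (dif Y (kmod W₃)) (tmap Y.toFre f hf) (tmap Y.toFre g hg)
    (tmap Y.toFre _ hf1) (tmap Y.toFre _ hg1) (tmap Y.toFre _ hg2) fN gN
    E0.1 E0.2.1 E0.2.2 E1.2.1 E1.2.2 E2.2.2 (can_surj hY _) (can_surj hY _) (can_surj hY _)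
    (can_ker hY _) (can_ker hY _) (can_ker hY _) (fun e => (dif_ker hY _ _).2 ⟨e, rfl⟩)
    (dif_ker hY _) (can_nat Y hf hfN hfN2) (can_nat Y hg hgN hgN2) ?_ ?_ ?_
  · exact dif_nat Y hf hfm hf1 (fun a w => tmap_tm _ _ _ _ _)
  · exact dif_nat Y hg hgm hg1 (fun a w => tmap_tm _ _ _ _ _)
  · exact dif_nat Y (W := kmod W₂) (W' := kmod W₃) hg1 (kmap_hom hg hgm) hg2
      (fun a w => tmap_tm _ _ _ _ _)

end Pool.Agent.FreTensor
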