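import Pool.Agent.FreTensor.Core

/-!
Completion of a vector space with a non-decreasing sequence of seminorms, and extension of
continuous linear maps to the completion.
-/

set_option autoImplicit false

universe u

namespace Pool.Agent.FreTensor

open Filter Topology

/-! ### Convergence of sequences in a Fréchet space -/

/-- the sequence `v` converges to `x` -/
def Conv (E : Fre.{u}) (v : ℕ → E.V) (x : E.V) : Prop :=
  ∀ n, Tendsto (fun k => E.sn n (v k - x)) atTop (𝓝 0)

theorem Fre.mono' (E : Fre.{u}) {m n : ℕ} (h : m ≤ n) (x : E.V) : E.sn m x ≤ E.sn n x :=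
  monotone_nat_of_le_succ (f := fun k => E.sn k x) (fun k => E.sn_mono k x) h

theorem Conv.add {E : Fre.{u}} {v w : ℕ → E.V} {x y : E.V} (hv : Conv E v x) (hw : Conv E w y) :
    Conv E (fun k => v k + w k) (x + y) := by
  intro n
  have h := (hv n).add (hw n)
  rw [add_zero] at h
  refine squeeze_zero (fun k => apply_nonneg _ _) (fun k => ?_) h
  have : v k + w k - (x + y) = (v k - x) + (w k - y) := by abel
  rw [this]
  exact map_add_le_add _ _ _

theorem Conv.smul {E : Fre.{u}} {v : ℕ → E.V} {x : E.V} (c : ℂ) (hv : Conv E v x) :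
    Conv E (fun k => c • v k) (c • x) := by
  intro n
  have h := (hv n).const_mul ‖c‖
  rw [mul_zero] at h
  refine h.congr (fun k => ?_)
  rw [← smul_sub, map_smul_eq_mul]

theorem Conv.unique {E : Fre.{u}} {v : ℕ → E.V} {x y : E.V} (hv : Conv E v x) (hw : Conv E v y) :
    x = y := by
  rw [← sub_eq_zero]
  apply E.sn_sep
  intro n
  have h := (hw n).add (hv n)
  rw [add_zero] at h
  have h2 : E.sn n (x - y) ≤ 0 := by
    refine le_of_tendsto_of_tendsto' tendsto_const_nhds h (fun k => ?_)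
    have : x - y = (v k - y) + -(v k - x) := by abel
    rw [this]
    refine (map_add_le_add _ _ _).trans ?_
    rw [map_neg_eq_map]
  exact le_antisymm h2 (apply_nonneg _ _)

theorem Conv.p_tendsto {E : Fre.{u}} {v : ℕ → E.V} {x : E.V} (hv : Conv E v x) (n : ℕ) :
    Tendsto (fun k => E.sn n (v k)) atTop (𝓝 (E.sn n x)) := by
  rw [tendsto_iff_norm_sub_tendsto_zero]
  refine squeeze_zero (fun k => norm_nonneg _) (fun k => ?_) (hv n)
  rw [Real.norm_eq_abs]
  exact abs_sub_map_le_sub (E.sn n) (v k) x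

theorem Conv.comp {E G : Fre.{u}} {f : E.V →ₗ[ℂ] G.V} (hf : IsCont E G f) {v : ℕ → E.V} {x : E.V}
    (hv : Conv E v x) : Conv G (fun k => f (v k)) (f x) := by
  intro m
  obtain ⟨n, C, h⟩ := hf m
  have h1 := (hv n).const_mul C
  rw [mul_zero] at h1
  refine squeeze_zero (fun k => apply_nonneg _ _) (fun k => ?_) h1
  rw [← map_sub]
  exact h _

/-- completeness in terms of `Conv` -/
theorem Fre.exists_conv (E : Fre.{u}) (x : ℕ → E.V)
    (h : ∀ n, ∀ ε > (0 : ℝ), ∃ N, ∀ i ≥ N, ∀ j ≥ N, E.sn n (x i - x j) < ε) :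
    ∃ y, Conv E x y := by
  obtain ⟨y, hy⟩ := E.sn_complete x h
  refine ⟨y, fun n => ?_⟩
  rw [Metric.tendsto_atTop]
  intro ε hε
  obtain ⟨N, hN⟩ := hy n ε hε
  refine ⟨N, fun k hk => ?_⟩
  rw [Real.dist_eq, sub_zero, abs_of_nonneg (apply_nonneg _ _)]
  exact hN k hk

/-! ### Extension from a dense subspace -/

section Ext

variable {V : Type u} [AddCommGroup V] [Module ℂ V]

theorem exists_approx {E : Fre.{u}} (j : V →ₗ[ℂ] E.V)
    (hj : ∀ (b : E.V) (n : ℕ), ∀ ε > (0 : ℝ), ∃ v, E.sn n (j v - b) < ε) (b : E.V) :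
    ∃ v : ℕ → V, Conv E (fun k => j (v k)) b := by
  have h : ∀ k : ℕ, ∃ v, E.sn k (j v - b) < 1 / ((k : ℝ) + 1) := fun k =>
    hj b k _ (by positivity)
  choose v hv using h
  refine ⟨v, fun n => ?_⟩
  refine squeeze_zero' (Eventually.of_forall fun k => apply_nonneg _ _) ?_
    tendsto_one_div_add_atTop_nhds_zero_nat
  filter_upwards [eventually_ge_atTop n] with k hk
  exact (E.mono' hk _).trans (hv k).le

theorem exists_ext {E G : Fre.{u}} (j : V →ₗ[ℂ] E.V)
    (hj : ∀ (b : E.V) (n : ℕ), ∀ ε > (0 : ℝ), ∃ v, E.sn n (j v - b) < ε)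
    (φ : V →ₗ[ℂ] G.V) (hφ : ∀ m, ∃ (n : ℕ) (C : ℝ), ∀ v, G.sn m (φ v) ≤ C * E.sn n (j v)) :
    ∃ f : E.V →ₗ[ℂ] G.V, (∀ v, f (j v) = φ v) ∧
      ∀ (m n : ℕ) (C : ℝ), (∀ v, G.sn m (φ v) ≤ C * E.sn n (j v)) →
        ∀ x, G.sn m (f x) ≤ C * E.sn n x := by
  -- sequences converging in `E` have images that are convergent
  have key0 : ∀ v : ℕ → V, Conv E (fun k => j (v k)) 0 → Conv G (fun k => φ (v k)) 0 := by
    intro v hv m
    obtain ⟨n, C, h⟩ := hφ m
    have h1 := (hv n).const_mul C
    rw [mul_zero] at h1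
    refine squeeze_zero (fun k => apply_nonneg _ _) (fun k => ?_) h1
    simp only [sub_zero]
    exact h _
  have key1 : ∀ (v : ℕ → V) (x : E.V), Conv E (fun k => j (v k)) x →
      ∃ g, Conv G (fun k => φ (v k)) g := by
    intro v x hv
    apply G.exists_conv
    intro m ε hε
    obtain ⟨n, C, h⟩ := hφ m
    have hC : 0 < |C| + 1 := by positivity
    have h2 := Metric.tendsto_atTop.1 (hv n) (ε / (2 * (|C| + 1))) (by positivity)
    obtain ⟨N, hN⟩ := h2
    refine ⟨N, fun i hi k hk => ?_⟩
    have hi' := hN i hi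
    have hk' := hN k hk
    rw [Real.dist_eq, sub_zero, abs_of_nonneg (apply_nonneg _ _)] at hi' hk'
    have h3 : E.sn n (j (v i - v k)) < ε / (|C| + 1) := by
      have : j (v i - v k) = (j (v i) - x) + -(j (v k) - x) := by rw [map_sub]; abel
      rw [this]
      refine (map_add_le_add _ _ _).trans_lt ?_
      rw [map_neg_eq_map]
      have : ε / (|C| + 1) = ε / (2 * (|C| + 1)) + ε / (2 * (|C| + 1)) := by field_simp; ring
      rw [this]
      exact add_lt_add hi' hk'
    rw [← map_sub]
    calc G.sn m (φ (v i - v k)) ≤ C * E.sn n (j (v i - v k)) := h _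
      _ ≤ (|C| + 1) * E.sn n (j (v i - v k)) := by
        refine mul_le_mul_of_nonneg_right ?_ (apply_nonneg _ _)
        linarith [le_abs_self C]
      _ < (|C| + 1) * (ε / (|C| + 1)) := by
        exact mul_lt_mul_of_pos_left h3 hC
      _ = ε := by field_simp
  have key2 : ∀ x : E.V, ∃ g : G.V, ∀ v : ℕ → V, Conv E (fun k => j (v k)) x →
      Conv G (fun k => φ (v k)) g := by
    intro x
    obtain ⟨v, hv⟩ := exists_approx j hj x
    obtain ⟨g, hg⟩ := key1 v x hv
    refine ⟨g, fun w hw => ?_⟩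
    have h1 : Conv E (fun k => j (w k - v k)) 0 := by
      have h2 := hw.add (hv.smul (-1))
      have h3 : x + (-1 : ℂ) • x = 0 := by simp
      rw [h3] at h2
      refine fun n => (h2 n).congr fun k => ?_
      simp [sub_eq_add_neg]
    have h2 := (key0 _ h1).add hg
    rw [zero_add] at h2
    refine fun n => (h2 n).congr fun k => ?_
    simp
  choose f hf using key2
  have fadd : ∀ x y, f (x + y) = f x + f y := by
    intro x y
    obtain ⟨v, hv⟩ := exists_approx j hj x
    obtain ⟨w, hw⟩ := exists_approx j hj y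
    have h1 : Conv E (fun k => j (v k + w k)) (x + y) := by
      refine fun n => (hv.add hw n).congr fun k => ?_
      simp
    have h2 := hf (x + y) _ h1
    have h3 := (hf x v hv).add (hf y w hw)
    refine h2.unique fun n => (h3 n).congr fun k => ?_
    simp
  have fsmul : ∀ (c : ℂ) x, f (c • x) = c • f x := by
    intro c x
    obtain ⟨v, hv⟩ := exists_approx j hj x
    have h1 : Conv E (fun k => j (c • v k)) (c • x) := by
      refine fun n => (hv.smul c n).congr fun k => ?_
      simp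
    have h2 := hf (c • x) _ h1
    have h3 := (hf x v hv).smul c
    refine h2.unique fun n => (h3 n).congr fun k => ?_
    simp
  refine ⟨{ toFun := f, map_add' := fadd, map_smul' := fsmul }, fun v => ?_, ?_⟩
  · have h1 : Conv E (fun _ => j v) (j v) := by
      intro n; simp
    have h2 : Conv G (fun _ => φ v) (φ v) := by
      intro n; simp
    exact (hf (j v) (fun _ => v) h1).unique h2
  · intro m n C h x
    obtain ⟨v, hv⟩ := exists_approx j hj x
    refine le_of_tendsto_of_tendsto' ((hf x v hv).p_tendsto m) ((hv.p_tendsto n).const_mul C)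
      fun k => h _

end Ext

/-! ### The completion -/

section Compl

variable {V : Type u} [AddCommGroup V] [Module ℂ V]

/-- a copy of `V`, to be normed by the seminorm `P` -/
def Cp (_P : Seminorm ℂ V) : Type u := V

instance (P : Seminorm ℂ V) : AddCommGroup (Cp P) := inferInstanceAs (AddCommGroup V)

instance (P : Seminorm ℂ V) : Module ℂ (Cp P) := inferInstanceAs (Module ℂ V)

noncomputable instance cpNorm (P : Seminorm ℂ V) : SeminormedAddCommGroup (Cp P) :=
  AddGroupSeminorm.toSeminormedAddCommGroup (E := Cp P) P.toAddGroupSeminorm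

noncomputable instance cpSpace (P : Seminorm ℂ V) : NormedSpace ℂ (Cp P) where
  norm_smul_le c v := (P.smul' c v).le

/-- the Banach space completing `V` for the seminorm `P` -/
abbrev Ban (P : Seminorm ℂ V) : Type u := UniformSpace.Completion (Cp P)

/-- the canonical map from `V` to `Ban P` -/
noncomputable def toBan (P : Seminorm ℂ V) : V →ₗ[ℂ] Ban P :=
  (UniformSpace.Completion.toComplₗᵢ (𝕜 := ℂ) (E := Cp P)).toLinearMap

theorem norm_toBan (P : Seminorm ℂ V) (v : V) : ‖toBan P v‖ = P v :=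
  UniformSpace.Completion.norm_coe (E := Cp P) v

/-- the underlying space of the completion -/
noncomputable def cSub (P : ℕ → Seminorm ℂ V) : Submodule ℂ (∀ n, Ban (P n)) where
  carrier := {b | ∃ v : ℕ → V, ∀ n, Tendsto (fun k => toBan (P n) (v k)) atTop (𝓝 (b n))}
  add_mem' := by
    rintro a b ⟨v, hv⟩ ⟨w, hw⟩
    refine ⟨fun k => v k + w k, fun n => ?_⟩
    simpa using (hv n).add (hw n)
  zero_mem' := ⟨fun _ => 0, fun n => by simp⟩
  smul_mem' := by
    rintro c b ⟨v, hv⟩
    refine ⟨fun k => c • v k, fun n => ?_⟩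
    simpa using (hv n).const_smul c

theorem exists_completion (P : ℕ → Seminorm ℂ V) (hP : ∀ n v, P n v ≤ P (n + 1) v) :
    ∃ (E : Fre.{u}) (j : V →ₗ[ℂ] E.V), (∀ n v, E.sn n (j v) = P n v) ∧
      ∀ (b : E.V) (n : ℕ), ∀ ε > (0 : ℝ), ∃ v, E.sn n (j v - b) < ε := by
  have hP' : ∀ {m n : ℕ}, m ≤ n → ∀ v, P m v ≤ P n v := fun h v =>
    monotone_nat_of_le_succ (f := fun k => P k v) (fun k => hP k v) h
  let q : ℕ → Seminorm ℂ (cSub P) := fun n =>
    (normSeminorm ℂ (Ban (P n))).comp ((LinearMap.proj n).comp (cSub P).subtype)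
  have hq : ∀ n (b : cSub P), q n b = ‖b.1 n‖ := fun n b => rfl
  have happ : ∀ (b : cSub P) (n : ℕ) (ε : ℝ), 0 < ε → ∃ v : V, ∀ m ≤ n,
      ‖toBan (P m) v - b.1 m‖ < ε := by
    intro b n ε hε
    obtain ⟨v, hv⟩ := b.2
    have h : ∀ᶠ k in atTop, ∀ m ∈ Set.Iic n, ‖toBan (P m) (v k) - b.1 m‖ < ε := by
      rw [eventually_all_finite (Set.finite_Iic n)]
      intro m _
      have h1 := tendsto_iff_norm_sub_tendsto_zero.1 (hv m)
      exact h1.eventually (gt_mem_nhds hε)
    obtain ⟨k, hk⟩ := h.exists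
    exact ⟨v k, fun m hm => hk m hm⟩
  refine ⟨{ V := cSub P, p := fun n b => q n b, p_add := fun n => map_add_le_add (q n),
            p_smul := fun n => map_smul_eq_mul (q n), mono := ?_, sep := ?_, complete := ?_ },
    { toFun := fun v => ⟨fun n => toBan (P n) v, fun _ => v, fun n => tendsto_const_nhds⟩
      map_add' := fun v w => by ext n; simp
      map_smul' := fun c v => by ext n; simp }, ?_, ?_⟩
  · intro n b
    rw [hq, hq]
    obtain ⟨v, hv⟩ := b.2
    refine le_of_tendsto_of_tendsto' (hv n).norm (hv (n + 1)).norm fun k => ?_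
    rw [norm_toBan, norm_toBan]
    exact hP _ _
  · intro b hb
    ext n
    have := hb n
    rw [hq, norm_eq_zero] at this
    simpa using this
  · intro x hx
    have h1 : ∀ n, ∃ y, Tendsto (fun i => (x i).1 n) atTop (𝓝 y) := by
      intro n
      apply cauchySeq_tendsto_of_complete
      rw [Metric.cauchySeq_iff]
      intro ε hε
      obtain ⟨N, hN⟩ := hx n ε hε
      refine ⟨N, fun i hi k hk => ?_⟩
      rw [dist_eq_norm]
      exact hN i hi k hk
    choose y hy using h1
    have h2 : ∀ k : ℕ, ∃ v : V, ∀ m ≤ k, ‖toBan (P m) v - (x k).1 m‖ < 1 / ((k : ℝ) + 1) :=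
      fun k => happ (x k) k _ (by positivity)
    choose w hw using h2
    have hymem : y ∈ cSub P := by
      refine ⟨w, fun n => ?_⟩
      have h3 : Tendsto (fun k => toBan (P n) (w k) - (x k).1 n) atTop (𝓝 0) := by
        refine squeeze_zero_norm' ?_ tendsto_one_div_add_atTop_nhds_zero_nat
        filter_upwards [eventually_ge_atTop n] with k hk
        exact (hw k n hk).le
      have h4 := h3.add (hy n)
      simpa using h4
    refine ⟨⟨y, hymem⟩, fun n ε hε => ?_⟩
    have h5 := tendsto_iff_norm_sub_tendsto_zero.1 (hy n)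
    obtain ⟨N, hN⟩ := Metric.tendsto_atTop.1 h5 ε hε
    refine ⟨N, fun i hi => ?_⟩
    have h6 := hN i hi
    rw [Real.dist_eq, sub_zero, abs_of_nonneg (norm_nonneg _)] at h6
    exact h6
  · intro n v
    exact norm_toBan _ _
  · intro b n ε hε
    obtain ⟨v, hv⟩ := happ b n ε hε
    exact ⟨v, hv n le_rfl⟩

end Compl

end Pool.Agent.FreTensor
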