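import Pool.Agent.FreTensor.Defs

/-!
Conversion between the function-based definitions and linear maps.
-/

set_option autoImplicit false

universe u

namespace Pool.Agent.FreTensor

/-- the seminorms of a Fréchet space -/
noncomputable def Fre.sn (E : Fre.{u}) (n : ℕ) : Seminorm ℂ E.V := Seminorm.of (E.p n) (E.p_add n) (E.p_smul n)

theorem Fre.sn_apply (E : Fre.{u}) (n : ℕ) (x : E.V) : E.sn n x = E.p n x := rfl

theorem Fre.sn_mono (E : Fre.{u}) (n : ℕ) (x : E.V) : E.sn n x ≤ E.sn (n + 1) x := E.mono n x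

theorem Fre.sn_sep (E : Fre.{u}) (x : E.V) (h : ∀ n, E.sn n x = 0) : x = 0 := E.sep x h

theorem Fre.sn_complete (E : Fre.{u}) (x : ℕ → E.V)
    (h : ∀ n, ∀ ε > (0 : ℝ), ∃ N, ∀ i ≥ N, ∀ j ≥ N, E.sn n (x i - x j) < ε) :
    ∃ y : E.V, ∀ n, ∀ ε > (0 : ℝ), ∃ N, ∀ i ≥ N, E.sn n (x i - y) < ε := E.complete x h

/-- Continuity of a linear map between Fréchet spaces. -/
def IsCont (E F : Fre.{u}) (f : E.V →ₗ[ℂ] F.V) : Prop :=
  ∀ m, ∃ (n : ℕ) (C : ℝ), ∀ x, F.sn m (f x) ≤ C * E.sn n x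

/-- Joint continuity of a bilinear map between Fréchet spaces. -/
def IsCont₂ (E F G : Fre.{u}) (b : E.V →ₗ[ℂ] F.V →ₗ[ℂ] G.V) : Prop :=
  ∀ m, ∃ (n : ℕ) (C : ℝ), ∀ x y, G.sn m (b x y) ≤ C * E.sn n x * F.sn n y

/-- a continuous linear map as a linear map -/
def toL {E F : Fre.{u}} (f : E.V → F.V) (h : IsLin E F f) : E.V →ₗ[ℂ] F.V where
  toFun := f
  map_add' := h.1
  map_smul' := h.2.1

theorem IsCont.isLin {E F : Fre.{u}} {f : E.V →ₗ[ℂ] F.V} (h : IsCont E F f) : IsLin E F f :=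
  ⟨f.map_add, f.map_smul, h⟩

theorem IsLin.exists {E F : Fre.{u}} {f : E.V → F.V} (h : IsLin E F f) :
    ∃ g : E.V →ₗ[ℂ] F.V, IsCont E F g ∧ (⇑g) = f := ⟨toL f h, h.2.2, rfl⟩

/-- a jointly continuous bilinear map as a bilinear map -/
noncomputable def toB {E F G : Fre.{u}} (b : E.V → F.V → G.V) (h : IsBil E F G b) :
    E.V →ₗ[ℂ] F.V →ₗ[ℂ] G.V := LinearMap.mk₂ ℂ b h.1 h.2.1 h.2.2.1 h.2.2.2.1

theorem toB_cont {E F G : Fre.{u}} (b : E.V → F.V → G.V) (h : IsBil E F G b) :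
    IsCont₂ E F G (toB b h) := h.2.2.2.2

theorem IsCont₂.isBil {E F G : Fre.{u}} {b : E.V →ₗ[ℂ] F.V →ₗ[ℂ] G.V} (h : IsCont₂ E F G b) :
    IsBil E F G (fun x y => b x y) :=
  ⟨fun x x' y => by simp, fun c x y => by simp, fun x y y' => by simp, fun c x y => by simp, h⟩

theorem IsBil.exists {E F G : Fre.{u}} {b : E.V → F.V → G.V} (h : IsBil E F G b) :
    ∃ c : E.V →ₗ[ℂ] F.V →ₗ[ℂ] G.V, IsCont₂ E F G c ∧ (fun x y => c x y) = b :=
  ⟨toB b h, toB_cont b h, rfl⟩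

/-! ### Algebras and modules -/

/-- the multiplication as a bilinear map -/
noncomputable def FreAlg.mulL (A : FreAlg.{u}) : A.V →ₗ[ℂ] A.V →ₗ[ℂ] A.V :=
  toB (E := A.toFre) (F := A.toFre) (G := A.toFre) A.mul A.mul_bil

theorem FreAlg.mulL_cont (A : FreAlg.{u}) : IsCont₂ A.toFre A.toFre A.toFre A.mulL :=
  toB_cont _ _

theorem FreAlg.mulL_assoc (A : FreAlg.{u}) (a b c : A.V) :
    A.mulL (A.mulL a b) c = A.mulL a (A.mulL b c) := A.mul_assoc a b c

/-- a Fréchet algebra from a bilinear map -/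
@[reducible] noncomputable def mkAlg (F : Fre.{u}) (m : F.V →ₗ[ℂ] F.V →ₗ[ℂ] F.V) (hc : IsCont₂ F F F m)
    (ha : ∀ a b c, m (m a b) c = m a (m b c)) : FreAlg.{u} where
  toFre := F
  mul a b := m a b
  mul_bil := hc.isBil
  mul_assoc := ha

variable {A : FreAlg.{u}}

/-- the action as a bilinear map -/
noncomputable def LMod.actL (X : LMod A) : A.V →ₗ[ℂ] X.V →ₗ[ℂ] X.V :=
  toB (E := A.toFre) (F := X.toFre) (G := X.toFre) X.act X.act_bil

theorem LMod.actL_cont (X : LMod A) : IsCont₂ A.toFre X.toFre X.toFre X.actL := toB_cont _ _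

theorem LMod.actL_mul (X : LMod A) (a b : A.V) (x : X.V) :
    X.actL (A.mulL a b) x = X.actL a (X.actL b x) := X.act_mul a b x

/-- a left module from a bilinear map -/
@[reducible] noncomputable def mkLM (F : Fre.{u}) (m : A.V →ₗ[ℂ] F.V →ₗ[ℂ] F.V) (hc : IsCont₂ A.toFre F F m)
    (ha : ∀ a b x, m (A.mulL a b) x = m a (m b x)) : LMod A where
  toFre := F
  act a b := m a b
  act_bil := hc.isBil
  act_mul := ha

/-- the action as a bilinear map -/
noncomputable def RMod.actL (Y : RMod A) : Y.V →ₗ[ℂ] A.V →ₗ[ℂ] Y.V :=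
  toB (E := Y.toFre) (F := A.toFre) (G := Y.toFre) Y.act Y.act_bil

theorem RMod.actL_cont (Y : RMod A) : IsCont₂ Y.toFre A.toFre Y.toFre Y.actL := toB_cont _ _

theorem RMod.actL_mul (Y : RMod A) (y : Y.V) (a b : A.V) :
    Y.actL y (A.mulL a b) = Y.actL (Y.actL y a) b := Y.act_mul y a b

/-- a right module from a bilinear map -/
@[reducible] noncomputable def mkRM (F : Fre.{u}) (m : F.V →ₗ[ℂ] A.V →ₗ[ℂ] F.V) (hc : IsCont₂ F A.toFre F m)
    (ha : ∀ x a b, m x (A.mulL a b) = m (m x a) b) : RMod A where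
  toFre := F
  act a b := m a b
  act_bil := hc.isBil
  act_mul := ha

/-- the left action as a bilinear map -/
noncomputable def BMod.lactL (X : BMod A) : A.V →ₗ[ℂ] X.V →ₗ[ℂ] X.V :=
  toB (E := A.toFre) (F := X.toFre) (G := X.toFre) X.lact X.lact_bil

theorem BMod.lactL_cont (X : BMod A) : IsCont₂ A.toFre X.toFre X.toFre X.lactL := toB_cont _ _

theorem BMod.lactL_mul (X : BMod A) (a b : A.V) (x : X.V) :
    X.lactL (A.mulL a b) x = X.lactL a (X.lactL b x) := X.lact_mul a b x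

/-- the right action as a bilinear map -/
noncomputable def BMod.ractL (Y : BMod A) : Y.V →ₗ[ℂ] A.V →ₗ[ℂ] Y.V :=
  toB (E := Y.toFre) (F := A.toFre) (G := Y.toFre) Y.ract Y.ract_bil

theorem BMod.ractL_cont (Y : BMod A) : IsCont₂ Y.toFre A.toFre Y.toFre Y.ractL := toB_cont _ _

theorem BMod.ractL_mul (Y : BMod A) (y : Y.V) (a b : A.V) :
    Y.ractL y (A.mulL a b) = Y.ractL (Y.ractL y a) b := Y.ract_mul y a b

theorem BMod.commL (Y : BMod A) (a : A.V) (y : Y.V) (b : A.V) :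
    Y.ractL (Y.lactL a y) b = Y.lactL a (Y.ractL y b) := Y.comm a y b

/-- a bimodule from bilinear maps -/
@[reducible] noncomputable def mkBM (F : Fre.{u}) (l : A.V →ₗ[ℂ] F.V →ₗ[ℂ] F.V) (hl : IsCont₂ A.toFre F F l)
    (hla : ∀ a b x, l (A.mulL a b) x = l a (l b x))
    (r : F.V →ₗ[ℂ] A.V →ₗ[ℂ] F.V) (hr : IsCont₂ F A.toFre F r)
    (hra : ∀ x a b, r x (A.mulL a b) = r (r x a) b)
    (hlr : ∀ a x b, r (l a x) b = l a (r x b)) : BMod A where
  toFre := F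
  lact a b := l a b
  lact_bil := hl.isBil
  lact_mul := hla
  ract a b := r a b
  ract_bil := hr.isBil
  ract_mul := hra
  comm := hlr

end Pool.Agent.FreTensor
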