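import Mathlib

/-!
Fréchet spaces, Fréchet algebras, Fréchet modules, completed projective tensor products (by their
universal property), admissible sequences and flatness.
-/

set_option autoImplicit false

universe u

namespace Pool.Agent.FreTensor

/-- A Fréchet space: a complex vector space with a non-decreasing sequence of seminorms which
separates points and is complete (every sequence that is Cauchy for all seminorms converges).
Its topology is the one defined by the seminorms. -/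
structure Fre : Type (u + 1) where
  /-- the underlying set -/
  V : Type u
  [grp : AddCommGroup V]
  [mod : Module ℂ V]
  /-- the defining sequence of seminorms -/
  p : ℕ → V → ℝ
  p_add : ∀ n x y, p n (x + y) ≤ p n x + p n y
  p_smul : ∀ n (c : ℂ) x, p n (c • x) = ‖c‖ * p n x
  mono : ∀ n x, p n x ≤ p (n + 1) x
  sep : ∀ x : V, (∀ n, p n x = 0) → x = 0
  complete : ∀ x : ℕ → V,
    (∀ n, ∀ ε > (0 : ℝ), ∃ N, ∀ i ≥ N, ∀ j ≥ N, p n (x i - x j) < ε) →
    ∃ y : V, ∀ n, ∀ ε > (0 : ℝ), ∃ N, ∀ i ≥ N, p n (x i - y) < ε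

attribute [instance] Fre.grp Fre.mod

/-- `f` is a continuous linear map between Fréchet spaces. -/
def IsLin (E F : Fre.{u}) (f : E.V → F.V) : Prop :=
  (∀ x y, f (x + y) = f x + f y) ∧ (∀ (c : ℂ) (x), f (c • x) = c • f x) ∧
    ∀ m, ∃ (n : ℕ) (C : ℝ), ∀ x, F.p m (f x) ≤ C * E.p n x

/-- `b` is a jointly continuous bilinear map between Fréchet spaces. -/
def IsBil (E F G : Fre.{u}) (b : E.V → F.V → G.V) : Prop :=
  (∀ x x' y, b (x + x') y = b x y + b x' y) ∧ (∀ (c : ℂ) (x y), b (c • x) y = c • b x y) ∧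
    (∀ x y y', b x (y + y') = b x y + b x y') ∧ (∀ (c : ℂ) (x y), b x (c • y) = c • b x y) ∧
    ∀ m, ∃ (n : ℕ) (C : ℝ), ∀ x y, G.p m (b x y) ≤ C * E.p n x * F.p n y

/-- A Fréchet algebra, not assumed unital: a Fréchet space with a jointly continuous associative
bilinear multiplication. -/
structure FreAlg : Type (u + 1) extends Fre.{u} where
  /-- the multiplication -/
  mul : V → V → V
  mul_bil : IsBil toFre toFre toFre mul
  mul_assoc : ∀ a b c, mul (mul a b) c = mul a (mul b c)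

/-- A left Fréchet module over the Fréchet algebra `A`. -/
structure LMod (A : FreAlg.{u}) : Type (u + 1) extends Fre.{u} where
  /-- the action `(a, x) ↦ a x` -/
  act : A.V → V → V
  act_bil : IsBil A.toFre toFre toFre act
  act_mul : ∀ a b x, act (A.mul a b) x = act a (act b x)

/-- A right Fréchet module over the Fréchet algebra `A`. -/
structure RMod (A : FreAlg.{u}) : Type (u + 1) extends Fre.{u} where
  /-- the action `(y, a) ↦ y a` -/
  act : V → A.V → V
  act_bil : IsBil toFre A.toFre toFre act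
  act_mul : ∀ y a b, act y (A.mul a b) = act (act y a) b

/-- A Fréchet bimodule over the Fréchet algebra `A`: commuting left and right actions. -/
structure BMod (A : FreAlg.{u}) : Type (u + 1) extends Fre.{u} where
  /-- the left action `(a, x) ↦ a x` -/
  lact : A.V → V → V
  lact_bil : IsBil A.toFre toFre toFre lact
  lact_mul : ∀ a b x, lact (A.mul a b) x = lact a (lact b x)
  /-- the right action `(x, a) ↦ x a` -/
  ract : V → A.V → V
  ract_bil : IsBil toFre A.toFre toFre ract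
  ract_mul : ∀ x a b, ract x (A.mul a b) = ract (ract x a) b
  comm : ∀ a x b, ract (lact a x) b = lact a (ract x b)

/-- Algebraic exactness of `0 → E₁ → E₂ → E₃ → 0`. -/
def Exact (E₁ E₂ E₃ : Fre.{u}) (i : E₁.V → E₂.V) (q : E₂.V → E₃.V) : Prop :=
  Function.Injective i ∧ (∀ x, q x = 0 ↔ ∃ y, i y = x) ∧ Function.Surjective q

/-- The sequence `0 → E₁ → E₂ → E₃ → 0` of Fréchet spaces and continuous linear maps is exact and
splits as a sequence of topological vector spaces: there are continuous linear maps `r : E₂ → E₁`,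
`s : E₃ → E₂` with `r i = 1`, `q s = 1` and `i r + s q = 1`. -/
def SplitExact (E₁ E₂ E₃ : Fre.{u}) (i : E₁.V → E₂.V) (q : E₂.V → E₃.V) : Prop :=
  Exact E₁ E₂ E₃ i q ∧ IsLin E₁ E₂ i ∧ IsLin E₂ E₃ q ∧
    ∃ (r : E₂.V → E₁.V) (s : E₃.V → E₂.V), IsLin E₂ E₁ r ∧ IsLin E₃ E₂ s ∧
      (∀ x, r (i x) = x) ∧ (∀ x, q (s x) = x) ∧ ∀ x, i (r x) + s (q x) = x

/-- An admissible sequence `0 → Y₁ → Y₂ → Y₃ → 0` of right Fréchet modules: the maps are continuous
module maps, and the sequence is exact and splits as a sequence of topological vector spaces. -/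
def AdmissibleR {A : FreAlg.{u}} (Y₁ Y₂ Y₃ : RMod A) (i : Y₁.V → Y₂.V) (q : Y₂.V → Y₃.V) :
    Prop :=
  SplitExact Y₁.toFre Y₂.toFre Y₃.toFre i q ∧
    (∀ y a, i (Y₁.act y a) = Y₂.act (i y) a) ∧ ∀ y a, q (Y₂.act y a) = Y₃.act (q y) a

/-- An admissible sequence `0 → X₁ → X₂ → X₃ → 0` of left Fréchet modules. -/
def AdmissibleL {A : FreAlg.{u}} (X₁ X₂ X₃ : LMod A) (i : X₁.V → X₂.V) (q : X₂.V → X₃.V) :
    Prop :=
  SplitExact X₁.toFre X₂.toFre X₃.toFre i q ∧
    (∀ a x, i (X₁.act a x) = X₂.act a (i x)) ∧ ∀ a x, q (X₂.act a x) = X₃.act a (q x)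

/-- `P` with the jointly continuous bilinear map `t` is the completed projective tensor product
`E ⊗ F` of Fréchet spaces (characterised by its universal property). -/
def IsTensor (E F P : Fre.{u}) (t : E.V → F.V → P.V) : Prop :=
  IsBil E F P t ∧ ∀ (G : Fre.{u}) (b : E.V → F.V → G.V), IsBil E F G b →
    ∃! f : P.V → G.V, IsLin P G f ∧ ∀ x y, f (t x y) = b x y

/-- `P` with the bilinear map `t` is the completed balanced tensor product `Y ⊗_A X` of a right and a
left Fréchet module, that is, the completion of the quotient of `Y ⊗ X` by the closed linear span of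
the elements `y a ⊗ x - y ⊗ a x`, characterised by its universal property for jointly continuous
bilinear maps `b` with `b (y a) x = b y (a x)`. -/
def IsTensorOver {A : FreAlg.{u}} (Y : RMod A) (X : LMod A) (P : Fre.{u})
    (t : Y.V → X.V → P.V) : Prop :=
  (IsBil Y.toFre X.toFre P t ∧ ∀ y a x, t (Y.act y a) x = t y (X.act a x)) ∧
    ∀ (G : Fre.{u}) (b : Y.V → X.V → G.V), IsBil Y.toFre X.toFre G b →
      (∀ y a x, b (Y.act y a) x = b y (X.act a x)) →
      ∃! f : P.V → G.V, IsLin P G f ∧ ∀ x y, f (t x y) = b x y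

/-- The left Fréchet module `X` is flat: for every admissible sequence of right Fréchet modules the
sequence obtained by applying `(-) ⊗_A X` is exact. -/
def LFlat {A : FreAlg.{u}} (X : LMod A) : Prop :=
  ∀ (Y₁ Y₂ Y₃ : RMod A) (i : Y₁.V → Y₂.V) (q : Y₂.V → Y₃.V), AdmissibleR Y₁ Y₂ Y₃ i q →
    ∀ (P₁ P₂ P₃ : Fre.{u}) (t₁ : Y₁.V → X.V → P₁.V) (t₂ : Y₂.V → X.V → P₂.V)
      (t₃ : Y₃.V → X.V → P₃.V),
      IsTensorOver Y₁ X P₁ t₁ → IsTensorOver Y₂ X P₂ t₂ → IsTensorOver Y₃ X P₃ t₃ →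
      ∀ (f : P₁.V → P₂.V) (g : P₂.V → P₃.V), IsLin P₁ P₂ f → IsLin P₂ P₃ g →
        (∀ y x, f (t₁ y x) = t₂ (i y) x) → (∀ y x, g (t₂ y x) = t₃ (q y) x) →
        Exact P₁ P₂ P₃ f g

/-- The right Fréchet module `Y` is flat: for every admissible sequence of left Fréchet modules the
sequence obtained by applying `Y ⊗_A (-)` is exact. -/
def RFlat {A : FreAlg.{u}} (Y : RMod A) : Prop :=
  ∀ (X₁ X₂ X₃ : LMod A) (i : X₁.V → X₂.V) (q : X₂.V → X₃.V), AdmissibleL X₁ X₂ X₃ i q →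
    ∀ (P₁ P₂ P₃ : Fre.{u}) (t₁ : Y.V → X₁.V → P₁.V) (t₂ : Y.V → X₂.V → P₂.V)
      (t₃ : Y.V → X₃.V → P₃.V),
      IsTensorOver Y X₁ P₁ t₁ → IsTensorOver Y X₂ P₂ t₂ → IsTensorOver Y X₃ P₃ t₃ →
      ∀ (f : P₁.V → P₂.V) (g : P₂.V → P₃.V), IsLin P₁ P₂ f → IsLin P₂ P₃ g →
        (∀ y x, f (t₁ y x) = t₂ y (i x)) → (∀ y x, g (t₂ y x) = t₃ y (q x)) →
        Exact P₁ P₂ P₃ f g

theorem uniF_add (A : Fre.{u}) (n : ℕ) (x y : A.V × ℂ) :
    A.p n (x + y).1 + ‖(x + y).2‖ ≤ A.p n x.1 + ‖x.2‖ + (A.p n y.1 + ‖y.2‖) := by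
  have h1 := A.p_add n x.1 y.1
  have h2 := norm_add_le x.2 y.2
  rw [Prod.fst_add, Prod.snd_add]
  linarith

theorem uniF_smul (A : Fre.{u}) (n : ℕ) (c : ℂ) (x : A.V × ℂ) :
    A.p n (c • x).1 + ‖(c • x).2‖ = ‖c‖ * (A.p n x.1 + ‖x.2‖) := by
  rw [Prod.smul_fst, Prod.smul_snd, A.p_smul, norm_smul]
  ring

theorem uniF_mono (A : Fre.{u}) (n : ℕ) (x : A.V × ℂ) :
    A.p n x.1 + ‖x.2‖ ≤ A.p (n + 1) x.1 + ‖x.2‖ := by
  have := A.mono n x.1
  linarith

theorem Fre.p_nonneg (E : Fre.{u}) (n : ℕ) (x : E.V) : 0 ≤ E.p n x := by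
  have h1 := E.p_add n x ((-1 : ℂ) • x)
  have h2 := E.p_smul n (-1) x
  have h3 := E.p_smul n 0 (0 : E.V)
  rw [norm_neg, norm_one, one_mul] at h2
  rw [norm_zero, zero_mul, smul_zero] at h3
  rw [neg_smul, one_smul, add_neg_cancel, h3] at h1
  rw [neg_smul, one_smul] at h2
  rw [h2] at h1
  linarith

theorem uniF_sep (A : Fre.{u}) (x : A.V × ℂ) (h : ∀ n, A.p n x.1 + ‖x.2‖ = 0) : x = 0 := by
  have h1 : ∀ n, A.p n x.1 = 0 ∧ ‖x.2‖ = 0 := by
    intro n
    have h2 := h n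
    have h3 := A.p_nonneg n x.1
    have h4 := norm_nonneg x.2
    constructor <;> linarith
  exact Prod.ext (A.sep _ fun n => (h1 n).1) (norm_eq_zero.1 (h1 0).2)

theorem uniF_complete (A : Fre.{u}) (x : ℕ → A.V × ℂ)
    (h : ∀ n, ∀ ε > (0 : ℝ), ∃ N, ∀ i ≥ N, ∀ j ≥ N,
      A.p n (x i - x j).1 + ‖(x i - x j).2‖ < ε) :
    ∃ y : A.V × ℂ, ∀ n, ∀ ε > (0 : ℝ), ∃ N, ∀ i ≥ N,
      A.p n (x i - y).1 + ‖(x i - y).2‖ < ε := by
  obtain ⟨y, hy⟩ := A.complete (fun k => (x k).1) (fun n ε hε => by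
    obtain ⟨N, hN⟩ := h n ε hε
    refine ⟨N, fun i hi j hj => ?_⟩
    have h1 : A.p n ((x i).1 - (x j).1) + ‖(x i).2 - (x j).2‖ < ε := hN i hi j hj
    have h2 := norm_nonneg ((x i).2 - (x j).2)
    linarith)
  have hc : CauchySeq (fun k => (x k).2) := by
    rw [Metric.cauchySeq_iff]
    intro ε hε
    obtain ⟨N, hN⟩ := h 0 ε hε
    refine ⟨N, fun i hi j hj => ?_⟩
    have h1 : A.p 0 ((x i).1 - (x j).1) + ‖(x i).2 - (x j).2‖ < ε := hN i hi j hj
    have h2 := A.p_nonneg 0 ((x i).1 - (x j).1)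
    rw [dist_eq_norm]
    linarith
  obtain ⟨z, hz⟩ := cauchySeq_tendsto_of_complete hc
  refine ⟨(y, z), fun n ε hε => ?_⟩
  obtain ⟨N, hN⟩ := hy n (ε / 2) (by linarith)
  obtain ⟨M, hM⟩ := Metric.tendsto_atTop.1 hz (ε / 2) (by linarith)
  refine ⟨max N M, fun i hi => ?_⟩
  have h1 := hN i ((le_max_left _ _).trans hi)
  have h2 := hM i ((le_max_right _ _).trans hi)
  rw [dist_eq_norm] at h2
  change A.p n ((x i).1 - y) + ‖(x i).2 - z‖ < ε
  linarith

/-- The Fréchet space `A × ℂ`. -/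
@[reducible] noncomputable def uniF (A : Fre.{u}) : Fre.{u} where
  V := A.V × ℂ
  p n x := A.p n x.1 + ‖x.2‖
  p_add := uniF_add A
  p_smul := uniF_smul A
  mono := uniF_mono A
  sep := uniF_sep A
  complete := uniF_complete A

/-- The multiplication `(a, s) (b, t) = (a b + s b + t a, s t)` on `A × ℂ`. -/
def umul (A : FreAlg.{u}) (x y : (uniF A.toFre).V) : (uniF A.toFre).V :=
  (A.mul x.1 y.1 + x.2 • y.1 + y.2 • x.1, x.2 * y.2)

theorem umul_cont (A : FreAlg.{u}) (m : ℕ) : ∃ (n : ℕ) (C : ℝ), ∀ x y : (uniF A.toFre).V,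
    (uniF A.toFre).p m (umul A x y) ≤ C * (uniF A.toFre).p n x * (uniF A.toFre).p n y := by
  obtain ⟨n, C, h⟩ := A.mul_bil.2.2.2.2 m
  refine ⟨max n m, |C| + 1, fun x y => ?_⟩
  have hm1 : ∀ z, A.p m z ≤ A.p (max n m) z := fun z =>
    monotone_nat_of_le_succ (f := fun k => A.p k z) (fun k => A.mono k z) (le_max_right _ _)
  have hn1 : ∀ z, A.p n z ≤ A.p (max n m) z := fun z =>
    monotone_nat_of_le_succ (f := fun k => A.p k z) (fun k => A.mono k z) (le_max_left _ _)
  change A.p m (A.mul x.1 y.1 + x.2 • y.1 + y.2 • x.1) + ‖x.2 * y.2‖ ≤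
    (|C| + 1) * (A.p (max n m) x.1 + ‖x.2‖) * (A.p (max n m) y.1 + ‖y.2‖)
  have h1 : A.p m (A.mul x.1 y.1 + x.2 • y.1 + y.2 • x.1) ≤
      A.p m (A.mul x.1 y.1) + ‖x.2‖ * A.p m y.1 + ‖y.2‖ * A.p m x.1 := by
    have k1 := A.p_add m (A.mul x.1 y.1 + x.2 • y.1) (y.2 • x.1)
    have k2 := A.p_add m (A.mul x.1 y.1) (x.2 • y.1)
    rw [A.p_smul] at k1 k2
    linarith
  have h2 := h x.1 y.1
  have h3 := A.p_nonneg n x.1
  have h4 := A.p_nonneg n y.1
  have h5 : A.p m (A.mul x.1 y.1) ≤ |C| * A.p (max n m) x.1 * A.p (max n m) y.1 := by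
    have h6 := hn1 x.1
    have h7 := hn1 y.1
    have h8 := le_abs_self C
    have h8' : 0 ≤ A.p (max n m) x.1 := A.p_nonneg _ _
    calc A.p m (A.mul x.1 y.1) ≤ C * A.p n x.1 * A.p n y.1 := h2
      _ ≤ |C| * A.p n x.1 * A.p n y.1 := by gcongr
      _ ≤ |C| * A.p (max n m) x.1 * A.p (max n m) y.1 := by gcongr
  have h9 := hm1 x.1
  have h10 := hm1 y.1
  have h11 := norm_nonneg x.2
  have h12 := norm_nonneg y.2
  have h13 : 0 ≤ A.p (max n m) x.1 := A.p_nonneg _ _
  have h14 : 0 ≤ A.p (max n m) y.1 := A.p_nonneg _ _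
  rw [norm_mul]
  have h15 : ‖x.2‖ * A.p m y.1 ≤ ‖x.2‖ * A.p (max n m) y.1 := by gcongr
  have h16 : ‖y.2‖ * A.p m x.1 ≤ ‖y.2‖ * A.p (max n m) x.1 := by gcongr
  have h17 := abs_nonneg C
  have h18 : 0 ≤ A.p (max n m) x.1 * A.p (max n m) y.1 := by positivity
  have h19 : 0 ≤ |C| * (‖x.2‖ * A.p (max n m) y.1) := by positivity
  have h20 : 0 ≤ |C| * (‖y.2‖ * A.p (max n m) x.1) := by positivity
  have h21 : 0 ≤ |C| * (‖x.2‖ * ‖y.2‖) := by positivity
  nlinarith

theorem umul_bil (A : FreAlg.{u}) :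
    IsBil (uniF A.toFre) (uniF A.toFre) (uniF A.toFre) (umul A) := by
  obtain ⟨h1, h2, h3, h4, _⟩ := A.mul_bil
  refine ⟨fun x x' y => ?_, fun c x y => ?_, fun x y y' => ?_, fun c x y => ?_, umul_cont A⟩
  · refine Prod.ext ?_ ?_
    · simp only [umul, Prod.fst_add, Prod.snd_add, h1]; module
    · simp only [umul, Prod.snd_add]; ring
  · refine Prod.ext ?_ ?_
    · simp only [umul, Prod.smul_fst, Prod.smul_snd, h2, smul_eq_mul]; module
    · simp only [umul, Prod.smul_snd, smul_eq_mul]; ring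
  · refine Prod.ext ?_ ?_
    · simp only [umul, Prod.fst_add, Prod.snd_add, h3]; module
    · simp only [umul, Prod.snd_add]; ring
  · refine Prod.ext ?_ ?_
    · simp only [umul, Prod.smul_fst, Prod.smul_snd, h4, smul_eq_mul]; module
    · simp only [umul, Prod.smul_snd, smul_eq_mul]; ring

theorem umul_assoc (A : FreAlg.{u}) (a b c : (uniF A.toFre).V) :
    umul A (umul A a b) c = umul A a (umul A b c) := by
  obtain ⟨h1, h2, h3, h4, _⟩ := A.mul_bil
  refine Prod.ext ?_ ?_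
  · simp only [umul, h1, h2, h3, h4, A.mul_assoc, smul_add]
    module
  · simp only [umul]; ring

/-- The unitization `A_+` of `A`: the Fréchet space `A × ℂ` with the multiplication
`(a, s) (b, t) = (a b + s b + t a, s t)`. -/
@[reducible] noncomputable def unitz (A : FreAlg.{u}) : FreAlg.{u} where
  toFre := uniF A.toFre
  mul := umul A
  mul_bil := umul_bil A
  mul_assoc := umul_assoc A

theorem opp_bil (A : FreAlg.{u}) : IsBil A.toFre A.toFre A.toFre (fun a b => A.mul b a) := by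
  obtain ⟨h1, h2, h3, h4, h5⟩ := A.mul_bil
  refine ⟨fun x x' y => h3 _ _ _, fun c x y => h4 _ _ _, fun x y y' => h1 _ _ _,
    fun c x y => h2 _ _ _, fun m => ?_⟩
  obtain ⟨n, C, h⟩ := h5 m
  refine ⟨n, C, fun x y => (h y x).trans (le_of_eq ?_)⟩
  ring

/-- The opposite algebra. -/
@[reducible] noncomputable def opp (A : FreAlg.{u}) : FreAlg.{u} where
  toFre := A.toFre
  mul a b := A.mul b a
  mul_bil := opp_bil A
  mul_assoc a b c := (A.mul_assoc c b a).symm

/-- The Fréchet algebra `B` with the bilinear map `t` is the enveloping algebra `A_+ ⊗ A_+^op`: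
the completed projective tensor product with the multiplication
`(a ⊗ b) (c ⊗ d) = a c ⊗ b d`, the product `b d` being taken in the opposite algebra. -/
def IsEnv (A B : FreAlg.{u}) (t : (unitz A).V → (opp (unitz A)).V → B.V) : Prop :=
  IsTensor (unitz A).toFre (opp (unitz A)).toFre B.toFre t ∧
    ∀ a b c d, B.mul (t a b) (t c d) = t ((unitz A).mul a c) ((opp (unitz A)).mul b d)

/-- `act` is the left action of the enveloping algebra `(B, t)` on the bimodule `M`, that is, the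
jointly continuous action with `(a ⊗ b) x = a x b`, where `(a, s) x = a x + s x` and
`x (b, r) = x b + r x` for `(a, s), (b, r)` in `A_+`. -/
def IsEnvAct {A : FreAlg.{u}} (M : BMod A) (B : FreAlg.{u})
    (t : (unitz A).V → (opp (unitz A)).V → B.V) (act : B.V → M.V → M.V) : Prop :=
  IsBil B.toFre M.toFre M.toFre act ∧ (∀ a b x, act (B.mul a b) x = act a (act b x)) ∧
    ∀ (a : A.V) (s : ℂ) (b : A.V) (r : ℂ) (x : M.V),
      act (t (a, s) (b, r)) x = M.ract (M.lact a x + s • x) b + r • (M.lact a x + s • x)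

/-- The bimodule `M` as a left module over its enveloping algebra. -/
@[reducible] def envMod {A : FreAlg.{u}} (M : BMod A) (B : FreAlg.{u})
    (t : (unitz A).V → (opp (unitz A)).V → B.V) (act : B.V → M.V → M.V)
    (h : IsEnvAct M B t act) : LMod B where
  toFre := M.toFre
  act := act
  act_bil := h.1
  act_mul := h.2.1

/-- The bimodule `M` is flat in `A-mod-A`: it is flat as a left module over `A_+ ⊗ A_+^op`. (The
first part says that the enveloping algebra and its action on `M` exist, the second that `M` is flat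
over it.) -/
def BFlat {A : FreAlg.{u}} (M : BMod A) : Prop :=
  (∃ (B : FreAlg.{u}) (t : (unitz A).V → (opp (unitz A)).V → B.V) (act : B.V → M.V → M.V),
    IsEnv A B t ∧ IsEnvAct M B t act) ∧
  ∀ (B : FreAlg.{u}) (t : (unitz A).V → (opp (unitz A)).V → B.V) (act : B.V → M.V → M.V),
    IsEnv A B t → ∀ h : IsEnvAct M B t act, LFlat (envMod M B t act h)

/-- The bimodule `M` with the bilinear map `m` is the bimodule `X ⊗ Y`: the completed projective
tensor product with `a (x ⊗ y) b = a x ⊗ y b`. -/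
def IsTensorBi {A : FreAlg.{u}} (X : LMod A) (Y : RMod A) (M : BMod A)
    (m : X.V → Y.V → M.V) : Prop :=
  IsTensor X.toFre Y.toFre M.toFre m ∧ (∀ a x y, M.lact a (m x y) = m (X.act a x) y) ∧
    ∀ x y a, M.ract (m x y) a = m x (Y.act y a)

end Pool.Agent.FreTensor
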