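import Pool.Agent.FreTensor.Bi

/-!
The enveloping algebra, its action on bimodules, and flatness of `X ⊗ Y` over it.
-/

set_option autoImplicit false

universe u

namespace Pool.Agent.FreTensor

/-! ### Existence of tensor products of algebras -/

theorem exists_tenAlg (E F : FreAlg.{u}) :
    ∃ (B : FreAlg.{u}) (t : E.V →ₗ[ℂ] F.V →ₗ[ℂ] B.V), IsTR E.toFre F.toFre ∅ B.toFre t ∧
      ∀ a b c d, B.mulL (t a b) (t c d) = t (E.mulL a c) (F.mulL b d) := by
  obtain ⟨L, hLc, hL⟩ := (ten_isTR E.toFre F.toFre).lift₂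
    (triL (D := E.toFre) (E := E.toFre) (F := F.toFre) (E' := E.toFre)
      (G := ten E.toFre F.toFre) E.mulL (tm E.toFre F.toFre))
    (isCont₃_triL E.mulL_cont (tm_cont _ _)) (fun _ => resp_empty _)
  obtain ⟨R, hRc, hR⟩ := (ten_isTR E.toFre F.toFre).lift₂
    (triR (D := F.toFre) (E := E.toFre) (F := F.toFre) (F' := F.toFre)
      (G := ten E.toFre F.toFre) F.mulL (tm E.toFre F.toFre))
    (isCont₃_triR F.mulL_cont (tm_cont _ _)) (fun _ => resp_empty _)
  obtain ⟨M, hMc, hM⟩ := (ten_isTR E.toFre F.toFre).lift₂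
    (triR (D := ten E.toFre F.toFre) (E := E.toFre) (F := F.toFre) (F' := ten E.toFre F.toFre)
      (G := ten E.toFre F.toFre) R.flip L)
    (isCont₃_triR hRc.flip hLc) (fun _ => resp_empty _)
  simp only [triL_apply, triR_apply, LinearMap.flip_apply] at hL hR hM
  have key1 : ∀ a b c d w, L (E.mulL a c) (R (F.mulL b d) w) = L a (R b (L c (R d w))) := by
    intro a b c d w
    refine ten_ext (f := L (E.mulL a c) ∘ₗ R (F.mulL b d))
      (f' := (L a ∘ₗ R b) ∘ₗ (L c ∘ₗ R d)) ((hLc.right _).comp (hRc.right _))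
      (((hLc.right _).comp (hRc.right _)).comp ((hLc.right _).comp (hRc.right _)))
      (fun e f => ?_) w
    simp only [LinearMap.comp_apply, hL, hR, E.mulL_assoc, F.mulL_assoc]
  have key2 : ∀ a b v w, M w (L a (R b v)) = L a (R b (M w v)) := by
    intro a b v w
    refine ten_ext (f := M w ∘ₗ (L a ∘ₗ R b)) (f' := (L a ∘ₗ R b) ∘ₗ M w)
      ((hMc.right _).comp ((hLc.right _).comp (hRc.right _)))
      (((hLc.right _).comp (hRc.right _)).comp (hMc.right _)) (fun c d => ?_) v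
    simp only [LinearMap.comp_apply, hL, hR, hM, key1]
  have key3 : ∀ u v w, M w (M v u) = M (M w v) u := by
    intro u v w
    refine ten_ext (f := M w ∘ₗ M v) (f' := M (M w v)) ((hMc.right _).comp (hMc.right _))
      (hMc.right _) (fun a b => ?_) u
    simp only [LinearMap.comp_apply, hM, key2]
  refine ⟨mkAlg (ten E.toFre F.toFre) M.flip hMc.flip (fun a b c => ?_), tm E.toFre F.toFre,
    ten_isTR _ _, fun a b c d => ?_⟩
  · rw [LinearMap.flip_apply, LinearMap.flip_apply, LinearMap.flip_apply, LinearMap.flip_apply]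
    exact key3 a b c
  · change M.flip (tm E.toFre F.toFre a b) (tm E.toFre F.toFre c d) = _
    rw [LinearMap.flip_apply, hM, hR, hL]

variable {A : FreAlg.{u}}

/-- the enveloping algebra, in terms of bilinear maps -/
def IsEnvL (A B : FreAlg.{u}) (t : (unitz A).V →ₗ[ℂ] (opp (unitz A)).V →ₗ[ℂ] B.V) : Prop :=
  IsTR (unitz A).toFre (opp (unitz A)).toFre ∅ B.toFre t ∧
    ∀ a b c d, B.mulL (t a b) (t c d) = t ((unitz A).mulL a c) ((opp (unitz A)).mulL b d)

theorem isEnv_of {A B : FreAlg.{u}} {t : (unitz A).V →ₗ[ℂ] (opp (unitz A)).V →ₗ[ℂ] B.V}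
    (h : IsEnvL A B t) : IsEnv A B (fun a b => t a b) := ⟨isTensor_of h.1, h.2⟩

theorem isEnv_to {A B : FreAlg.{u}} {t : (unitz A).V → (opp (unitz A)).V → B.V}
    (h : IsEnv A B t) : ∃ T : (unitz A).V →ₗ[ℂ] (opp (unitz A)).V →ₗ[ℂ] B.V,
      IsEnvL A B T ∧ (fun a b => T a b) = t := by
  obtain ⟨h1, h2⟩ := h
  obtain ⟨T, hT, rfl⟩ := isTensor_to h1
  exact ⟨T, ⟨hT, h2⟩, rfl⟩

theorem exists_env (A : FreAlg.{u}) : ∃ (B : FreAlg.{u})
    (t : (unitz A).V →ₗ[ℂ] (opp (unitz A)).V →ₗ[ℂ] B.V), IsEnvL A B t := by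
  obtain ⟨B, t, h1, h2⟩ := exists_tenAlg (unitz A) (opp (unitz A))
  exact ⟨B, t, h1, h2⟩

/-! ### Actions of the unitization -/

theorem unit_act_cont {M : Fre.{u}} {l : A.V →ₗ[ℂ] M.V →ₗ[ℂ] M.V} (hl : IsCont₂ A.toFre M M l) :
    IsCont₂ (unitz A).toFre M M
      (l ∘ₗ LinearMap.fst ℂ A.V ℂ + (LinearMap.lsmul ℂ M.V) ∘ₗ LinearMap.snd ℂ A.V ℂ :
        (A.V × ℂ) →ₗ[ℂ] M.V →ₗ[ℂ] M.V) := by
  intro m
  obtain ⟨n, C, hn, hC, h⟩ := hl.nonneg m m
  refine ⟨n, C + 1, fun x y => ?_⟩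
  change M.sn m (l x.1 y + x.2 • y) ≤ (C + 1) * (A.sn n x.1 + ‖x.2‖) * M.sn n y
  have h1 : M.sn m (l x.1 y + x.2 • y) ≤ M.sn m (l x.1 y) + ‖x.2‖ * M.sn m y := by
    refine (map_add_le_add _ _ _).trans ?_
    rw [map_smul_eq_mul]
  have h2 := h x.1 y
  have h3 : ‖x.2‖ * M.sn m y ≤ ‖x.2‖ * M.sn n y :=
    mul_le_mul_of_nonneg_left (M.mono' hn y) (norm_nonneg _)
  have h4 : 0 ≤ A.sn n x.1 * M.sn n y := mul_nonneg (apply_nonneg _ _) (apply_nonneg _ _)
  have h5 : 0 ≤ C * (‖x.2‖ * M.sn n y) :=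
    mul_nonneg hC (mul_nonneg (norm_nonneg _) (apply_nonneg _ _))
  nlinarith

/-- the left action of the unitization -/
noncomputable def ula (M : BMod A) : (unitz A).V →ₗ[ℂ] M.V →ₗ[ℂ] M.V :=
  (M.lactL ∘ₗ LinearMap.fst ℂ A.V ℂ + (LinearMap.lsmul ℂ M.V) ∘ₗ LinearMap.snd ℂ A.V ℂ :
        (A.V × ℂ) →ₗ[ℂ] M.V →ₗ[ℂ] M.V)

/-- the right action of the unitization -/
noncomputable def ura (M : BMod A) : (opp (unitz A)).V →ₗ[ℂ] M.V →ₗ[ℂ] M.V :=
  (M.ractL.flip ∘ₗ LinearMap.fst ℂ A.V ℂ + (LinearMap.lsmul ℂ M.V) ∘ₗ LinearMap.snd ℂ A.V ℂ :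
        (A.V × ℂ) →ₗ[ℂ] M.V →ₗ[ℂ] M.V)

theorem ula_apply (M : BMod A) (a : (unitz A).V) (x : M.V) : ula M a x = M.lactL a.1 x + a.2 • x :=
  rfl

theorem ura_apply (M : BMod A) (a : (unitz A).V) (x : M.V) : ura M a x = M.ractL x a.1 + a.2 • x :=
  rfl

theorem ula_cont (M : BMod A) : IsCont₂ (unitz A).toFre M.toFre M.toFre (ula M) :=
  unit_act_cont M.lactL_cont

theorem ura_cont (M : BMod A) : IsCont₂ (opp (unitz A)).toFre M.toFre M.toFre (ura M) :=
  unit_act_cont M.ractL_cont.flip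

theorem ula_mul (M : BMod A) (a b : (unitz A).V) (x : M.V) :
    ula M ((unitz A).mulL a b) x = ula M a (ula M b x) := by
  change M.lactL (A.mulL a.1 b.1 + a.2 • b.1 + b.2 • a.1) x + (a.2 * b.2) • x =
    M.lactL a.1 (M.lactL b.1 x + b.2 • x) + a.2 • (M.lactL b.1 x + b.2 • x)
  simp only [map_add, map_smul, LinearMap.add_apply, LinearMap.smul_apply, M.lactL_mul]
  module

theorem ura_mul (M : BMod A) (a b : (unitz A).V) (x : M.V) :
    ura M ((unitz A).mulL a b) x = ura M b (ura M a x) := by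
  change M.ractL x (A.mulL a.1 b.1 + a.2 • b.1 + b.2 • a.1) + (a.2 * b.2) • x =
    M.ractL (M.ractL x a.1 + a.2 • x) b.1 + b.2 • (M.ractL x a.1 + a.2 • x)
  simp only [map_add, map_smul, LinearMap.add_apply, LinearMap.smul_apply, M.ractL_mul]
  module

theorem ula_ura (M : BMod A) (a b : (unitz A).V) (x : M.V) :
    ula M a (ura M b x) = ura M b (ula M a x) := by
  change M.lactL a.1 (M.ractL x b.1 + b.2 • x) + a.2 • (M.ractL x b.1 + b.2 • x) =
    M.ractL (M.lactL a.1 x + a.2 • x) b.1 + b.2 • (M.lactL a.1 x + a.2 • x)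
  simp only [map_add, map_smul, LinearMap.add_apply, LinearMap.smul_apply, M.commL]
  module

/-- the action of the enveloping algebra, in terms of bilinear maps -/
def IsEnvActL (M : BMod A) (B : FreAlg.{u})
    (t : (unitz A).V →ₗ[ℂ] (opp (unitz A)).V →ₗ[ℂ] B.V) (act : B.V →ₗ[ℂ] M.V →ₗ[ℂ] M.V) : Prop :=
  IsCont₂ B.toFre M.toFre M.toFre act ∧ (∀ a b x, act (B.mulL a b) x = act a (act b x)) ∧
    ∀ a b x, act (t a b) x = ura M b (ula M a x)

theorem isEnvAct_of {M : BMod A} {B : FreAlg.{u}}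
    {t : (unitz A).V →ₗ[ℂ] (opp (unitz A)).V →ₗ[ℂ] B.V} {act : B.V →ₗ[ℂ] M.V →ₗ[ℂ] M.V}
    (h : IsEnvActL M B t act) : IsEnvAct M B (fun a b => t a b) (fun b x => act b x) :=
  ⟨h.1.isBil, h.2.1, fun a s b r x => h.2.2 (a, s) (b, r) x⟩

theorem isEnvAct_to {M : BMod A} {B : FreAlg.{u}}
    {t : (unitz A).V →ₗ[ℂ] (opp (unitz A)).V →ₗ[ℂ] B.V} {act : B.V → M.V → M.V}
    (h : IsEnvAct M B (fun a b => t a b) act) : ∃ K : B.V →ₗ[ℂ] M.V →ₗ[ℂ] M.V,
      IsEnvActL M B t K ∧ (fun b x => K b x) = act := by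
  obtain ⟨h1, h2, h3⟩ := h
  obtain ⟨K, hK, rfl⟩ := h1.exists
  exact ⟨K, ⟨hK, h2, fun a b x => h3 a.1 a.2 b.1 b.2 x⟩, rfl⟩

theorem exists_envAct (M : BMod A) {B : FreAlg.{u}}
    {t : (unitz A).V →ₗ[ℂ] (opp (unitz A)).V →ₗ[ℂ] B.V} (h : IsEnvL A B t) :
    ∃ act : B.V →ₗ[ℂ] M.V →ₗ[ℂ] M.V, IsEnvActL M B t act := by
  obtain ⟨h1, h2⟩ := h
  obtain ⟨K, hKc, hK⟩ := h1.lift₂
    (triL (D := M.toFre) (E := (unitz A).toFre) (F := (opp (unitz A)).toFre) (E' := M.toFre)
      (G := M.toFre) (ula M).flip (ura M).flip)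
    (isCont₃_triL (ula_cont M).flip (ura_cont M).flip) (fun _ => resp_empty _)
  replace hK : ∀ (x : M.V) (a : (unitz A).V) (b : (opp (unitz A)).V),
      K x (t a b) = ura M b (ula M a x) := fun x a b => hK x a b
  have key : ∀ a b x, K x (B.mulL a b) = K (K x b) a := by
    intro a b x
    refine h1.ext (f := K x ∘ₗ B.mulL.flip b) (f' := K (K x b))
      ((hKc.right _).comp (B.mulL_cont.left _)) (hKc.right _) (fun c d => ?_) a
    rw [LinearMap.comp_apply, LinearMap.flip_apply, hK]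
    refine h1.ext (f := K x ∘ₗ B.mulL (t c d)) (f' := (ura M d ∘ₗ ula M c) ∘ₗ K x)
      ((hKc.right _).comp (B.mulL_cont.right _))
      ((((ura_cont M).right _).comp ((ula_cont M).right _)).comp (hKc.right _)) (fun e f => ?_) b
    rw [LinearMap.comp_apply, LinearMap.comp_apply, LinearMap.comp_apply, h2, hK, hK]
    change ura M ((unitz A).mulL f d) (ula M ((unitz A).mulL c e) x) = _
    rw [ura_mul, ula_mul, ula_ura]
  exact ⟨K.flip, hKc.flip, fun a b x => key a b x, fun a b x => hK x a b⟩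

theorem exists_tensorBi (X : LMod A) (Y : RMod A) :
    ∃ (M : BMod A) (m : X.V →ₗ[ℂ] Y.V →ₗ[ℂ] M.V), IsTBi X Y M m := by
  obtain ⟨L, hLc, hL⟩ := (ten_isTR X.toFre Y.toFre).lift₂
    (triL (D := A.toFre) (E := X.toFre) (F := Y.toFre) (E' := X.toFre)
      (G := ten X.toFre Y.toFre) X.actL (tm X.toFre Y.toFre))
    (isCont₃_triL X.actL_cont (tm_cont _ _)) (fun _ => resp_empty _)
  simp only [triL_apply] at hL
  refine ⟨mkBM (ten X.toFre Y.toFre) L hLc (fun a b x => ?_) (rtAct X.toFre Y)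
    (rtAct_cont X.toFre Y) (rtAct_mul X.toFre Y) (fun a x b => ?_), tm X.toFre Y.toFre,
    ten_isTR _ _, fun a x y => hL a x y, fun x y a => rtAct_tm _ _ x y a⟩
  · refine ten_ext (f := L (A.mulL a b)) (f' := L a ∘ₗ L b) (hLc.right _)
      ((hLc.right _).comp (hLc.right _)) (fun x y => ?_) x
    rw [LinearMap.comp_apply, hL, hL, hL, X.actL_mul]
  · refine ten_ext (f := (rtAct X.toFre Y).flip b ∘ₗ L a) (f' := L a ∘ₗ (rtAct X.toFre Y).flip b)
      (((rtAct_cont X.toFre Y).left b).comp (hLc.right _))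
      ((hLc.right _).comp ((rtAct_cont X.toFre Y).left b)) (fun x y => ?_) x
    rw [LinearMap.comp_apply, LinearMap.comp_apply, LinearMap.flip_apply, LinearMap.flip_apply,
      hL, rtAct_tm, rtAct_tm, hL]

/-! ### Right modules over the enveloping algebra as bimodules -/

section EnvMods

variable {B : FreAlg.{u}} {t : (unitz A).V →ₗ[ℂ] (opp (unitz A)).V →ₗ[ℂ] B.V}

/-- the unit of the unitization -/
def uone (A : FreAlg.{u}) : (unitz A).V := (0, 1)

theorem uone_mul (a : (unitz A).V) : (unitz A).mulL (uone A) a = a := by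
  change (A.mulL 0 a.1 + (1 : ℂ) • a.1 + a.2 • (0 : A.V), 1 * a.2) = a
  rw [map_zero, LinearMap.zero_apply, smul_zero, add_zero, zero_add, one_smul, one_mul]

theorem mul_uone (a : (unitz A).V) : (unitz A).mulL a (uone A) = a := by
  change (A.mulL a.1 0 + a.2 • (0 : A.V) + (1 : ℂ) • a.1, a.2 * 1) = a
  rw [map_zero, smul_zero, add_zero, zero_add, one_smul, mul_one]

/-- the inclusion of `A` in the unitization -/
def uinc (A : FreAlg.{u}) : A.V →ₗ[ℂ] (unitz A).V := LinearMap.inl ℂ A.V ℂ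

theorem uinc_cont (A : FreAlg.{u}) : IsCont A.toFre (unitz A).toFre (uinc A) := fun m =>
  ⟨m, 1, fun x => by
    change A.p m x + ‖(0 : ℂ)‖ ≤ 1 * (A.p m x)
    simp⟩

theorem uinc_mul (a b : A.V) : uinc A (A.mulL a b) = (unitz A).mulL (uinc A a) (uinc A b) := by
  change (A.mulL a b, (0 : ℂ)) = (A.mulL a b + (0 : ℂ) • b + (0 : ℂ) • a, (0 : ℂ) * 0)
  rw [zero_smul, zero_smul, add_zero, add_zero, mul_zero]

theorem decomp (a : (unitz A).V) : a = uinc A a.1 + a.2 • uone A := by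
  simp only [uinc, uone, LinearMap.inl_apply]
  ext <;> simp

theorem env_mul (h : IsEnvL A B t) (a b c d : (unitz A).V) :
    B.mulL (t a b) (t c d) = t ((unitz A).mulL a c) ((unitz A).mulL d b) := h.2 a b c d

/-- a right module over the enveloping algebra as a bimodule -/
@[reducible] noncomputable def toBi (h : IsEnvL A B t) (Z : RMod B) : BMod A :=
  mkBM Z.toFre (Z.actL.compl₂ (t (uone A) ∘ₗ uinc A)).flip
    (Z.actL_cont.compR ((IsCont₂.right h.1.cont (uone A)).comp (uinc_cont A))).flip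
    (fun a b z => by
      change Z.actL z (t (uone A) (uinc A (A.mulL a b))) =
        Z.actL (Z.actL z (t (uone A) (uinc A b))) (t (uone A) (uinc A a))
      rw [← Z.actL_mul, env_mul h, uone_mul, uinc_mul])
    (Z.actL.compl₂ (t.flip (uone A) ∘ₗ uinc A))
    (Z.actL_cont.compR ((IsCont₂.left h.1.cont (uone A)).comp (uinc_cont A)))
    (fun z a b => by
      change Z.actL z (t (uinc A (A.mulL a b)) (uone A)) =
        Z.actL (Z.actL z (t (uinc A a) (uone A))) (t (uinc A b) (uone A))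
      rw [← Z.actL_mul, env_mul h, uone_mul, uinc_mul])
    (fun a z b => by
      change Z.actL (Z.actL z (t (uone A) (uinc A a))) (t (uinc A b) (uone A)) =
        Z.actL (Z.actL z (t (uinc A b) (uone A))) (t (uone A) (uinc A a))
      rw [← Z.actL_mul, ← Z.actL_mul, env_mul h, env_mul h, uone_mul, uone_mul, mul_uone,
        mul_uone])

theorem toBi_lact (h : IsEnvL A B t) (Z : RMod B) (a : A.V) (z : Z.V) :
    (toBi h Z).lactL a z = Z.actL z (t (uone A) (uinc A a)) := rfl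

theorem toBi_ract (h : IsEnvL A B t) (Z : RMod B) (a : A.V) (z : Z.V) :
    (toBi h Z).ractL z a = Z.actL z (t (uinc A a) (uone A)) := rfl

theorem envAct_t {M : BMod A} {act : B.V →ₗ[ℂ] M.V →ₗ[ℂ] M.V} (ha : IsEnvActL M B t act)
    (a b : (unitz A).V) (x : M.V) : act (t a b) x = ura M b (ula M a x) := ha.2.2 a b x

/-- the unit of the enveloping algebra is idempotent on modules -/
theorem act_one_mul (h : IsEnvL A B t) (Z : RMod B) (z : Z.V) (a b : (unitz A).V) :
    Z.actL (Z.actL z (t (uone A) (uone A))) (t a b) = Z.actL z (t a b) := by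
  rw [← Z.actL_mul, env_mul h, uone_mul, mul_uone]

theorem act_mul_one (h : IsEnvL A B t) (Z : RMod B) (z : Z.V) (a b : (unitz A).V) :
    Z.actL (Z.actL z (t a b)) (t (uone A) (uone A)) = Z.actL z (t a b) := by
  rw [← Z.actL_mul, env_mul h, uone_mul, mul_uone]

/-- the map of the bimodule tensor product is balanced over the enveloping algebra after
projecting to the unital part -/
theorem env_bal (h : IsEnvL A B t) {M : BMod A} {act : B.V →ₗ[ℂ] M.V →ₗ[ℂ] M.V}
    (ha : IsEnvActL M B t act) (Z : RMod B) {N : Fre.{u}} {n : Z.V →ₗ[ℂ] M.V →ₗ[ℂ] N.V}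
    (hn : IsTR Z.toFre M.toFre (biR (toBi h Z) M) N n) (z : Z.V) (β : B.V) (x : M.V) :
    n (Z.actL (Z.actL z β) (t (uone A) (uone A))) x =
      n (Z.actL z (t (uone A) (uone A))) (act β x) := by
  have hT := h.1
  obtain ⟨hR1, hR2⟩ := resp_biR.1 hn.resp
  have k1 : ∀ (z : Z.V) (a : (unitz A).V) (x : M.V), Z.actL z (t (uone A) (uone A)) = z →
      n (Z.actL z (t a (uone A))) x = n z (ula M a x) := by
    intro z a x hz
    conv_lhs => rw [decomp a]
    rw [map_add, map_smul, LinearMap.add_apply, LinearMap.smul_apply, map_add, map_smul, hz,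
      map_add, map_smul, LinearMap.add_apply, LinearMap.smul_apply, ula_apply, map_add, map_smul,
      ← hR1 z a.1 x]
    rfl
  have k2 : ∀ (z : Z.V) (a : (unitz A).V) (x : M.V), Z.actL z (t (uone A) (uone A)) = z →
      n (Z.actL z (t (uone A) a)) x = n z (ura M a x) := by
    intro z a x hz
    conv_lhs => rw [decomp a]
    rw [map_add, map_smul, map_add, map_smul, hz,
      map_add, map_smul, LinearMap.add_apply, LinearMap.smul_apply, ura_apply, map_add, map_smul,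
      ← hR2 z a.1 x]
    rfl
  refine hT.ext
    (f := (n.flip x ∘ₗ Z.actL.flip (t (uone A) (uone A))) ∘ₗ Z.actL z)
    (f' := n (Z.actL z (t (uone A) (uone A))) ∘ₗ act.flip x)
    (((hn.cont.left x).comp (Z.actL_cont.left _)).comp (Z.actL_cont.right z))
    ((hn.cont.right _).comp (IsCont₂.left ha.1 x)) (fun a b => ?_) β
  rw [LinearMap.comp_apply, LinearMap.comp_apply, LinearMap.comp_apply, LinearMap.flip_apply,
    LinearMap.flip_apply, LinearMap.flip_apply, act_mul_one h, envAct_t ha, ← ula_ura]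
  have e1 : Z.actL (Z.actL z (t (uone A) (uone A))) (t (uone A) (uone A)) =
      Z.actL z (t (uone A) (uone A)) := act_one_mul h Z z _ _
  rw [← k1 _ _ _ e1]
  have e2 : Z.actL (Z.actL (Z.actL z (t (uone A) (uone A))) (t a (uone A))) (t (uone A) (uone A)) =
      Z.actL (Z.actL z (t (uone A) (uone A))) (t a (uone A)) := act_mul_one h Z _ _ _
  rw [← k2 _ _ _ e2, act_one_mul h, ← Z.actL_mul, env_mul h, mul_uone, mul_uone]

end EnvMods

end Pool.Agent.FreTensor
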