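import Pool.Agent.FreTensor.Mods

/-!
The admissible sequence `0 → K(W) → F(W) → W → 0` for a left module `W`, where `K(W)` has underlying
space `A ⊗ W` and `F(W)` has underlying space `(A ⊗ W) × W`, and its image under `Y ⊗_A (-)`.
-/

set_option autoImplicit false

universe u

namespace Pool.Agent.FreTensor

/-! ### Products -/

/-- the product of two Fréchet spaces -/
@[reducible] noncomputable def fprod (E F : Fre.{u}) : Fre.{u} where
  V := E.V × F.V
  p n x := E.p n x.1 + F.p n x.2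
  p_add n x y := by
    have h1 := E.p_add n x.1 y.1
    have h2 := F.p_add n x.2 y.2
    rw [Prod.fst_add, Prod.snd_add]
    linarith
  p_smul n c x := by
    rw [Prod.smul_fst, Prod.smul_snd, E.p_smul, F.p_smul]
    ring
  mono n x := add_le_add (E.mono n _) (F.mono n _)
  sep x h := by
    have h1 : ∀ n, E.p n x.1 = 0 ∧ F.p n x.2 = 0 := by
      intro n
      have h2 : E.p n x.1 + F.p n x.2 = 0 := h n
      have h3 := E.p_nonneg n x.1
      have h4 := F.p_nonneg n x.2
      constructor <;> linarith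
    exact Prod.ext (E.sep _ fun n => (h1 n).1) (F.sep _ fun n => (h1 n).2)
  complete x h := by
    obtain ⟨y, hy⟩ := E.complete (fun k => (x k).1) (fun n ε hε => by
      obtain ⟨N, hN⟩ := h n ε hε
      refine ⟨N, fun i hi j hj => ?_⟩
      have h1 : E.p n ((x i).1 - (x j).1) + F.p n ((x i).2 - (x j).2) < ε := hN i hi j hj
      have h2 := F.p_nonneg n ((x i).2 - (x j).2)
      linarith)
    obtain ⟨z, hz⟩ := F.complete (fun k => (x k).2) (fun n ε hε => by
      obtain ⟨N, hN⟩ := h n ε hε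
      refine ⟨N, fun i hi j hj => ?_⟩
      have h1 : E.p n ((x i).1 - (x j).1) + F.p n ((x i).2 - (x j).2) < ε := hN i hi j hj
      have h2 := E.p_nonneg n ((x i).1 - (x j).1)
      linarith)
    refine ⟨(y, z), fun n ε hε => ?_⟩
    obtain ⟨N, hN⟩ := hy n (ε / 2) (by linarith)
    obtain ⟨M, hM⟩ := hz n (ε / 2) (by linarith)
    refine ⟨max N M, fun i hi => ?_⟩
    have h1 := hN i ((le_max_left _ _).trans hi)
    have h2 := hM i ((le_max_right _ _).trans hi)
    change E.p n ((x i).1 - y) + F.p n ((x i).2 - z) < ε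
    linarith

theorem cont_fst (E F : Fre.{u}) : IsCont (fprod E F) E (LinearMap.fst ℂ E.V F.V) := fun m =>
  ⟨m, 1, fun x => by
    have h2 := F.p_nonneg m x.2
    change E.p m x.1 ≤ 1 * (E.p m x.1 + F.p m x.2)
    linarith⟩

theorem cont_snd (E F : Fre.{u}) : IsCont (fprod E F) F (LinearMap.snd ℂ E.V F.V) := fun m =>
  ⟨m, 1, fun x => by
    have h2 := E.p_nonneg m x.1
    change F.p m x.2 ≤ 1 * (E.p m x.1 + F.p m x.2)
    linarith⟩

theorem cont_inl (E F : Fre.{u}) : IsCont E (fprod E F) (LinearMap.inl ℂ E.V F.V) := fun m =>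
  ⟨m, 1, fun x => by
    change E.sn m x + F.sn m 0 ≤ 1 * (E.sn m x)
    simp⟩

theorem cont_inr (E F : Fre.{u}) : IsCont F (fprod E F) (LinearMap.inr ℂ E.V F.V) := fun m =>
  ⟨m, 1, fun x => by
    change E.sn m 0 + F.sn m x ≤ 1 * (F.sn m x)
    simp⟩

variable {A : FreAlg.{u}}

/-! ### The module `K(W)` -/

theorem exists_lam (W : LMod A) :
    ∃ b : A.V →ₗ[ℂ] (ten A.toFre W.toFre).V →ₗ[ℂ] (ten A.toFre W.toFre).V,
      IsCont₂ A.toFre (ten A.toFre W.toFre) (ten A.toFre W.toFre) b ∧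
      ∀ c a w, b c (tm A.toFre W.toFre a w) = tm A.toFre W.toFre (A.mulL c a) w :=
  (ten_isTR A.toFre W.toFre).lift₂
    (triL (D := A.toFre) (E := A.toFre) (F := W.toFre) (E' := A.toFre) (G := ten A.toFre W.toFre)
      A.mulL (tm A.toFre W.toFre))
    (isCont₃_triL A.mulL_cont (tm_cont _ _)) (fun _ => resp_empty _)

/-- the free action on `A ⊗ W` -/
noncomputable def lam (W : LMod A) :
    A.V →ₗ[ℂ] (ten A.toFre W.toFre).V →ₗ[ℂ] (ten A.toFre W.toFre).V := (exists_lam W).choose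

theorem lam_cont (W : LMod A) :
    IsCont₂ A.toFre (ten A.toFre W.toFre) (ten A.toFre W.toFre) (lam W) :=
  (exists_lam W).choose_spec.1

theorem lam_tm (W : LMod A) (c a : A.V) (w : W.V) :
    lam W c (tm A.toFre W.toFre a w) = tm A.toFre W.toFre (A.mulL c a) w :=
  (exists_lam W).choose_spec.2 c a w

theorem lam_mul (W : LMod A) (b c : A.V) (u : (ten A.toFre W.toFre).V) :
    lam W (A.mulL b c) u = lam W b (lam W c u) := by
  refine ten_ext (f := lam W (A.mulL b c)) (f' := lam W b ∘ₗ lam W c) ((lam_cont W).right _)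
    (((lam_cont W).right _).comp ((lam_cont W).right _)) (fun a w => ?_) u
  rw [LinearMap.comp_apply, lam_tm, lam_tm, lam_tm, A.mulL_assoc]

/-- the map `A ⊗ W → W` given by the action -/
noncomputable def mu (W : LMod A) : (ten A.toFre W.toFre).V →ₗ[ℂ] W.V := tlift W.actL W.actL_cont

theorem mu_cont (W : LMod A) : IsCont (ten A.toFre W.toFre) W.toFre (mu W) := tlift_cont _ _

theorem mu_tm (W : LMod A) (a : A.V) (w : W.V) : mu W (tm A.toFre W.toFre a w) = W.actL a w :=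
  tlift_tm _ _ _ _

theorem mu_lam (W : LMod A) (b : A.V) (u : (ten A.toFre W.toFre).V) :
    mu W (lam W b u) = W.actL b (mu W u) := by
  refine ten_ext (f := mu W ∘ₗ lam W b) (f' := W.actL b ∘ₗ mu W)
    ((mu_cont W).comp ((lam_cont W).right _)) ((W.actL_cont.right _).comp (mu_cont W))
    (fun a w => ?_) u
  rw [LinearMap.comp_apply, LinearMap.comp_apply, lam_tm, mu_tm, mu_tm, W.actL_mul]

/-- the action on `K(W)` -/
noncomputable def kap (W : LMod A) :
    A.V →ₗ[ℂ] (ten A.toFre W.toFre).V →ₗ[ℂ] (ten A.toFre W.toFre).V :=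
  lam W - (tm A.toFre W.toFre).compl₂ (mu W)

theorem kap_cont (W : LMod A) :
    IsCont₂ A.toFre (ten A.toFre W.toFre) (ten A.toFre W.toFre) (kap W) :=
  (lam_cont W).sub ((tm_cont _ _).compR (mu_cont W))

theorem kap_apply (W : LMod A) (b : A.V) (u : (ten A.toFre W.toFre).V) :
    kap W b u = lam W b u - tm A.toFre W.toFre b (mu W u) := rfl

theorem mu_kap (W : LMod A) (b : A.V) (u : (ten A.toFre W.toFre).V) : mu W (kap W b u) = 0 := by
  rw [kap_apply, map_sub, mu_lam, mu_tm, sub_self]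

theorem kap_mul (W : LMod A) (a b : A.V) (u : (ten A.toFre W.toFre).V) :
    kap W (A.mulL a b) u = kap W a (kap W b u) := by
  rw [kap_apply W a (kap W b u), mu_kap, map_zero, sub_zero, kap_apply, kap_apply, map_sub,
    lam_tm, lam_mul]

/-- the module `K(W)` -/
@[reducible] noncomputable def kmod (W : LMod A) : LMod A :=
  mkLM (ten A.toFre W.toFre) (kap W) (kap_cont W) (kap_mul W)

/-! ### The module `F(W)` -/

/-- the action on `F(W)` -/
noncomputable def fact (W : LMod A) :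
    A.V →ₗ[ℂ] (fprod (ten A.toFre W.toFre) W.toFre).V →ₗ[ℂ]
      (fprod (ten A.toFre W.toFre) W.toFre).V :=
  ((lam W).compl₂ (LinearMap.fst ℂ _ _) +
    (tm A.toFre W.toFre).compl₂ (LinearMap.snd ℂ _ _)).compr₂ (LinearMap.inl ℂ _ _)

theorem fact_cont (W : LMod A) : IsCont₂ A.toFre (fprod (ten A.toFre W.toFre) W.toFre)
    (fprod (ten A.toFre W.toFre) W.toFre) (fact W) :=
  IsCont₂.compr (IsCont₂.add ((lam_cont W).compR (cont_fst _ _))
    ((tm_cont _ _).compR (cont_snd _ _))) (cont_inl _ _)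

theorem fact_apply (W : LMod A) (b : A.V) (v : (fprod (ten A.toFre W.toFre) W.toFre).V) :
    fact W b v = (lam W b v.1 + tm A.toFre W.toFre b v.2, 0) := rfl

theorem fact_mul (W : LMod A) (a b : A.V) (v : (fprod (ten A.toFre W.toFre) W.toFre).V) :
    fact W (A.mulL a b) v = fact W a (fact W b v) := by
  rw [fact_apply, fact_apply, fact_apply]
  simp only [map_add, map_zero, add_zero, lam_tm, lam_mul]

/-- the module `F(W)` -/
@[reducible] noncomputable def fmod (W : LMod A) : LMod A :=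
  mkLM (fprod (ten A.toFre W.toFre) W.toFre) (fact W) (fact_cont W) (fact_mul W)

/-- the inclusion `K(W) → F(W)` -/
noncomputable def iot (W : LMod A) : (kmod W).V →ₗ[ℂ] (fmod W).V :=
  LinearMap.inl ℂ _ _ - LinearMap.inr ℂ _ _ ∘ₗ mu W

theorem iot_apply (W : LMod A) (u : (kmod W).V) : iot W u = (u, - mu W u) := by
  unfold iot
  rw [LinearMap.sub_apply, LinearMap.comp_apply]
  change (u, (0 : W.V)) - ((0 : (ten A.toFre W.toFre).V), mu W u) = _
  rw [Prod.mk_sub_mk, sub_zero, zero_sub]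

theorem iot_cont (W : LMod A) : IsCont (kmod W).toFre (fmod W).toFre (iot W) :=
  IsCont.sub (cont_inl _ _) ((cont_inr _ _).comp (mu_cont W))

/-- the projection `F(W) → W` -/
noncomputable def prj (W : LMod A) : (fmod W).V →ₗ[ℂ] W.V :=
  mu W ∘ₗ LinearMap.fst ℂ _ _ + LinearMap.snd ℂ _ _

theorem prj_apply (W : LMod A) (v : (fmod W).V) : prj W v = mu W v.1 + v.2 := rfl

theorem prj_cont (W : LMod A) : IsCont (fmod W).toFre W.toFre (prj W) :=
  IsCont.add ((mu_cont W).comp (cont_fst _ _)) (cont_snd _ _)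

theorem kf_admissible (W : LMod A) : AdmissibleL (kmod W) (fmod W) W (iot W) (prj W) := by
  refine ⟨splitExact_mk (iot_cont W) (prj_cont W) (r := LinearMap.fst ℂ _ _)
    (s := LinearMap.inr ℂ _ _) (cont_fst _ _) (cont_inr _ _) (fun u => ?_) (fun w => ?_)
    (fun v => ?_), fun a u => ?_, fun a v => ?_⟩
  · rw [iot_apply]; rfl
  · rw [prj_apply]
    change mu W 0 + w = w
    rw [map_zero, zero_add]
  · rw [iot_apply, prj_apply]
    change (v.1, - mu W v.1) + ((0 : (ten A.toFre W.toFre).V), mu W v.1 + v.2) = v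
    rw [Prod.mk_add_mk, add_zero, neg_add_cancel_left]
  · change iot W (kap W a u) = fact W a (iot W u)
    rw [iot_apply, iot_apply, mu_kap, fact_apply, kap_apply, map_neg, neg_zero, sub_eq_add_neg]
  · change prj W (fact W a v) = W.actL a (prj W v)
    rw [prj_apply, prj_apply, fact_apply, add_zero, map_add, map_add, mu_lam, mu_tm]

/-! ### Tensoring with a right module -/

theorem exists_rho (Y : RMod A) (W : LMod A) :
    ∃ b : Y.V →ₗ[ℂ] (ten A.toFre W.toFre).V →ₗ[ℂ] (ten Y.toFre W.toFre).V,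
      IsCont₂ Y.toFre (ten A.toFre W.toFre) (ten Y.toFre W.toFre) b ∧
      ∀ y a w, b y (tm A.toFre W.toFre a w) = tm Y.toFre W.toFre (Y.actL y a) w :=
  (ten_isTR A.toFre W.toFre).lift₂
    (triL (D := Y.toFre) (E := A.toFre) (F := W.toFre) (E' := Y.toFre) (G := ten Y.toFre W.toFre)
      Y.actL (tm Y.toFre W.toFre))
    (isCont₃_triL Y.actL_cont (tm_cont _ _)) (fun _ => resp_empty _)

/-- the map `(y, a ⊗ w) ↦ y a ⊗ w` -/
noncomputable def rho (Y : RMod A) (W : LMod A) :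
    Y.V →ₗ[ℂ] (ten A.toFre W.toFre).V →ₗ[ℂ] (ten Y.toFre W.toFre).V := (exists_rho Y W).choose

theorem rho_cont (Y : RMod A) (W : LMod A) :
    IsCont₂ Y.toFre (ten A.toFre W.toFre) (ten Y.toFre W.toFre) (rho Y W) :=
  (exists_rho Y W).choose_spec.1

theorem rho_tm (Y : RMod A) (W : LMod A) (y : Y.V) (a : A.V) (w : W.V) :
    rho Y W y (tm A.toFre W.toFre a w) = tm Y.toFre W.toFre (Y.actL y a) w :=
  (exists_rho Y W).choose_spec.2 y a w

theorem rho_lam (Y : RMod A) (W : LMod A) (y : Y.V) (a : A.V) (u : (ten A.toFre W.toFre).V) :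
    rho Y W (Y.actL y a) u = rho Y W y (lam W a u) := by
  refine ten_ext (f := rho Y W (Y.actL y a)) (f' := rho Y W y ∘ₗ lam W a) ((rho_cont Y W).right _)
    (((rho_cont Y W).right _).comp ((lam_cont W).right _)) (fun b w => ?_) u
  rw [LinearMap.comp_apply, lam_tm, rho_tm, rho_tm, Y.actL_mul]

/-- the bilinear map making `Y ⊗ W` a model of `Y ⊗_A F(W)` -/
noncomputable def tf (Y : RMod A) (W : LMod A) :
    Y.V →ₗ[ℂ] (fmod W).V →ₗ[ℂ] (ten Y.toFre W.toFre).V :=
  (rho Y W).compl₂ (LinearMap.fst ℂ _ _) + (tm Y.toFre W.toFre).compl₂ (LinearMap.snd ℂ _ _)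

theorem tf_apply (Y : RMod A) (W : LMod A) (y : Y.V) (v : (fmod W).V) :
    tf Y W y v = rho Y W y v.1 + tm Y.toFre W.toFre y v.2 := rfl

theorem tf_cont (Y : RMod A) (W : LMod A) :
    IsCont₂ Y.toFre (fmod W).toFre (ten Y.toFre W.toFre) (tf Y W) :=
  IsCont₂.add ((rho_cont Y W).compR (cont_fst _ _)) ((tm_cont _ _).compR (cont_snd _ _))

theorem tf_isTR (Y : RMod A) (W : LMod A) :
    IsTR Y.toFre (fmod W).toFre (balR Y (fmod W)) (ten Y.toFre W.toFre) (tf Y W) := by
  refine ⟨⟨tf_cont Y W, resp_balR.2 fun y a v => ?_⟩, fun G b hb hR => ?_⟩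
  · change tf Y W (Y.actL y a) v = tf Y W y (fact W a v)
    rw [tf_apply, tf_apply, fact_apply, map_zero, add_zero, map_add, rho_lam, rho_tm]
  · have hR' := resp_balR.1 hR
    have hb0 : IsCont₂ Y.toFre W.toFre G (b.compl₂ (LinearMap.inr ℂ _ _)) :=
      IsCont₂.compR hb (cont_inr _ _)
    have key : ∀ y u, tlift (b.compl₂ (LinearMap.inr ℂ _ _)) hb0 (rho Y W y u) = b y (u, 0) := by
      intro y u
      refine ten_ext (f := tlift (b.compl₂ (LinearMap.inr ℂ _ _)) hb0 ∘ₗ rho Y W y)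
        (f' := b y ∘ₗ LinearMap.inl ℂ _ _) ((tlift_cont _ _).comp ((rho_cont Y W).right _))
        (IsCont.comp (hb.right _) (cont_inl _ _)) (fun a w => ?_) u
      rw [LinearMap.comp_apply, LinearMap.comp_apply, rho_tm, tlift_tm, LinearMap.compl₂_apply]
      change b (Y.actL y a) (0, w) = b y (tm A.toFre W.toFre a w, 0)
      rw [hR' y a (0, w)]
      change b y (fact W a (0, w)) = _
      rw [fact_apply, map_zero, zero_add]
    refine ⟨tlift (b.compl₂ (LinearMap.inr ℂ _ _)) hb0, ⟨tlift_cont _ _, fun y v => ?_⟩,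
      fun f hf => ?_⟩
    · rw [tf_apply, map_add, key, tlift_tm, LinearMap.compl₂_apply, ← map_add]
      change b y ((v.1, (0 : W.V)) + ((0 : (ten A.toFre W.toFre).V), v.2)) = b y v
      rw [Prod.mk_add_mk, add_zero, zero_add]
    · ext z
      refine ten_ext hf.1 (tlift_cont _ _) (fun y w => ?_) z
      rw [tlift_tm, LinearMap.compl₂_apply]
      have h1 := hf.2 y (0, w)
      rw [tf_apply, map_zero, zero_add] at h1
      exact h1

/-- a chosen `Y ⊗_A W` -/
noncomputable def tenO (Y : RMod A) (W : LMod A) : Fre.{u} := rten Y.toFre W.toFre (balR Y W)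

/-- its bilinear map -/
noncomputable def tmO (Y : RMod A) (W : LMod A) : Y.V →ₗ[ℂ] W.V →ₗ[ℂ] (tenO Y W).V :=
  rtm Y.toFre W.toFre (balR Y W)

theorem tenO_isTR (Y : RMod A) (W : LMod A) :
    IsTR Y.toFre W.toFre (balR Y W) (tenO Y W) (tmO Y W) := rten_isTR _ _ _

theorem tmO_cont (Y : RMod A) (W : LMod A) : IsCont₂ Y.toFre W.toFre (tenO Y W) (tmO Y W) :=
  (tenO_isTR Y W).cont

theorem tmO_bal (Y : RMod A) (W : LMod A) (y : Y.V) (a : A.V) (w : W.V) :
    tmO Y W (Y.actL y a) w = tmO Y W y (W.actL a w) := resp_balR.1 (tenO_isTR Y W).resp y a w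

/-- the canonical map `Y ⊗ W → Y ⊗_A W` -/
noncomputable def can (Y : RMod A) (W : LMod A) : (ten Y.toFre W.toFre).V →ₗ[ℂ] (tenO Y W).V :=
  tlift (tmO Y W) (tmO_cont Y W)

theorem can_cont (Y : RMod A) (W : LMod A) : IsCont (ten Y.toFre W.toFre) (tenO Y W) (can Y W) :=
  tlift_cont _ _

theorem can_tm (Y : RMod A) (W : LMod A) (y : Y.V) (w : W.V) :
    can Y W (tm Y.toFre W.toFre y w) = tmO Y W y w := tlift_tm _ _ _ _

theorem can_rho (Y : RMod A) (W : LMod A) (y : Y.V) (u : (ten A.toFre W.toFre).V) :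
    can Y W (rho Y W y u) = tmO Y W y (mu W u) := by
  refine ten_ext (f := can Y W ∘ₗ rho Y W y) (f' := tmO Y W y ∘ₗ mu W)
    ((can_cont Y W).comp ((rho_cont Y W).right _)) (((tmO_cont Y W).right _).comp (mu_cont W))
    (fun a w => ?_) u
  rw [LinearMap.comp_apply, LinearMap.comp_apply, rho_tm, can_tm, mu_tm, tmO_bal]

/-- the bilinear map `(y, a ⊗ w) ↦ y a ⊗ w - y ⊗ a w` -/
noncomputable def dbil (Y : RMod A) (W : LMod A) :
    Y.V →ₗ[ℂ] (kmod W).V →ₗ[ℂ] (ten Y.toFre W.toFre).V := (tf Y W).compl₂ (iot W)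

theorem dbil_apply (Y : RMod A) (W : LMod A) (y : Y.V) (u : (kmod W).V) :
    dbil Y W y u = rho Y W y u - tm Y.toFre W.toFre y (mu W u) := by
  unfold dbil
  rw [LinearMap.compl₂_apply, iot_apply, tf_apply, map_neg, sub_eq_add_neg]

theorem dbil_cont (Y : RMod A) (W : LMod A) :
    IsCont₂ Y.toFre (kmod W).toFre (ten Y.toFre W.toFre) (dbil Y W) :=
  (tf_cont Y W).compR (iot_cont W)

theorem dbil_bal (Y : RMod A) (W : LMod A) : Resp (balR Y (kmod W)) (dbil Y W) := by
  refine resp_balR.2 fun y a u => ?_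
  change dbil Y W (Y.actL y a) u = dbil Y W y (kap W a u)
  rw [dbil_apply, dbil_apply, mu_kap, map_zero, sub_zero, kap_apply, map_sub, rho_lam, rho_tm]

/-- the differential `Y ⊗ (A ⊗ W) → Y ⊗ W` -/
noncomputable def dif (Y : RMod A) (W : LMod A) :
    (ten Y.toFre (kmod W).toFre).V →ₗ[ℂ] (ten Y.toFre W.toFre).V :=
  tlift (dbil Y W) (dbil_cont Y W)

theorem dif_cont (Y : RMod A) (W : LMod A) :
    IsCont (ten Y.toFre (kmod W).toFre) (ten Y.toFre W.toFre) (dif Y W) := tlift_cont _ _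

theorem dif_tm (Y : RMod A) (W : LMod A) (y : Y.V) (a : A.V) (w : W.V) :
    dif Y W (tm Y.toFre (kmod W).toFre y (tm A.toFre W.toFre a w)) =
      tm Y.toFre W.toFre (Y.actL y a) w - tm Y.toFre W.toFre y (W.actL a w) := by
  unfold dif
  rw [tlift_tm, dbil_apply, rho_tm, mu_tm]

/-- for flat `Y` the sequence `0 → Y ⊗_A K(W) → Y ⊗ W → Y ⊗_A W → 0` is exact -/
theorem flat_exact {Y : RMod A} (hY : RFlat Y) (W : LMod A) :
    ∃ δ : (tenO Y (kmod W)).V →ₗ[ℂ] (ten Y.toFre W.toFre).V,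
      (∀ v, δ (can Y (kmod W) v) = dif Y W v) ∧
      Exact (tenO Y (kmod W)) (ten Y.toFre W.toFre) (tenO Y W) δ (can Y W) := by
  obtain ⟨δ, hδ, hδ2⟩ := (tenO_isTR Y (kmod W)).lift (dbil Y W) (dbil_cont Y W) (dbil_bal Y W)
  refine ⟨δ, fun v => ?_, ?_⟩
  · refine ten_ext (f := δ ∘ₗ can Y (kmod W)) (f' := dif Y W) (hδ.comp (can_cont _ _))
      (dif_cont _ _) (fun y u => ?_) v
    rw [LinearMap.comp_apply, can_tm]
    unfold dif
    rw [tlift_tm]
    exact hδ2 y u
  · refine hY (kmod W) (fmod W) W (iot W) (prj W) (kf_admissible W) _ _ _ _ _ _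
      (isTensorOver_of (tenO_isTR Y (kmod W))) (isTensorOver_of (tf_isTR Y W))
      (isTensorOver_of (tenO_isTR Y W)) δ (can Y W) hδ.isLin (can_cont _ _).isLin (fun y u => ?_)
      (fun y v => ?_)
    · exact hδ2 y u
    · change can Y W (tf Y W y v) = tmO Y W y (prj W v)
      rw [tf_apply, map_add, can_rho, can_tm, prj_apply, map_add]

theorem can_surj {Y : RMod A} (hY : RFlat Y) (W : LMod A) : Function.Surjective (can Y W) := by
  obtain ⟨δ, _, hE⟩ := flat_exact hY W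
  exact hE.2.2

theorem can_ker {Y : RMod A} (hY : RFlat Y) (W : LMod A) (v : (ten Y.toFre W.toFre).V) :
    can Y W v = 0 ↔ ∃ c, dif Y W c = v := by
  obtain ⟨δ, hδ, hE⟩ := flat_exact hY W
  rw [hE.2.1]
  constructor
  · rintro ⟨n, rfl⟩
    obtain ⟨c, rfl⟩ := can_surj hY (kmod W) n
    exact ⟨c, (hδ c).symm⟩
  · rintro ⟨c, rfl⟩
    exact ⟨_, hδ c⟩

theorem dif_ker {Y : RMod A} (hY : RFlat Y) (W : LMod A) (c : (ten Y.toFre (kmod W).toFre).V) :
    dif Y W c = 0 ↔ ∃ e, dif Y (kmod W) e = c := by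
  obtain ⟨δ, hδ, hE⟩ := flat_exact hY W
  rw [← can_ker hY (kmod W), ← hδ]
  constructor
  · intro h
    exact hE.1 (by rw [h, map_zero])
  · intro h
    rw [h, map_zero]

end Pool.Agent.FreTensor
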