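import Pool.Agent.FreTensor.Env

/-!
Main theorem: the bimodule `X ⊗ Y` is flat.
-/

set_option autoImplicit false

universe u

namespace Pool.Agent.FreTensor

variable {A : FreAlg.{u}} {B : FreAlg.{u}} {t : (unitz A).V →ₗ[ℂ] (opp (unitz A)).V →ₗ[ℂ] B.V}

theorem ura_one (M : BMod A) (x : M.V) : ura M (uone A) x = x := by
  rw [ura_apply]
  change M.ractL x 0 + (1 : ℂ) • x = x
  rw [map_zero, zero_add, one_smul]

theorem ula_one (M : BMod A) (x : M.V) : ula M (uone A) x = x := by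
  rw [ula_apply]
  change M.lactL 0 x + (1 : ℂ) • x = x
  rw [map_zero, LinearMap.zero_apply, zero_add, one_smul]

theorem ura_inc (M : BMod A) (a : A.V) (x : M.V) : ura M (uinc A a) x = M.ractL x a := by
  rw [ura_apply]
  change M.ractL x a + (0 : ℂ) • x = _
  rw [zero_smul, add_zero]

theorem ula_inc (M : BMod A) (a : A.V) (x : M.V) : ula M (uinc A a) x = M.lactL a x := by
  rw [ula_apply]
  change M.lactL a x + (0 : ℂ) • x = _
  rw [zero_smul, add_zero]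

/-- the bimodule as a module over the enveloping algebra -/
@[reducible] noncomputable def envL (M : BMod A) {act : B.V →ₗ[ℂ] M.V →ₗ[ℂ] M.V}
    (ha : IsEnvActL M B t act) : LMod B := mkLM M.toFre act ha.1 ha.2.1

/-- comparison of the tensor product over the enveloping algebra with the bimodule tensor
product -/
theorem env_compare (h : IsEnvL A B t) {M : BMod A} {act : B.V →ₗ[ℂ] M.V →ₗ[ℂ] M.V}
    (ha : IsEnvActL M B t act) (Z : RMod B) {P : Fre.{u}} {p : Z.V →ₗ[ℂ] M.V →ₗ[ℂ] P.V}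
    (hP : IsTR Z.toFre M.toFre (balR Z (envL M ha)) P p) {N : Fre.{u}}
    {n : Z.V →ₗ[ℂ] M.V →ₗ[ℂ] N.V} (hn : IsTR Z.toFre M.toFre (biR (toBi h Z) M) N n) :
    ∃ (φ : P.V →ₗ[ℂ] N.V) (ψ : N.V →ₗ[ℂ] P.V), IsCont P N φ ∧ IsCont N P ψ ∧
      (∀ z x, φ (p z x) = n (Z.actL z (t (uone A) (uone A))) x) ∧ (∀ z x, ψ (n z x) = p z x) ∧
      ∀ w, ψ (φ w) = w := by
  have hbal : ∀ z β x, p (Z.actL z β) x = p z (act β x) := resp_balR.1 hP.resp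
  obtain ⟨φ, hφ, hφ2⟩ := hP.lift (n ∘ₗ Z.actL.flip (t (uone A) (uone A)))
    (IsCont₂.compL hn.cont (Z.actL_cont.left _)) (resp_balR.2 fun z β x => by
      rw [LinearMap.comp_apply, LinearMap.comp_apply, LinearMap.flip_apply,
        LinearMap.flip_apply]
      exact env_bal h ha Z hn z β x)
  obtain ⟨ψ, hψ, hψ2⟩ := hn.lift p hP.cont (resp_biR.2 ⟨fun z a x => by
    change p (Z.actL z (t (uinc A a) (uone A))) x = _
    rw [hbal, envAct_t ha, ula_inc, ura_one], fun z a x => by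
    change p (Z.actL z (t (uone A) (uinc A a))) x = _
    rw [hbal, envAct_t ha, ula_one, ura_inc]⟩)
  refine ⟨φ, ψ, hφ, hψ, hφ2, hψ2, fun w => ?_⟩
  refine hP.ext (f := ψ ∘ₗ φ) (f' := LinearMap.id) (hψ.comp hφ) (IsCont.id _) (fun z x => ?_) w
  rw [LinearMap.comp_apply, hφ2, LinearMap.comp_apply, LinearMap.flip_apply, hψ2, hbal,
    envAct_t ha, ula_one, ura_one, LinearMap.id_apply]

theorem flat_env {X : LMod A} (hX : LFlat X) {Y : RMod A} (hY : RFlat Y) {M : BMod A}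
    {m : X.V →ₗ[ℂ] Y.V →ₗ[ℂ] M.V} (hM : IsTBi X Y M m) (h : IsEnvL A B t)
    {act : B.V →ₗ[ℂ] M.V →ₗ[ℂ] M.V} (ha : IsEnvActL M B t act) : LFlat (envL M ha) := by
  intro Z₁ Z₂ Z₃ i' q' had P₁ P₂ P₃ t₁' t₂' t₃' h1' h2' h3' f' g' hf' hg' hf2 hg2
  obtain ⟨t₁, h1, rfl⟩ := isTensorOver_to h1'
  obtain ⟨t₂, h2, rfl⟩ := isTensorOver_to h2'
  obtain ⟨t₃, h3, rfl⟩ := isTensorOver_to h3'
  obtain ⟨f, hf, rfl⟩ := hf'.exists
  obtain ⟨g, hg, rfl⟩ := hg'.exists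
  obtain ⟨i, hi, rfl⟩ := had.1.2.1.exists
  obtain ⟨q, hq, rfl⟩ := had.1.2.2.1.exists
  obtain ⟨hsp, hi2, hq2⟩ := had
  replace hi2 : ∀ y a, i (Z₁.actL y a) = Z₂.actL (i y) a := hi2
  replace hq2 : ∀ y a, q (Z₂.actL y a) = Z₃.actL (q y) a := hq2
  have n1 := rten_isTR Z₁.toFre M.toFre (biR (toBi h Z₁) M)
  have n2 := rten_isTR Z₂.toFre M.toFre (biR (toBi h Z₂) M)
  have n3 := rten_isTR Z₃.toFre M.toFre (biR (toBi h Z₃) M)
  set N₁ := rten Z₁.toFre M.toFre (biR (toBi h Z₁) M)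
  set N₂ := rten Z₂.toFre M.toFre (biR (toBi h Z₂) M)
  set N₃ := rten Z₃.toFre M.toFre (biR (toBi h Z₃) M)
  set m₁ := rtm Z₁.toFre M.toFre (biR (toBi h Z₁) M)
  set m₂ := rtm Z₂.toFre M.toFre (biR (toBi h Z₂) M)
  set m₃ := rtm Z₃.toFre M.toFre (biR (toBi h Z₃) M)
  have r2 : (∀ z a x, m₂ (Z₂.actL z (t (uinc A a) (uone A))) x = m₂ z (M.lactL a x)) ∧
      ∀ z a x, m₂ (Z₂.actL z (t (uone A) (uinc A a))) x = m₂ z (M.ractL x a) :=
    resp_biR.1 n2.resp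
  have r3 : (∀ z a x, m₃ (Z₃.actL z (t (uinc A a) (uone A))) x = m₃ z (M.lactL a x)) ∧
      ∀ z a x, m₃ (Z₃.actL z (t (uone A) (uinc A a))) x = m₃ z (M.ractL x a) :=
    resp_biR.1 n3.resp
  obtain ⟨nf, hnf, hnf2⟩ := n1.lift (m₂ ∘ₗ i) (IsCont₂.compL n2.cont hi)
    (resp_biR.2 ⟨fun z a x => by
      change m₂ (i (Z₁.actL z (t (uinc A a) (uone A)))) x = m₂ (i z) (M.lactL a x)
      rw [hi2, r2.1],
      fun z a x => by
      change m₂ (i (Z₁.actL z (t (uone A) (uinc A a)))) x = m₂ (i z) (M.ractL x a)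
      rw [hi2, r2.2]⟩)
  obtain ⟨ng, hng, hng2⟩ := n2.lift (m₃ ∘ₗ q) (IsCont₂.compL n3.cont hq)
    (resp_biR.2 ⟨fun z a x => by
      change m₃ (q (Z₂.actL z (t (uinc A a) (uone A)))) x = m₃ (q z) (M.lactL a x)
      rw [hq2, r3.1],
      fun z a x => by
      change m₃ (q (Z₂.actL z (t (uone A) (uinc A a)))) x = m₃ (q z) (M.ractL x a)
      rw [hq2, r3.2]⟩)
  have hadB : AdmissibleB (toBi h Z₁) (toBi h Z₂) (toBi h Z₃) i q :=
    ⟨hsp, fun a z => hi2 _ _, fun z a => hi2 _ _, fun a z => hq2 _ _, fun z a => hq2 _ _⟩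
  have hE := bi_exact hX hY hM hadB n1 n2 n3 hnf hng hnf2 hng2
  obtain ⟨φ₁, ψ₁, c1, c1', l1, r1, k1⟩ := env_compare h ha Z₁ h1 n1
  obtain ⟨φ₂, ψ₂, c2, c2', l2, r2', k2⟩ := env_compare h ha Z₂ h2 n2
  obtain ⟨φ₃, ψ₃, c3, c3', l3, r3', k3⟩ := env_compare h ha Z₃ h3 n3
  refine exact_retract hE φ₁ φ₂ φ₃ ψ₁ ψ₂ ψ₃ k1 k2 k3 (fun x => ?_) (fun x => ?_) (fun x => ?_)
    (fun x => ?_)
  · refine h1.ext (f := φ₂ ∘ₗ f) (f' := nf ∘ₗ φ₁) (c2.comp hf) (hnf.comp c1) (fun z u => ?_) x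
    rw [LinearMap.comp_apply, LinearMap.comp_apply, hf2, l2, l1, hnf2, LinearMap.comp_apply, hi2]
  · refine h2.ext (f := φ₃ ∘ₗ g) (f' := ng ∘ₗ φ₂) (c3.comp hg) (hng.comp c2) (fun z u => ?_) x
    rw [LinearMap.comp_apply, LinearMap.comp_apply, hg2, l3, l2, hng2, LinearMap.comp_apply, hq2]
  · refine n1.ext (f := ψ₂ ∘ₗ nf) (f' := f ∘ₗ ψ₁) (c2'.comp hnf) (hf.comp c1') (fun z u => ?_) x
    rw [LinearMap.comp_apply, LinearMap.comp_apply, hnf2, LinearMap.comp_apply, r2', r1, hf2]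
  · refine n2.ext (f := ψ₃ ∘ₗ ng) (f' := g ∘ₗ ψ₂) (c3'.comp hng) (hg.comp c2') (fun z u => ?_) x
    rw [LinearMap.comp_apply, LinearMap.comp_apply, hng2, LinearMap.comp_apply, r3', r2', hg2]

theorem main_result (A : FreAlg.{u}) (X : LMod A) (Y : RMod A) (hX : LFlat X) (hY : RFlat Y) :
    (∃ (M : BMod A) (m : X.V → Y.V → M.V), IsTensorBi X Y M m) ∧
      ∀ (M : BMod A) (m : X.V → Y.V → M.V), IsTensorBi X Y M m → BFlat M := by
  refine ⟨?_, fun M m' hM' => ⟨?_, fun B t' act' h' ha' => ?_⟩⟩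
  · obtain ⟨M, m, h1, h2, h3⟩ := exists_tensorBi X Y
    exact ⟨M, fun x y => m x y, isTensor_of h1, h2, h3⟩
  · obtain ⟨B, t, h⟩ := exists_env A
    obtain ⟨act, ha⟩ := exists_envAct M h
    exact ⟨B, fun a b => t a b, fun b x => act b x, isEnv_of h, isEnvAct_of ha⟩
  · obtain ⟨hM1, hM2, hM3⟩ := hM'
    obtain ⟨m, hm, rfl⟩ := isTensor_to hM1
    obtain ⟨t, h, rfl⟩ := isEnv_to h'
    obtain ⟨act, ha, rfl⟩ := isEnvAct_to ha'
    exact flat_env hX hY (m := m) ⟨hm, hM2, hM3⟩ h ha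

end Pool.Agent.FreTensor
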