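import Pool.Agent.FreTensor.Tens

/-!
Module structures on tensor products, and the first exactness result.
-/

set_option autoImplicit false

universe u

namespace Pool.Agent.FreTensor

/-! ### The plain tensor product -/

/-- a chosen completed projective tensor product of Fréchet spaces -/
noncomputable def ten (E F : Fre.{u}) : Fre.{u} := rten E F ∅

/-- its canonical bilinear map -/
noncomputable def tm (E F : Fre.{u}) : E.V →ₗ[ℂ] F.V →ₗ[ℂ] (ten E F).V := rtm E F ∅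

theorem resp_empty {E F G : Fre.{u}} (b : E.V →ₗ[ℂ] F.V →ₗ[ℂ] G.V) : Resp ∅ b :=
  fun r hr => absurd hr (Set.notMem_empty r)

theorem ten_isTR (E F : Fre.{u}) : IsTR E F ∅ (ten E F) (tm E F) := rten_isTR E F ∅

theorem tm_cont (E F : Fre.{u}) : IsCont₂ E F (ten E F) (tm E F) := (ten_isTR E F).cont

theorem ten_ext {E F G : Fre.{u}} {f f' : (ten E F).V →ₗ[ℂ] G.V} (hf : IsCont (ten E F) G f)
    (hf' : IsCont (ten E F) G f') (h : ∀ x y, f (tm E F x y) = f' (tm E F x y)) (z : (ten E F).V) :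
    f z = f' z := (ten_isTR E F).ext hf hf' h z

/-- the linear map defined by a jointly continuous bilinear map -/
noncomputable def tlift {E F G : Fre.{u}} (b : E.V →ₗ[ℂ] F.V →ₗ[ℂ] G.V) (hb : IsCont₂ E F G b) :
    (ten E F).V →ₗ[ℂ] G.V := ((ten_isTR E F).lift b hb (resp_empty b)).choose

theorem tlift_cont {E F G : Fre.{u}} (b : E.V →ₗ[ℂ] F.V →ₗ[ℂ] G.V) (hb : IsCont₂ E F G b) :
    IsCont (ten E F) G (tlift b hb) := ((ten_isTR E F).lift b hb (resp_empty b)).choose_spec.1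

@[simp] theorem tlift_tm {E F G : Fre.{u}} (b : E.V →ₗ[ℂ] F.V →ₗ[ℂ] G.V) (hb : IsCont₂ E F G b)
    (x : E.V) (y : F.V) : tlift b hb (tm E F x y) = b x y :=
  ((ten_isTR E F).lift b hb (resp_empty b)).choose_spec.2 x y

/-- the map `1 ⊗ h` -/
noncomputable def tmap (E : Fre.{u}) {F F' : Fre.{u}} (h : F.V →ₗ[ℂ] F'.V) (hh : IsCont F F' h) :
    (ten E F).V →ₗ[ℂ] (ten E F').V := tlift ((tm E F').compl₂ h) ((tm_cont E F').compR hh)

theorem tmap_cont (E : Fre.{u}) {F F' : Fre.{u}} (h : F.V →ₗ[ℂ] F'.V) (hh : IsCont F F' h) :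
    IsCont (ten E F) (ten E F') (tmap E h hh) := tlift_cont _ _

@[simp] theorem tmap_tm (E : Fre.{u}) {F F' : Fre.{u}} (h : F.V →ₗ[ℂ] F'.V) (hh : IsCont F F' h)
    (x : E.V) (y : F.V) : tmap E h hh (tm E F x y) = tm E F' x (h y) := by
  unfold tmap
  rw [tlift_tm, LinearMap.compl₂_apply]

/-! ### Balanced tensor products -/

variable {A : FreAlg.{u}}

/-- the relations `y a ⊗ x = y ⊗ a x` -/
def balR (Y : RMod A) (X : LMod A) : Rels Y.toFre X.toFre :=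
  {r | ∃ y a x, r = ((Y.actL y a, x), (y, X.actL a x))}

theorem resp_balR {Y : RMod A} {X : LMod A} {G : Fre.{u}} {b : Y.V →ₗ[ℂ] X.V →ₗ[ℂ] G.V} :
    Resp (balR Y X) b ↔ ∀ y a x, b (Y.actL y a) x = b y (X.actL a x) := by
  constructor
  · intro h y a x
    exact h _ ⟨y, a, x, rfl⟩
  · rintro h r ⟨y, a, x, rfl⟩
    exact h y a x

theorem exUnique_iff {P G : Fre.{u}} {S : (P.V → G.V) → Prop} :
    (∃! f : P.V → G.V, IsLin P G f ∧ S f) ↔ ∃! f : P.V →ₗ[ℂ] G.V, IsCont P G f ∧ S f := by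
  constructor
  · rintro ⟨f, ⟨hf, hS⟩, hu⟩
    obtain ⟨f, hf', rfl⟩ := hf.exists
    refine ⟨f, ⟨hf', hS⟩, fun g hg => ?_⟩
    exact DFunLike.coe_injective (hu g ⟨hg.1.isLin, hg.2⟩)
  · rintro ⟨f, ⟨hf, hS⟩, hu⟩
    refine ⟨f, ⟨hf.isLin, hS⟩, ?_⟩
    rintro g ⟨hg, hg2⟩
    obtain ⟨g, hg', rfl⟩ := hg.exists
    rw [hu g ⟨hg', hg2⟩]

theorem isTensorOver_of {Y : RMod A} {X : LMod A} {P : Fre.{u}} {t : Y.V →ₗ[ℂ] X.V →ₗ[ℂ] P.V}
    (h : IsTR Y.toFre X.toFre (balR Y X) P t) : IsTensorOver Y X P (fun y x => t y x) := by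
  refine ⟨⟨h.cont.isBil, resp_balR.1 h.resp⟩, fun G b hb hR => ?_⟩
  obtain ⟨b, hbc, rfl⟩ := hb.exists
  exact exUnique_iff.2 (h.2 G b hbc (resp_balR.2 hR))

theorem isTensorOver_to {Y : RMod A} {X : LMod A} {P : Fre.{u}} {t : Y.V → X.V → P.V}
    (h : IsTensorOver Y X P t) : ∃ T : Y.V →ₗ[ℂ] X.V →ₗ[ℂ] P.V,
      IsTR Y.toFre X.toFre (balR Y X) P T ∧ (fun y x => T y x) = t := by
  obtain ⟨⟨h1, h2⟩, h3⟩ := h
  obtain ⟨T, hT, rfl⟩ := h1.exists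
  exact ⟨T, ⟨⟨hT, resp_balR.2 h2⟩, fun G b hb hR =>
    exUnique_iff.1 (h3 G _ hb.isBil (resp_balR.1 hR))⟩, rfl⟩

theorem isTensor_of {E F P : Fre.{u}} {t : E.V →ₗ[ℂ] F.V →ₗ[ℂ] P.V}
    (h : IsTR E F ∅ P t) : IsTensor E F P (fun y x => t y x) := by
  refine ⟨h.cont.isBil, fun G b hb => ?_⟩
  obtain ⟨b, hbc, rfl⟩ := hb.exists
  exact exUnique_iff.2 (h.2 G b hbc (resp_empty _))

theorem isTensor_to {E F P : Fre.{u}} {t : E.V → F.V → P.V}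
    (h : IsTensor E F P t) : ∃ T : E.V →ₗ[ℂ] F.V →ₗ[ℂ] P.V,
      IsTR E F ∅ P T ∧ (fun y x => T y x) = t := by
  obtain ⟨h1, h3⟩ := h
  obtain ⟨T, hT, rfl⟩ := h1.exists
  exact ⟨T, ⟨⟨hT, resp_empty _⟩, fun G b hb _ =>
    exUnique_iff.1 (h3 G _ hb.isBil)⟩, rfl⟩

/-! ### The right module `E ⊗ Z` -/

theorem exists_rtAct (E : Fre.{u}) (Z : RMod A) :
    ∃ b : A.V →ₗ[ℂ] (ten E Z.toFre).V →ₗ[ℂ] (ten E Z.toFre).V,
      IsCont₂ A.toFre (ten E Z.toFre) (ten E Z.toFre) b ∧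
      ∀ a e z, b a (tm E Z.toFre e z) = tm E Z.toFre e (Z.actL z a) :=
  (ten_isTR E Z.toFre).lift₂
    (triR (D := A.toFre) (E := E) (F := Z.toFre) (F' := Z.toFre) (G := ten E Z.toFre)
      Z.actL.flip (tm E Z.toFre))
    (isCont₃_triR Z.actL_cont.flip (tm_cont E Z.toFre)) (fun _ => resp_empty _)

/-- the action on `E ⊗ Z` -/
noncomputable def rtAct (E : Fre.{u}) (Z : RMod A) :
    (ten E Z.toFre).V →ₗ[ℂ] A.V →ₗ[ℂ] (ten E Z.toFre).V := (exists_rtAct E Z).choose.flip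

theorem rtAct_cont (E : Fre.{u}) (Z : RMod A) :
    IsCont₂ (ten E Z.toFre) A.toFre (ten E Z.toFre) (rtAct E Z) :=
  (exists_rtAct E Z).choose_spec.1.flip

theorem rtAct_tm (E : Fre.{u}) (Z : RMod A) (e : E.V) (z : Z.V) (a : A.V) :
    rtAct E Z (tm E Z.toFre e z) a = tm E Z.toFre e (Z.actL z a) :=
  (exists_rtAct E Z).choose_spec.2 a e z

theorem rtAct_mul (E : Fre.{u}) (Z : RMod A) (y : (ten E Z.toFre).V) (a b : A.V) :
    rtAct E Z y (A.mulL a b) = rtAct E Z (rtAct E Z y a) b := by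
  refine ten_ext (f := (rtAct E Z).flip (A.mulL a b))
    (f' := (rtAct E Z).flip b ∘ₗ (rtAct E Z).flip a) ((rtAct_cont E Z).left _)
    (((rtAct_cont E Z).left _).comp ((rtAct_cont E Z).left _)) (fun e z => ?_) y
  rw [LinearMap.comp_apply, LinearMap.flip_apply, LinearMap.flip_apply, LinearMap.flip_apply,
    rtAct_tm, rtAct_tm, rtAct_tm, Z.actL_mul]

/-- the right module `E ⊗ Z` -/
@[reducible] noncomputable def rt (E : Fre.{u}) (Z : RMod A) : RMod A :=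
  mkRM (ten E Z.toFre) (rtAct E Z) (rtAct_cont E Z) (rtAct_mul E Z)

theorem rt_act (E : Fre.{u}) (Z : RMod A) (e : E.V) (z : Z.V) (a : A.V) :
    (rt E Z).actL (tm E Z.toFre e z) a = tm E Z.toFre e (Z.actL z a) := rtAct_tm E Z e z a

/-- `E ⊗ (Z ⊗_A X)` is a model of `(E ⊗ Z) ⊗_A X` -/
theorem model_lemma {X : LMod A} {Z : RMod A} {W : Fre.{u}} {t : Z.V →ₗ[ℂ] X.V →ₗ[ℂ] W.V}
    (h : IsTR Z.toFre X.toFre (balR Z X) W t) (E : Fre.{u}) :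
    ∃ τ : (rt E Z).V →ₗ[ℂ] X.V →ₗ[ℂ] (ten E W).V,
      IsTR (rt E Z).toFre X.toFre (balR (rt E Z) X) (ten E W) τ ∧
      ∀ e z x, τ (tm E Z.toFre e z) x = tm E W e (t z x) := by
  obtain ⟨τ0, hτc, hτ⟩ := (ten_isTR E Z.toFre).lift₂
    (triR (D := X.toFre) (E := E) (F := Z.toFre) (F' := W) (G := ten E W)
      t.flip (tm E W))
    (isCont₃_triR h.cont.flip (tm_cont E W)) (fun _ => resp_empty _)
  simp only [triR_apply, LinearMap.flip_apply] at hτ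
  have hbal := resp_balR.1 h.resp
  refine ⟨τ0.flip, ⟨⟨hτc.flip, resp_balR.2 fun v a x => ?_⟩, fun G b hb hR => ?_⟩, fun e z x => hτ x e z⟩
  · rw [LinearMap.flip_apply, LinearMap.flip_apply]
    refine ten_ext (f := τ0 x ∘ₗ (rt E Z).actL.flip a) (f' := τ0 (X.actL a x))
      ((hτc.right _).comp ((rt E Z).actL_cont.left a)) (hτc.right _) (fun e z => ?_) v
    rw [LinearMap.comp_apply, LinearMap.flip_apply, rt_act, hτ, hτ, hbal]
  · have hR' := resp_balR.1 hR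
    obtain ⟨g, hg, hg2⟩ := h.lift₂
      (triL (D := E) (E := Z.toFre) (F := X.toFre) (E' := ten E Z.toFre) (G := G) (tm E Z.toFre) b)
      (isCont₃_triL (tm_cont E Z.toFre) hb) (fun e => resp_balR.2 fun z a x => by
        rw [triL_apply, triL_apply, ← hR', rt_act])
    simp only [triL_apply] at hg2
    have hf2 : ∀ v x, tlift g hg (τ0.flip v x) = b v x := by
      intro v x
      refine ten_ext (f := tlift g hg ∘ₗ τ0 x) (f' := b.flip x)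
        ((tlift_cont g hg).comp (hτc.right _)) (hb.left x) (fun e z => ?_) v
      rw [LinearMap.comp_apply, hτ, tlift_tm, hg2, LinearMap.flip_apply]
    refine ⟨tlift g hg, ⟨tlift_cont g hg, hf2⟩, fun f' hf' => ?_⟩
    ext w
    refine ten_ext hf'.1 (tlift_cont g hg) (fun e v => ?_) w
    refine h.ext (f := f' ∘ₗ tm E W e) (f' := tlift g hg ∘ₗ tm E W e)
      (hf'.1.comp ((tm_cont E W).right e)) ((tlift_cont g hg).comp ((tm_cont E W).right e))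
      (fun z x => ?_) v
    rw [LinearMap.comp_apply, LinearMap.comp_apply, ← hτ x e z]
    exact (hf'.2 _ _).trans (hf2 _ _).symm

/-! ### Split exact sequences -/

theorem splitExact_mk {E₁ E₂ E₃ : Fre.{u}} {i : E₁.V →ₗ[ℂ] E₂.V} {q : E₂.V →ₗ[ℂ] E₃.V}
    {r : E₂.V →ₗ[ℂ] E₁.V} {s : E₃.V →ₗ[ℂ] E₂.V} (hi : IsCont E₁ E₂ i) (hq : IsCont E₂ E₃ q)
    (hr : IsCont E₂ E₁ r) (hs : IsCont E₃ E₂ s) (hri : ∀ x, r (i x) = x) (hqs : ∀ x, q (s x) = x)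
    (h : ∀ x, i (r x) + s (q x) = x) : SplitExact E₁ E₂ E₃ i q := by
  refine ⟨⟨fun x y hxy => ?_, fun x => ⟨fun hx => ⟨r x, ?_⟩, ?_⟩, fun x => ⟨s x, hqs x⟩⟩, hi.isLin,
    hq.isLin, r, s, hr.isLin, hs.isLin, hri, hqs, h⟩
  · rw [← hri x, hxy, hri]
  · have := h x
    rwa [hx, map_zero, add_zero] at this
  · rintro ⟨y, rfl⟩
    have h1 := h (i y)
    rw [hri, add_eq_left] at h1
    rw [← hqs (q (i y)), h1, map_zero]

theorem rt_admissible (E : Fre.{u}) {Z₁ Z₂ Z₃ : RMod A} {i : Z₁.V →ₗ[ℂ] Z₂.V}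
    {q : Z₂.V →ₗ[ℂ] Z₃.V} (h : AdmissibleR Z₁ Z₂ Z₃ i q) (hi : IsCont Z₁.toFre Z₂.toFre i)
    (hq : IsCont Z₂.toFre Z₃.toFre q) :
    AdmissibleR (rt E Z₁) (rt E Z₂) (rt E Z₃) (tmap E i hi) (tmap E q hq) := by
  obtain ⟨⟨_, _, _, r, s, hr', hs', hri, hqs, hrs⟩, hi2, hq2⟩ := h
  obtain ⟨r, hr, rfl⟩ := hr'.exists
  obtain ⟨s, hs, rfl⟩ := hs'.exists
  replace hi2 : ∀ y a, i (Z₁.actL y a) = Z₂.actL (i y) a := hi2
  replace hq2 : ∀ y a, q (Z₂.actL y a) = Z₃.actL (q y) a := hq2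
  refine ⟨splitExact_mk (r := tmap E r hr) (s := tmap E s hs) (tmap_cont E i hi)
    (tmap_cont E q hq) (tmap_cont E r hr) (tmap_cont E s hs) (fun x => ?_) (fun x => ?_)
    (fun x => ?_), fun y a => ?_, fun y a => ?_⟩
  · refine ten_ext (f := tmap E r hr ∘ₗ tmap E i hi) (f' := LinearMap.id)
      ((tmap_cont E r hr).comp (tmap_cont E i hi)) (IsCont.id _) (fun e z => ?_) x
    rw [LinearMap.comp_apply, tmap_tm, tmap_tm, hri, LinearMap.id_apply]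
  · refine ten_ext (f := tmap E q hq ∘ₗ tmap E s hs) (f' := LinearMap.id)
      ((tmap_cont E q hq).comp (tmap_cont E s hs)) (IsCont.id _) (fun e z => ?_) x
    rw [LinearMap.comp_apply, tmap_tm, tmap_tm, hqs, LinearMap.id_apply]
  · refine ten_ext (f := tmap E i hi ∘ₗ tmap E r hr + tmap E s hs ∘ₗ tmap E q hq)
      (f' := LinearMap.id) (((tmap_cont E i hi).comp (tmap_cont E r hr)).add
      ((tmap_cont E s hs).comp (tmap_cont E q hq))) (IsCont.id _) (fun e z => ?_) x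
    rw [LinearMap.add_apply, LinearMap.comp_apply, LinearMap.comp_apply, tmap_tm, tmap_tm,
      tmap_tm, tmap_tm, LinearMap.id_apply, ← map_add, hrs]
  · refine ten_ext (f := tmap E i hi ∘ₗ (rt E Z₁).actL.flip a)
      (f' := (rt E Z₂).actL.flip a ∘ₗ tmap E i hi)
      ((tmap_cont E i hi).comp ((rt E Z₁).actL_cont.left a))
      (((rt E Z₂).actL_cont.left a).comp (tmap_cont E i hi)) (fun e z => ?_) y
    rw [LinearMap.comp_apply, LinearMap.comp_apply, LinearMap.flip_apply, LinearMap.flip_apply,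
      rt_act, tmap_tm, tmap_tm, rt_act, hi2]
  · refine ten_ext (f := tmap E q hq ∘ₗ (rt E Z₂).actL.flip a)
      (f' := (rt E Z₃).actL.flip a ∘ₗ tmap E q hq)
      ((tmap_cont E q hq).comp ((rt E Z₂).actL_cont.left a))
      (((rt E Z₃).actL_cont.left a).comp (tmap_cont E q hq)) (fun e z => ?_) y
    rw [LinearMap.comp_apply, LinearMap.comp_apply, LinearMap.flip_apply, LinearMap.flip_apply,
      rt_act, tmap_tm, tmap_tm, rt_act, hq2]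

/-! ### Purity -/

/-- `W₁ → W₂ → W₃` is obtained from an admissible sequence of right modules by `(-) ⊗_A X` -/
def Good (X : LMod A) (W₁ W₂ W₃ : Fre.{u}) (f : W₁.V →ₗ[ℂ] W₂.V) (g : W₂.V →ₗ[ℂ] W₃.V) : Prop :=
  ∃ (Z₁ Z₂ Z₃ : RMod A) (i : Z₁.V →ₗ[ℂ] Z₂.V) (q : Z₂.V →ₗ[ℂ] Z₃.V), AdmissibleR Z₁ Z₂ Z₃ i q ∧
    ∃ (t₁ : Z₁.V →ₗ[ℂ] X.V →ₗ[ℂ] W₁.V) (t₂ : Z₂.V →ₗ[ℂ] X.V →ₗ[ℂ] W₂.V)
      (t₃ : Z₃.V →ₗ[ℂ] X.V →ₗ[ℂ] W₃.V),
      IsTR Z₁.toFre X.toFre (balR Z₁ X) W₁ t₁ ∧ IsTR Z₂.toFre X.toFre (balR Z₂ X) W₂ t₂ ∧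
      IsTR Z₃.toFre X.toFre (balR Z₃ X) W₃ t₃ ∧ IsCont W₁ W₂ f ∧ IsCont W₂ W₃ g ∧
      (∀ z x, f (t₁ z x) = t₂ (i z) x) ∧ ∀ z x, g (t₂ z x) = t₃ (q z) x

theorem Good.exact {X : LMod A} (hX : LFlat X) {W₁ W₂ W₃ : Fre.{u}} {f : W₁.V →ₗ[ℂ] W₂.V}
    {g : W₂.V →ₗ[ℂ] W₃.V} (h : Good X W₁ W₂ W₃ f g) : Exact W₁ W₂ W₃ f g := by
  obtain ⟨Z₁, Z₂, Z₃, i, q, had, t₁, t₂, t₃, h1, h2, h3, hf, hg, hf2, hg2⟩ := h
  exact hX Z₁ Z₂ Z₃ i q had W₁ W₂ W₃ _ _ _ (isTensorOver_of h1) (isTensorOver_of h2)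
    (isTensorOver_of h3) f g hf.isLin hg.isLin hf2 hg2

theorem Good.ten {X : LMod A} {W₁ W₂ W₃ : Fre.{u}} {f : W₁.V →ₗ[ℂ] W₂.V}
    {g : W₂.V →ₗ[ℂ] W₃.V} (h : Good X W₁ W₂ W₃ f g) (hf : IsCont W₁ W₂ f) (hg : IsCont W₂ W₃ g)
    (E : Fre.{u}) :
    Good X (ten E W₁) (ten E W₂) (ten E W₃) (tmap E f hf) (tmap E g hg) := by
  obtain ⟨Z₁, Z₂, Z₃, i, q, had, t₁, t₂, t₃, h1, h2, h3, _, _, hf2, hg2⟩ := h
  obtain ⟨τ₁, H1, E1⟩ := model_lemma h1 E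
  obtain ⟨τ₂, H2, E2⟩ := model_lemma h2 E
  obtain ⟨τ₃, H3, E3⟩ := model_lemma h3 E
  have hi : IsCont _ _ i := had.1.2.1.2.2
  have hq : IsCont _ _ q := had.1.2.2.1.2.2
  refine ⟨rt E Z₁, rt E Z₂, rt E Z₃, tmap E i hi, tmap E q hq, rt_admissible E had hi hq, τ₁, τ₂, τ₃,
    H1, H2, H3, tmap_cont E f hf, tmap_cont E g hg, fun v x => ?_, fun v x => ?_⟩
  · refine ten_ext (f := tmap E f hf ∘ₗ τ₁.flip x) (f' := τ₂.flip x ∘ₗ tmap E i hi)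
      ((tmap_cont E f hf).comp (H1.cont.left x)) ((H2.cont.left x).comp (tmap_cont E i hi))
      (fun e z => ?_) v
    rw [LinearMap.comp_apply, LinearMap.comp_apply, LinearMap.flip_apply, LinearMap.flip_apply,
      E1, tmap_tm, tmap_tm, E2, hf2]
  · refine ten_ext (f := tmap E g hg ∘ₗ τ₂.flip x) (f' := τ₃.flip x ∘ₗ tmap E q hq)
      ((tmap_cont E g hg).comp (H2.cont.left x)) ((H3.cont.left x).comp (tmap_cont E q hq))
      (fun e z => ?_) v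
    rw [LinearMap.comp_apply, LinearMap.comp_apply, LinearMap.flip_apply, LinearMap.flip_apply,
      E2, tmap_tm, tmap_tm, E3, hg2]

end Pool.Agent.FreTensor
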