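import Pool.Agent.FreTensor.Compl

/-!
Completed projective tensor products with relations: existence, extension of trilinear maps.
-/

set_option autoImplicit false

universe u

namespace Pool.Agent.FreTensor

open Filter Topology
open scoped TensorProduct

/-! ### Calculus of continuous maps -/

theorem IsCont.nonneg {E F : Fre.{u}} {f : E.V →ₗ[ℂ] F.V} (h : IsCont E F f) (m : ℕ) :
    ∃ (n : ℕ) (C : ℝ), 0 ≤ C ∧ ∀ x, F.sn m (f x) ≤ C * E.sn n x := by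
  obtain ⟨n, C, h⟩ := h m
  refine ⟨n, |C|, abs_nonneg _, fun x => (h x).trans ?_⟩
  exact mul_le_mul_of_nonneg_right (le_abs_self C) (apply_nonneg _ _)

theorem IsCont.nonneg' {E F : Fre.{u}} {f : E.V →ₗ[ℂ] F.V} (h : IsCont E F f) (m k : ℕ) :
    ∃ (n : ℕ) (C : ℝ), k ≤ n ∧ 0 ≤ C ∧ ∀ x, F.sn m (f x) ≤ C * E.sn n x := by
  obtain ⟨n, C, h0, h⟩ := h.nonneg m
  refine ⟨max n k, C, le_max_right _ _, h0, fun x => (h x).trans ?_⟩
  exact mul_le_mul_of_nonneg_left (E.mono' (le_max_left _ _) _) h0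

theorem IsCont₂.nonneg {E F G : Fre.{u}} {b : E.V →ₗ[ℂ] F.V →ₗ[ℂ] G.V} (h : IsCont₂ E F G b)
    (m k : ℕ) : ∃ (n : ℕ) (C : ℝ), k ≤ n ∧ 0 ≤ C ∧ ∀ x y, G.sn m (b x y) ≤ C * E.sn n x * F.sn n y := by
  obtain ⟨n, C, h⟩ := h m
  refine ⟨max n k, |C|, le_max_right _ _, abs_nonneg _, fun x y => (h x y).trans ?_⟩
  have h1 := E.mono' (le_max_left n k) x
  have h2 := F.mono' (le_max_left n k) y
  have h3 := le_abs_self C
  have h4 := apply_nonneg (E.sn n) x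
  have h5 := apply_nonneg (F.sn n) y
  have h6 := abs_nonneg C
  calc C * E.sn n x * F.sn n y ≤ |C| * E.sn n x * F.sn n y := by gcongr
    _ ≤ |C| * E.sn (max n k) x * F.sn (max n k) y := by gcongr

theorem IsCont.id (E : Fre.{u}) : IsCont E E LinearMap.id := fun m => ⟨m, 1, fun x => by simp⟩

theorem IsCont.zero (E F : Fre.{u}) : IsCont E F 0 := fun m => ⟨m, 0, fun x => by simp⟩

theorem IsCont.comp {E F G : Fre.{u}} {g : F.V →ₗ[ℂ] G.V} {f : E.V →ₗ[ℂ] F.V}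
    (hg : IsCont F G g) (hf : IsCont E F f) : IsCont E G (g ∘ₗ f) := by
  intro m
  obtain ⟨n, C, hC, h⟩ := hg.nonneg m
  obtain ⟨k, D, hD, h'⟩ := hf.nonneg n
  refine ⟨k, C * D, fun x => (h _).trans ?_⟩
  rw [mul_assoc]
  exact mul_le_mul_of_nonneg_left (h' x) hC

theorem IsCont.add {E F : Fre.{u}} {f g : E.V →ₗ[ℂ] F.V} (hf : IsCont E F f) (hg : IsCont E F g) :
    IsCont E F (f + g) := by
  intro m
  obtain ⟨n, C, _, hC, h⟩ := hf.nonneg' m 0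
  obtain ⟨k, D, hk, hD, h'⟩ := hg.nonneg' m n
  refine ⟨k, C + D, fun x => (map_add_le_add _ _ _).trans ?_⟩
  have h1 := E.mono' hk x
  rw [add_mul]
  exact add_le_add ((h x).trans (mul_le_mul_of_nonneg_left h1 hC)) (h' x)

theorem IsCont.neg {E F : Fre.{u}} {f : E.V →ₗ[ℂ] F.V} (hf : IsCont E F f) :
    IsCont E F (-f) := by
  intro m
  obtain ⟨n, C, h⟩ := hf m
  refine ⟨n, C, fun x => ?_⟩
  rw [LinearMap.neg_apply, map_neg_eq_map]
  exact h x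

theorem IsCont.sub {E F : Fre.{u}} {f g : E.V →ₗ[ℂ] F.V} (hf : IsCont E F f) (hg : IsCont E F g) :
    IsCont E F (f - g) := by
  rw [sub_eq_add_neg]; exact hf.add hg.neg

theorem IsCont₂.add {E F G : Fre.{u}} {b c : E.V →ₗ[ℂ] F.V →ₗ[ℂ] G.V} (hb : IsCont₂ E F G b)
    (hc : IsCont₂ E F G c) : IsCont₂ E F G (b + c) := by
  intro m
  obtain ⟨n, C, _, hC, h⟩ := hb.nonneg m 0
  obtain ⟨k, D, hk, hD, h'⟩ := hc.nonneg m n
  refine ⟨k, C + D, fun x y => (map_add_le_add _ _ _).trans ?_⟩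
  have h1 := E.mono' hk x
  have h2 := F.mono' hk y
  have h4 := apply_nonneg (E.sn n) x
  have h5 := apply_nonneg (F.sn n) y
  calc G.sn m (b x y) + G.sn m (c x y) ≤ C * E.sn n x * F.sn n y + D * E.sn k x * F.sn k y :=
        add_le_add (h x y) (h' x y)
    _ ≤ C * E.sn k x * F.sn k y + D * E.sn k x * F.sn k y := by gcongr
    _ = (C + D) * E.sn k x * F.sn k y := by ring

theorem IsCont₂.neg {E F G : Fre.{u}} {b : E.V →ₗ[ℂ] F.V →ₗ[ℂ] G.V} (hb : IsCont₂ E F G b) :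
    IsCont₂ E F G (-b) := by
  intro m
  obtain ⟨n, C, h⟩ := hb m
  refine ⟨n, C, fun x y => ?_⟩
  rw [LinearMap.neg_apply, LinearMap.neg_apply, map_neg_eq_map]
  exact h x y

theorem IsCont₂.sub {E F G : Fre.{u}} {b c : E.V →ₗ[ℂ] F.V →ₗ[ℂ] G.V} (hb : IsCont₂ E F G b)
    (hc : IsCont₂ E F G c) : IsCont₂ E F G (b - c) := by
  rw [sub_eq_add_neg]; exact hb.add hc.neg

theorem IsCont₂.flip {E F G : Fre.{u}} {b : E.V →ₗ[ℂ] F.V →ₗ[ℂ] G.V} (hb : IsCont₂ E F G b) :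
    IsCont₂ F E G b.flip := by
  intro m
  obtain ⟨n, C, h⟩ := hb m
  refine ⟨n, C, fun x y => ?_⟩
  rw [LinearMap.flip_apply]
  refine (h y x).trans (le_of_eq ?_)
  ring

theorem IsCont₂.right {E F G : Fre.{u}} {b : E.V →ₗ[ℂ] F.V →ₗ[ℂ] G.V} (hb : IsCont₂ E F G b)
    (x : E.V) : IsCont F G (b x) := by
  intro m
  obtain ⟨n, C, h⟩ := hb m
  exact ⟨n, C * E.sn n x, fun y => h x y⟩

theorem IsCont₂.left {E F G : Fre.{u}} {b : E.V →ₗ[ℂ] F.V →ₗ[ℂ] G.V} (hb : IsCont₂ E F G b)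
    (y : F.V) : IsCont E G (b.flip y) := hb.flip.right y

theorem IsCont₂.compr {E F G H : Fre.{u}} {b : E.V →ₗ[ℂ] F.V →ₗ[ℂ] G.V} {g : G.V →ₗ[ℂ] H.V}
    (hb : IsCont₂ E F G b) (hg : IsCont G H g) : IsCont₂ E F H (b.compr₂ g) := by
  intro m
  obtain ⟨n, C, hC, h⟩ := hg.nonneg m
  obtain ⟨k, D, h'⟩ := hb n
  refine ⟨k, C * D, fun x y => ?_⟩
  rw [LinearMap.compr₂_apply]
  refine (h _).trans ?_
  calc C * G.sn n (b x y) ≤ C * (D * E.sn k x * F.sn k y) := mul_le_mul_of_nonneg_left (h' x y) hC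
    _ = C * D * E.sn k x * F.sn k y := by ring

theorem IsCont₂.compR {E F F' G : Fre.{u}} {b : E.V →ₗ[ℂ] F.V →ₗ[ℂ] G.V} {g : F'.V →ₗ[ℂ] F.V}
    (hb : IsCont₂ E F G b) (hg : IsCont F' F g) : IsCont₂ E F' G (b.compl₂ g) := by
  intro m
  obtain ⟨n, C, _, hC, h⟩ := hb.nonneg m 0
  obtain ⟨k, D, hk, hD, h'⟩ := hg.nonneg' n n
  refine ⟨k, C * D, fun x y => ?_⟩
  rw [LinearMap.compl₂_apply]
  refine (h _ _).trans ?_
  have h1 := E.mono' hk x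
  have h2 := h' y
  have h4 := apply_nonneg (E.sn n) x
  calc C * E.sn n x * F.sn n (g y) ≤ C * E.sn k x * (D * F'.sn k y) := by gcongr
    _ = C * D * E.sn k x * F'.sn k y := by ring

theorem IsCont₂.compL {E E' F G : Fre.{u}} {b : E.V →ₗ[ℂ] F.V →ₗ[ℂ] G.V} {g : E'.V →ₗ[ℂ] E.V}
    (hb : IsCont₂ E F G b) (hg : IsCont E' E g) : IsCont₂ E' F G (b ∘ₗ g) :=
  (hb.flip.compR hg).flip

/-- joint continuity of a trilinear map -/
def IsCont₃ (D E F G : Fre.{u}) (c : D.V →ₗ[ℂ] E.V →ₗ[ℂ] F.V →ₗ[ℂ] G.V) : Prop :=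
  ∀ m, ∃ (n : ℕ) (C : ℝ), ∀ d x y, G.sn m (c d x y) ≤ C * D.sn n d * E.sn n x * F.sn n y

/-- the trilinear map `(d, x, y) ↦ t (β d x) y` -/
def triL {D E F E' G : Fre.{u}} (β : D.V →ₗ[ℂ] E.V →ₗ[ℂ] E'.V) (t : E'.V →ₗ[ℂ] F.V →ₗ[ℂ] G.V) :
    D.V →ₗ[ℂ] E.V →ₗ[ℂ] F.V →ₗ[ℂ] G.V := β.compr₂ t

/-- the trilinear map `(d, x, y) ↦ t x (γ d y)` -/
def triR {D E F F' G : Fre.{u}} (γ : D.V →ₗ[ℂ] F.V →ₗ[ℂ] F'.V) (t : E.V →ₗ[ℂ] F'.V →ₗ[ℂ] G.V) :
    D.V →ₗ[ℂ] E.V →ₗ[ℂ] F.V →ₗ[ℂ] G.V where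
  toFun d := t.compl₂ (γ d)
  map_add' d d' := by ext x y; simp
  map_smul' c d := by ext x y; simp

@[simp] theorem triL_apply {D E F E' G : Fre.{u}} (β : D.V →ₗ[ℂ] E.V →ₗ[ℂ] E'.V)
    (t : E'.V →ₗ[ℂ] F.V →ₗ[ℂ] G.V) (d : D.V) (x : E.V) (y : F.V) :
    triL β t d x y = t (β d x) y := rfl

@[simp] theorem triR_apply {D E F F' G : Fre.{u}} (γ : D.V →ₗ[ℂ] F.V →ₗ[ℂ] F'.V)
    (t : E.V →ₗ[ℂ] F'.V →ₗ[ℂ] G.V) (d : D.V) (x : E.V) (y : F.V) :
    triR γ t d x y = t x (γ d y) := rfl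

theorem isCont₃_triL {D E F E' G : Fre.{u}} {β : D.V →ₗ[ℂ] E.V →ₗ[ℂ] E'.V}
    {t : E'.V →ₗ[ℂ] F.V →ₗ[ℂ] G.V} (hβ : IsCont₂ D E E' β) (ht : IsCont₂ E' F G t) :
    IsCont₃ D E F G (triL β t) := by
  intro m
  obtain ⟨n, C, _, hC, h⟩ := ht.nonneg m 0
  obtain ⟨k, B, hk, hB, h'⟩ := hβ.nonneg n n
  refine ⟨k, C * B, fun d x y => ?_⟩
  rw [triL_apply]
  refine (h _ _).trans ?_
  have h1 := F.mono' hk y
  have h2 := h' d x
  have h4 := apply_nonneg (F.sn n) y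
  have h5 := apply_nonneg (E'.sn n) (β d x)
  calc C * E'.sn n (β d x) * F.sn n y ≤ C * (B * D.sn k d * E.sn k x) * F.sn k y := by gcongr
    _ = C * B * D.sn k d * E.sn k x * F.sn k y := by ring

theorem isCont₃_triR {D E F F' G : Fre.{u}} {γ : D.V →ₗ[ℂ] F.V →ₗ[ℂ] F'.V}
    {t : E.V →ₗ[ℂ] F'.V →ₗ[ℂ] G.V} (hγ : IsCont₂ D F F' γ) (ht : IsCont₂ E F' G t) :
    IsCont₃ D E F G (triR γ t) := by
  intro m
  obtain ⟨n, C, _, hC, h⟩ := ht.nonneg m 0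
  obtain ⟨k, B, hk, hB, h'⟩ := hγ.nonneg n n
  refine ⟨k, C * B, fun d x y => ?_⟩
  rw [triR_apply]
  refine (h _ _).trans ?_
  have h1 := E.mono' hk x
  have h2 := h' d y
  have h4 := apply_nonneg (E.sn n) x
  have h5 := apply_nonneg (F'.sn n) (γ d y)
  calc C * E.sn n x * F'.sn n (γ d y) ≤ C * E.sn k x * (B * D.sn k d * F.sn k y) := by gcongr
    _ = C * B * D.sn k d * E.sn k x * F.sn k y := by ring

/-! ### Tensor products with relations -/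

/-- relations between elementary tensors: the pair `((x, y), (x', y'))` stands for
`x ⊗ y = x' ⊗ y'` -/
abbrev Rels (E F : Fre.{u}) : Type u := Set ((E.V × F.V) × (E.V × F.V))

/-- the bilinear map `b` respects the relations -/
def Resp {E F G : Fre.{u}} (R : Rels E F) (b : E.V →ₗ[ℂ] F.V →ₗ[ℂ] G.V) : Prop :=
  ∀ r ∈ R, b r.1.1 r.1.2 = b r.2.1 r.2.2

/-- `P` is the completed projective tensor product of `E` and `F` modulo the relations `R` -/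
def IsTR (E F : Fre.{u}) (R : Rels E F) (P : Fre.{u}) (t : E.V →ₗ[ℂ] F.V →ₗ[ℂ] P.V) : Prop :=
  (IsCont₂ E F P t ∧ Resp R t) ∧ ∀ (G : Fre.{u}) (b : E.V →ₗ[ℂ] F.V →ₗ[ℂ] G.V),
    IsCont₂ E F G b → Resp R b →
    ∃! f : P.V →ₗ[ℂ] G.V, IsCont P G f ∧ ∀ x y, f (t x y) = b x y

/-- the seminorms compatible with the `n`-th projective seminorm -/
def pset (E F : Fre.{u}) (R : Rels E F) (n : ℕ) : Set (Seminorm ℂ (E.V ⊗[ℂ] F.V)) :=
  {q | (∀ x y, q (x ⊗ₜ y) ≤ E.sn n x * F.sn n y) ∧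
    ∀ r ∈ R, q (r.1.1 ⊗ₜ r.1.2 - r.2.1 ⊗ₜ r.2.2) = 0}

theorem pset_bdd (E F : Fre.{u}) (R : Rels E F) (n : ℕ) : BddAbove (pset E F R n) := by
  rw [Seminorm.bddAbove_iff]
  have h : ∀ v : E.V ⊗[ℂ] F.V, ∃ B : ℝ, ∀ q ∈ pset E F R n, q v ≤ B := by
    intro v
    induction v using TensorProduct.induction_on with
    | zero => exact ⟨0, fun q _ => by simp⟩
    | tmul x y => exact ⟨_, fun q hq => hq.1 x y⟩
    | add v w hv hw =>
      obtain ⟨B, hB⟩ := hv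
      obtain ⟨C, hC⟩ := hw
      exact ⟨B + C, fun q hq => (map_add_le_add q v w).trans (add_le_add (hB q hq) (hC q hq))⟩
  choose g hg using h
  refine ⟨g, ?_⟩
  rintro _ ⟨q, hq, rfl⟩ v
  exact hg v q hq

theorem pset_nonempty (E F : Fre.{u}) (R : Rels E F) (n : ℕ) : (pset E F R n).Nonempty :=
  ⟨0, fun x y => by
    simpa using mul_nonneg (apply_nonneg (E.sn n) x) (apply_nonneg (F.sn n) y), fun r _ => by simp⟩

/-- the `n`-th projective seminorm on the algebraic tensor product -/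
noncomputable def pQ (E F : Fre.{u}) (R : Rels E F) (n : ℕ) : Seminorm ℂ (E.V ⊗[ℂ] F.V) :=
  sSup (pset E F R n)

theorem le_pQ {E F : Fre.{u}} {R : Rels E F} {n : ℕ} {q : Seminorm ℂ (E.V ⊗[ℂ] F.V)}
    (hq : q ∈ pset E F R n) (v : E.V ⊗[ℂ] F.V) : q v ≤ pQ E F R n v :=
  le_csSup (pset_bdd E F R n) hq v

theorem pQ_le {E F : Fre.{u}} {R : Rels E F} {n : ℕ} {v : E.V ⊗[ℂ] F.V} {B : ℝ}
    (h : ∀ q ∈ pset E F R n, q v ≤ B) : pQ E F R n v ≤ B := by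
  unfold pQ
  rw [Seminorm.sSup_apply (pset_bdd E F R n)]
  have : Nonempty (pset E F R n) := (pset_nonempty E F R n).to_subtype
  exact ciSup_le fun q => h q.1 q.2

theorem pQ_mono (E F : Fre.{u}) (R : Rels E F) (n : ℕ) (v : E.V ⊗[ℂ] F.V) :
    pQ E F R n v ≤ pQ E F R (n + 1) v := by
  refine pQ_le fun q hq => le_pQ ⟨fun x y => (hq.1 x y).trans ?_, hq.2⟩ v
  have h1 := E.sn_mono n x
  have h2 := F.sn_mono n y
  have h3 := apply_nonneg (E.sn n) x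
  have h4 := apply_nonneg (F.sn n) y
  gcongr

theorem lift_bound {E F G : Fre.{u}} {R : Rels E F} {b : E.V →ₗ[ℂ] F.V →ₗ[ℂ] G.V} (hR : Resp R b)
    {m n : ℕ} {C : ℝ} (hC : 0 ≤ C) (h : ∀ x y, G.sn m (b x y) ≤ C * E.sn n x * F.sn n y)
    (v : E.V ⊗[ℂ] F.V) : G.sn m (TensorProduct.lift b v) ≤ C * pQ E F R n v := by
  have key : ∀ K : ℝ, 0 < K → C ≤ K → G.sn m (TensorProduct.lift b v) ≤ K * pQ E F R n v := by
    intro K hK hCK
    have hK' : 0 ≤ K⁻¹ := inv_nonneg.2 hK.le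
    let k : NNReal := ⟨K⁻¹, hK'⟩
    have hk : ∀ w, (k • (G.sn m).comp (TensorProduct.lift b)) w =
        K⁻¹ * G.sn m (TensorProduct.lift b w) := fun w => rfl
    have hq : k • (G.sn m).comp (TensorProduct.lift b) ∈ pset E F R n := by
      refine ⟨fun x y => ?_, fun r hr => ?_⟩
      · rw [hk, TensorProduct.lift.tmul, inv_mul_le_iff₀ hK]
        refine (h x y).trans ?_
        rw [mul_assoc]
        exact mul_le_mul_of_nonneg_right hCK (mul_nonneg (apply_nonneg _ _) (apply_nonneg _ _))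
      · rw [hk, map_sub, TensorProduct.lift.tmul,
          TensorProduct.lift.tmul, hR r hr, sub_self, map_zero, mul_zero]
    have h2 := le_pQ hq v
    rw [hk] at h2
    rwa [inv_mul_le_iff₀ hK] at h2
  by_contra hcon
  push Not at hcon
  have hQ : 0 ≤ pQ E F R n v := apply_nonneg _ _
  set Q := pQ E F R n v
  set g := G.sn m (TensorProduct.lift b v)
  have hε : 0 < (g - C * Q) / (2 * (Q + 1)) := div_pos (by linarith) (by positivity)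
  have h3 := key (C + (g - C * Q) / (2 * (Q + 1))) (by linarith) (by linarith)
  have h4 : (g - C * Q) / (2 * (Q + 1)) * Q ≤ (g - C * Q) / 2 := by
    rw [div_mul_eq_mul_div, div_le_div_iff₀ (by positivity) (by norm_num)]
    nlinarith
  nlinarith

theorem dense_ext {V : Type u} [AddCommGroup V] [Module ℂ V] {E G : Fre.{u}} (j : V →ₗ[ℂ] E.V)
    (hj : ∀ (b : E.V) (n : ℕ), ∀ ε > (0 : ℝ), ∃ v, E.sn n (j v - b) < ε)
    {f f' : E.V →ₗ[ℂ] G.V} (hf : IsCont E G f) (hf' : IsCont E G f')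
    (h : ∀ v, f (j v) = f' (j v)) : f = f' := by
  ext b
  obtain ⟨v, hv⟩ := exists_approx j hj b
  refine (hv.comp hf).unique fun n => (hv.comp hf' n).congr fun k => ?_
  simp only [h]

theorem exists_rten (E F : Fre.{u}) (R : Rels E F) :
    ∃ (P : Fre.{u}) (t : E.V →ₗ[ℂ] F.V →ₗ[ℂ] P.V),
      (∀ n x y, P.sn n (t x y) ≤ E.sn n x * F.sn n y) ∧ Resp R t ∧
      (∀ (G : Fre.{u}) (b : E.V →ₗ[ℂ] F.V →ₗ[ℂ] G.V), IsCont₂ E F G b → Resp R b →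
        ∃ f : P.V →ₗ[ℂ] G.V, (∀ x y, f (t x y) = b x y) ∧
          ∀ (m n : ℕ) (C : ℝ), 0 ≤ C → (∀ x y, G.sn m (b x y) ≤ C * E.sn n x * F.sn n y) →
            ∀ z, G.sn m (f z) ≤ C * P.sn n z) ∧
      ∀ (G : Fre.{u}) (f f' : P.V →ₗ[ℂ] G.V), IsCont P G f → IsCont P G f' →
        (∀ x y, f (t x y) = f' (t x y)) → f = f' := by
  obtain ⟨P, j, hp, hd⟩ := exists_completion (pQ E F R) (pQ_mono E F R)
  refine ⟨P, (TensorProduct.mk ℂ E.V F.V).compr₂ j, ?_, ?_, ?_, ?_⟩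
  · intro n x y
    rw [LinearMap.compr₂_apply, TensorProduct.mk_apply, hp]
    exact pQ_le fun q hq => hq.1 x y
  · intro r hr
    rw [← sub_eq_zero]
    apply P.sn_sep
    intro n
    rw [LinearMap.compr₂_apply, LinearMap.compr₂_apply, ← map_sub, hp, TensorProduct.mk_apply,
      TensorProduct.mk_apply]
    exact le_antisymm (pQ_le fun q hq => (hq.2 r hr).le) (apply_nonneg _ _)
  · intro G b hb hR
    have hφ : ∀ m, ∃ (n : ℕ) (C : ℝ), ∀ v,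
        G.sn m (TensorProduct.lift b v) ≤ C * P.sn n (j v) := by
      intro m
      obtain ⟨n, C, _, hC, h⟩ := hb.nonneg m 0
      refine ⟨n, C, fun v => ?_⟩
      rw [hp]
      exact lift_bound hR hC h v
    obtain ⟨f, hf, hf2⟩ := exists_ext j hd (TensorProduct.lift b) hφ
    refine ⟨f, fun x y => ?_, fun m n C hC h z => hf2 m n C (fun v => ?_) z⟩
    · rw [LinearMap.compr₂_apply, TensorProduct.mk_apply, hf, TensorProduct.lift.tmul]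
    · rw [hp]
      exact lift_bound hR hC h v
  · intro G f f' hf hf' h
    refine dense_ext j hd hf hf' fun v => ?_
    have h2 : f ∘ₗ j = f' ∘ₗ j := TensorProduct.ext' fun x y => h x y
    exact LinearMap.congr_fun h2 v

/-- a chosen completed projective tensor product with relations -/
noncomputable def rten (E F : Fre.{u}) (R : Rels E F) : Fre.{u} := (exists_rten E F R).choose

/-- its canonical bilinear map -/
noncomputable def rtm (E F : Fre.{u}) (R : Rels E F) : E.V →ₗ[ℂ] F.V →ₗ[ℂ] (rten E F R).V :=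
  (exists_rten E F R).choose_spec.choose

theorem rten_spec (E F : Fre.{u}) (R : Rels E F) :
      (∀ n x y, (rten E F R).sn n (rtm E F R x y) ≤ E.sn n x * F.sn n y) ∧ Resp R (rtm E F R) ∧
      (∀ (G : Fre.{u}) (b : E.V →ₗ[ℂ] F.V →ₗ[ℂ] G.V), IsCont₂ E F G b → Resp R b →
        ∃ f : (rten E F R).V →ₗ[ℂ] G.V, (∀ x y, f (rtm E F R x y) = b x y) ∧
          ∀ (m n : ℕ) (C : ℝ), 0 ≤ C → (∀ x y, G.sn m (b x y) ≤ C * E.sn n x * F.sn n y) →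
            ∀ z, G.sn m (f z) ≤ C * (rten E F R).sn n z) ∧
      ∀ (G : Fre.{u}) (f f' : (rten E F R).V →ₗ[ℂ] G.V), IsCont (rten E F R) G f →
        IsCont (rten E F R) G f' →
        (∀ x y, f (rtm E F R x y) = f' (rtm E F R x y)) → f = f' :=
  (exists_rten E F R).choose_spec.choose_spec

theorem rten_isTR (E F : Fre.{u}) (R : Rels E F) : IsTR E F R (rten E F R) (rtm E F R) := by
  obtain ⟨h1, h2, h3, h4⟩ := rten_spec E F R
  refine ⟨⟨fun m => ⟨m, 1, fun x y => by simpa using h1 m x y⟩, h2⟩, fun G b hb hR => ?_⟩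
  obtain ⟨f, hf, hf2⟩ := h3 G b hb hR
  have hfc : IsCont (rten E F R) G f := by
    intro m
    obtain ⟨n, C, _, hC, h⟩ := hb.nonneg m 0
    exact ⟨n, C, hf2 m n C hC h⟩
  refine ⟨f, ⟨hfc, hf⟩, fun g hg => ?_⟩
  exact h4 G g f hg.1 hfc fun x y => by rw [hg.2, hf]

theorem rten_lift₂ (D E F G : Fre.{u}) (R : Rels E F) (c : D.V →ₗ[ℂ] E.V →ₗ[ℂ] F.V →ₗ[ℂ] G.V)
    (hc : IsCont₃ D E F G c) (hR : ∀ d, Resp R (c d)) :
    ∃ b : D.V →ₗ[ℂ] (rten E F R).V →ₗ[ℂ] G.V, IsCont₂ D (rten E F R) G b ∧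
      ∀ d x y, b d (rtm E F R x y) = c d x y := by
  obtain ⟨h1, h2, h3, h4⟩ := rten_spec E F R
  have hcn : ∀ m, ∃ (n : ℕ) (C : ℝ), 0 ≤ C ∧
      ∀ d x y, G.sn m (c d x y) ≤ C * D.sn n d * E.sn n x * F.sn n y := by
    intro m
    obtain ⟨n, C, h⟩ := hc m
    refine ⟨n, |C|, abs_nonneg _, fun d x y => (h d x y).trans ?_⟩
    have h5 := apply_nonneg (D.sn n) d
    have h6 := apply_nonneg (E.sn n) x
    have h7 := apply_nonneg (F.sn n) y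
    have h8 := le_abs_self C
    gcongr
  have hc2 : ∀ d, IsCont₂ E F G (c d) := by
    intro d m
    obtain ⟨n, C, h⟩ := hc m
    exact ⟨n, C * D.sn n d, fun x y => h d x y⟩
  have hex := fun d => h3 G (c d) (hc2 d) (hR d)
  choose f hf hf2 using hex
  have hfc : ∀ d, IsCont (rten E F R) G (f d) := by
    intro d m
    obtain ⟨n, C, _, hC, h⟩ := (hc2 d).nonneg m 0
    exact ⟨n, C, hf2 d m n C hC h⟩
  refine ⟨{ toFun := f, map_add' := fun d d' => ?_, map_smul' := fun s d => ?_ }, ?_, ?_⟩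
  · refine h4 G _ _ (hfc _) ((hfc _).add (hfc _)) fun x y => ?_
    rw [hf, LinearMap.add_apply, hf, hf]
    simp
  · refine h4 G _ _ (hfc _) ?_ fun x y => ?_
    · intro m
      obtain ⟨n, C, h⟩ := hfc d m
      refine ⟨n, ‖s‖ * C, fun x => ?_⟩
      simp only [RingHom.id_apply, LinearMap.smul_apply, map_smul_eq_mul]
      rw [mul_assoc]
      exact mul_le_mul_of_nonneg_left (h x) (norm_nonneg _)
    · simp only [RingHom.id_apply, LinearMap.smul_apply, hf]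
      simp
  · intro m
    obtain ⟨n, C, hC, h⟩ := hcn m
    refine ⟨n, C, fun d z => ?_⟩
    exact hf2 d m n (C * D.sn n d) (mul_nonneg hC (apply_nonneg _ _)) (h d) z
  · intro d x y
    exact hf d x y

/-! ### Arbitrary models -/

theorem IsTR.cont {E F P : Fre.{u}} {R : Rels E F} {t : E.V →ₗ[ℂ] F.V →ₗ[ℂ] P.V}
    (h : IsTR E F R P t) : IsCont₂ E F P t := h.1.1

theorem IsTR.resp {E F P : Fre.{u}} {R : Rels E F} {t : E.V →ₗ[ℂ] F.V →ₗ[ℂ] P.V}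
    (h : IsTR E F R P t) : Resp R t := h.1.2

theorem Resp.compr {E F G H : Fre.{u}} {R : Rels E F} {b : E.V →ₗ[ℂ] F.V →ₗ[ℂ] G.V}
    (h : Resp R b) (g : G.V →ₗ[ℂ] H.V) : Resp R (b.compr₂ g : E.V →ₗ[ℂ] F.V →ₗ[ℂ] H.V) := by
  intro r hr
  rw [LinearMap.compr₂_apply, LinearMap.compr₂_apply, h r hr]

theorem IsTR.lift {E F P G : Fre.{u}} {R : Rels E F} {t : E.V →ₗ[ℂ] F.V →ₗ[ℂ] P.V}
    (h : IsTR E F R P t) (b : E.V →ₗ[ℂ] F.V →ₗ[ℂ] G.V) (hb : IsCont₂ E F G b) (hR : Resp R b) :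
    ∃ f : P.V →ₗ[ℂ] G.V, IsCont P G f ∧ ∀ x y, f (t x y) = b x y :=
  (h.2 G b hb hR).exists

theorem IsTR.ext {E F P G : Fre.{u}} {R : Rels E F} {t : E.V →ₗ[ℂ] F.V →ₗ[ℂ] P.V}
    (h : IsTR E F R P t) {f f' : P.V →ₗ[ℂ] G.V} (hf : IsCont P G f) (hf' : IsCont P G f')
    (hff : ∀ x y, f (t x y) = f' (t x y)) (z : P.V) : f z = f' z := by
  have h1 := (h.2 G (t.compr₂ f) (h.cont.compr hf) (h.resp.compr f)).unique ⟨hf, fun x y => rfl⟩
    ⟨hf', fun x y => (hff x y).symm⟩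
  rw [h1]

theorem IsTR.lift₂ {D E F P G : Fre.{u}} {R : Rels E F} {t : E.V →ₗ[ℂ] F.V →ₗ[ℂ] P.V}
    (h : IsTR E F R P t) (c : D.V →ₗ[ℂ] E.V →ₗ[ℂ] F.V →ₗ[ℂ] G.V)
    (hc : IsCont₃ D E F G c) (hR : ∀ d, Resp R (c d)) :
    ∃ b : D.V →ₗ[ℂ] P.V →ₗ[ℂ] G.V, IsCont₂ D P G b ∧ ∀ d x y, b d (t x y) = c d x y := by
  obtain ⟨b, hb, hb2⟩ := rten_lift₂ D E F G R c hc hR
  obtain ⟨φ, hφ, hφ2⟩ := h.lift (rtm E F R) (rten_isTR E F R).cont (rten_isTR E F R).resp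
  refine ⟨b.compl₂ φ, hb.compR hφ, fun d x y => ?_⟩
  rw [LinearMap.compl₂_apply, hφ2, hb2]

end Pool.Agent.FreTensor
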